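import Pool.Agent.P.MP_d66c6d_pr.J.Iface2

/-! Step ARC of the carpet project. -/

namespace Pool.Agent.P.MP_d66c6d_pr

open MeasureTheory ProbabilityTheory Set Metric Filter Topology
open scoped ENNReal

theorem p_ARC :
    S_ARC := by
  rintro G w hc hd hw O hO ⟨ζ0, h0, h1⟩
  by_contra hcon
  push Not at hcon
  have n1 : ∀ z : ℂ, z ∈ sphere (0 : ℂ) 1 ↔ ‖z‖ = 1 := fun z => mem_sphere_zero_iff_norm
  obtain ⟨t, ht⟩ := (isCompact_sphere (0 : ℂ) 1).elim_finite_subcover
    (fun u : sphere (0 : ℂ) 1 => {ζ : ℂ | (u : ℂ) * ζ ∈ O})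
    (fun u => hO.preimage (continuous_const.mul continuous_id)) fun ζ hζ => by
      have h2 : ‖ζ‖ = 1 := (n1 ζ).1 hζ
      have h3 : ζ ≠ 0 := fun h => by simp [h] at h2
      refine mem_iUnion.2 ⟨⟨ζ0 / ζ, (n1 _).2 ?_⟩, ?_⟩
      · rw [norm_div, (n1 _).1 h1, h2, div_one]
      · simpa [h3] using h0
  have hn : ∀ (u : sphere (0 : ℂ) 1) (z : ℂ), ‖(u : ℂ) * z‖ = ‖z‖ := fun u z => by
    rw [norm_mul, (n1 _).1 u.2, one_mul]
  have hh : DiffContOnCl ℂ (fun z => ∏ u ∈ t, (G ((u : ℂ) * z) - w)) (ball 0 1) := by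
    constructor
    · refine DifferentiableOn.fun_finsetProd fun u _ => DifferentiableOn.sub_const ?_ w
      refine hd.comp (differentiable_id.const_mul _).differentiableOn fun z hz => ?_
      rw [mem_ball_zero_iff] at hz ⊢
      exact (hn u z).symm ▸ hz
    · rw [closure_ball _ one_ne_zero]
      refine continuousOn_finsetProd _ fun u _ => ContinuousOn.sub ?_ continuousOn_const
      refine hc.comp (continuous_const.mul continuous_id).continuousOn fun z hz => ?_
      rw [mem_closedBall_zero_iff] at hz ⊢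
      exact (hn u z).symm ▸ hz
  have h4 := Complex.norm_le_of_forall_mem_frontier_norm_le isBounded_ball hh (C := 0)
    (fun z hz => by
      rw [frontier_ball _ one_ne_zero] at hz
      obtain ⟨u, h5, h6⟩ := mem_iUnion₂.1 (ht hz)
      rw [Finset.prod_eq_zero h5, norm_zero]
      rw [hcon _ ⟨h6, (n1 _).2 ((hn u z).trans ((n1 _).1 hz))⟩, sub_self])
    (z := 0) (subset_closure (mem_ball_self one_pos))
  rw [norm_le_zero_iff, Finset.prod_eq_zero_iff] at h4
  obtain ⟨u, -, h5⟩ := h4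
  rw [mul_zero, sub_eq_zero] at h5
  exact hw 0 (mem_ball_self one_pos) h5

end Pool.Agent.P.MP_d66c6d_pr
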