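import Pool.Agent.P.MP_d66c6d_pr.J.Iface
import Pool.Agent.P.MP_d66c6d_pr.N.Iface

/-! Step BMC of the carpet project. -/

namespace Pool.Agent.P.MP_d66c6d_pr

open MeasureTheory ProbabilityTheory Set Metric Filter Topology
open scoped ENNReal

theorem p_BMC (hSTART : S_START) (hBMK : S_BMK) (hENC : S_ENC) :
    S_BMC := by
  intro ν hν
  obtain ⟨a₀, h0, ha⟩ := hSTART ν hν 1 one_pos 1 one_pos 2⁻¹ (by simp)
  have hp : 0 < min a₀ 1 := lt_min h0 one_pos
  refine ⟨min a₀ 1, ⟨hp, min_le_right _ _⟩, fun K r w v hK hw hr hd => ?_⟩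
  set k := w / min a₀ 1 with hk
  have k0 : 0 < k := div_pos hw hp
  have k1 : k * min a₀ 1 = w := div_mul_cancel₀ _ hp.ne'
  have k2 : k ≤ r := by
    rw [hk, div_le_iff₀ hp, mul_comm]
    exact hr
  have hm : MeasurableSet {γ : Br | Disjoint (range γ) K} := by
    simp only [← subset_compl_iff_disjoint_right]
    exact (isOpen_rangeSub hK.1.isOpen_compl).measurableSet
  rw [← ((hBMK ν hν).2 (k ^ 2) (by positivity) v).2.2.1, Real.sqrt_sq k0.le,
    Measure.map_apply (Continuous.measurable (by fun_prop)) hm]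
  refine le_trans (measure_mono ?_) (ha 1 le_rfl 0)
  intro γ hγ hE
  have e1 := hENC.2.1 γ γ 0 0 a₀ (min a₀ 1) 1 1 Subset.rfl (by simp) (by simp) hE
  have e2 := (hENC.2.2.1 γ 0 v (min a₀ 1) 1 k k0).2 e1
  rw [mul_zero, add_zero, k1, mul_one] at e2
  obtain ⟨y, y1, y2⟩ := not_subset.1 (hK.2.2 v)
  obtain ⟨u, u1, u2⟩ := hK.1.exists_infDist_eq_dist ⟨y, y1⟩ v
  rw [mem_closedBall, not_le] at y2
  have h1 := fill_conn hK.2.1 (Disjoint.mono_right inter_subset_left (Disjoint.symm hγ)) u1 y1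
    (e2 (mem_closedBall'.2 (u2 ▸ hd)))
  exact lt_irrefl _ (mem_ball.1 (fill_subset_ball (c := v) (r := dist y v) (by linarith)
    (inter_subset_right.trans (closedBall_subset_ball (by linarith))) h1))

end Pool.Agent.P.MP_d66c6d_pr
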