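import Pool.Agent.P.MP_d66c6d_pr.J.Iface2

/-! Step CAR1 of the carpet project. -/

namespace Pool.Agent.P.MP_d66c6d_pr

open MeasureTheory ProbabilityTheory Set Metric Filter Topology
open scoped ENNReal

theorem p_CAR1 (hCARU : S_CARU) :
    S_CAR1 := by
  intro U f g h hb hl
  have hu := hCARU U f g h hb hl
  have hcl : closure (ball (0 : ℂ) 1) = closedBall 0 1 := closure_ball _ one_ne_zero
  have hne : ∀ x ∈ closedBall (0 : ℂ) 1, (𝓝[ball 0 1] x).NeBot := fun x hx =>
    mem_closure_iff_nhdsWithin_neBot.1 (hcl ▸ hx)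
  have hlim : ∀ x ∈ closedBall (0 : ℂ) 1, ∃ y, Tendsto g (𝓝[ball 0 1] x) (𝓝 y) := fun x hx => by
    have := hne x hx
    exact cauchy_map_iff_exists_tendsto.1
      ((cauchy_nhds.mono nhdsWithin_le_nhds).map_of_le hu inf_le_right)
  have hc : ContinuousOn (extendFrom (ball 0 1) g) (closedBall 0 1) :=
    continuousOn_extendFrom hcl.ge hlim
  have he : EqOn (extendFrom (ball 0 1) g) g (ball 0 1) := extendFrom_extends h.cg
  have hi : extendFrom (ball 0 1) g '' ball 0 1 = U := by
    rw [he.image_eq]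
    exact h.mapsg.image_subset.antisymm fun x hx => ⟨f x, h.mapsf hx, h.left x hx⟩
  refine ⟨_, hc, he, hi, Subset.antisymm ?_ fun w hw => ?_⟩
  · rintro _ ⟨ζ, hζ, rfl⟩
    have h1 := sphere_subset_closedBall hζ
    have h2 := tendsto_extendFrom (hlim ζ h1)
    have := hne ζ h1
    rw [h.op.frontier_eq]
    refine ⟨mem_closure_of_tendsto h2 (eventually_mem_nhdsWithin.mono fun z hz => h.mapsg hz),
      fun hU => ?_⟩
    have h3 := (h.diff.continuousOn.continuousAt (h.op.mem_nhds hU)).tendsto.comp h2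
    have h4 : Tendsto (f ∘ g) (𝓝[ball 0 1] ζ) (𝓝 ζ) :=
      (tendsto_id'.2 nhdsWithin_le_nhds).congr'
        (eventually_mem_nhdsWithin.mono fun z hz => (h.right z hz).symm)
    have h5 := h.mapsf hU
    rw [tendsto_nhds_unique h3 h4, mem_ball] at h5
    exact h5.ne hζ
  · rw [h.op.frontier_eq] at hw
    obtain ⟨z, hz, rfl⟩ := closure_minimal (hi.ge.trans (image_mono ball_subset_closedBall))
      ((isCompact_closedBall 0 1).image_of_continuousOn hc).isClosed hw.1
    refine ⟨z, ?_, rfl⟩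
    rw [← closedBall_sdiff_ball]
    exact ⟨hz, fun hz' => hw.2 (hi.le ⟨z, hz', rfl⟩)⟩

end Pool.Agent.P.MP_d66c6d_pr
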