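import Pool.Agent.P.MP_d66c6d_pr.J.Iface2
import Pool.Agent.P.MP_d66c6d_pr.E.Iface
import Pool.Agent.P.MP_d66c6d_pr.T.Iface

/-! Step CAR2 of the carpet project. -/

namespace Pool.Agent.P.MP_d66c6d_pr

open MeasureTheory ProbabilityTheory Set Metric Filter Topology
open scoped ENNReal

namespace Car2A

/-- The signed distance to the chord, up to a factor. -/
def ell (z₁ z₂ z : ℂ) : ℝ :=
  (z.im - z₁.im) * (z₂.re - z₁.re) - (z.re - z₁.re) * (z₂.im - z₁.im)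

theorem ell_cont (z₁ z₂ : ℂ) : Continuous (ell z₁ z₂) := by
  unfold ell; fun_prop

theorem sph {z : ℂ} : z ∈ sphere (0 : ℂ) 1 ↔ z.re ^ 2 + z.im ^ 2 = 1 := by
  rw [mem_sphere_zero_iff_norm, Complex.norm_eq_sqrt_sq_add_sq, Real.sqrt_eq_one]

theorem dpos {z₁ z₂ : ℂ} (h : z₁ ≠ z₂) : 0 < (z₂.re - z₁.re) ^ 2 + (z₂.im - z₁.im) ^ 2 := by
  by_contra hc
  push Not at hc
  apply h
  apply Complex.ext
  · nlinarith [sq_nonneg (z₂.re - z₁.re), sq_nonneg (z₂.im - z₁.im)]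
  · nlinarith [sq_nonneg (z₂.re - z₁.re), sq_nonneg (z₂.im - z₁.im)]

theorem chord {z₁ z₂ z : ℂ} (h₁ : z₁ ∈ sphere (0 : ℂ) 1) (h₂ : z₂ ∈ sphere (0 : ℂ) 1)
    (h : z₁ ≠ z₂) (hz : z ∈ sphere (0 : ℂ) 1) (hl : ell z₁ z₂ z = 0) : z = z₁ ∨ z = z₂ := by
  have hd := dpos h
  rw [sph] at h₁ h₂ hz
  unfold ell at hl
  set a := z₁.re
  set b := z₁.im
  set u := z₂.re - a with hu
  set v := z₂.im - b with hv
  have hc : z₂.re = a + u := by rw [hu]; ring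
  have he : z₂.im = b + v := by rw [hv]; ring
  set t := ((z.re - a) * u + (z.im - b) * v) / (u ^ 2 + v ^ 2) with ht
  have hx : z.re = a + t * u := by
    rw [ht]; field_simp; linear_combination (-v) * hl
  have hy : z.im = b + t * v := by
    rw [ht]; field_simp; linear_combination u * hl
  rw [hc, he] at h₂
  rw [hx, hy] at hz
  have key : t * (t - 1) * (u ^ 2 + v ^ 2) = 0 := by
    linear_combination hz - t * h₂ + (t - 1) * h₁
  rcases mul_eq_zero.1 ((mul_eq_zero.1 key).resolve_right hd.ne') with h0 | h0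
  · left; apply Complex.ext
    · rw [hx, h0]; ring
    · rw [hy, h0]; ring
  · right
    have h1 : t = 1 := by linarith
    apply Complex.ext
    · rw [hx, hc, h1]; ring
    · rw [hy, he, h1]; ring

theorem sides {z₁ z₂ : ℂ} (h₁ : z₁ ∈ sphere (0 : ℂ) 1) (h₂ : z₂ ∈ sphere (0 : ℂ) 1)
    (h : z₁ ≠ z₂) : (∃ z ∈ sphere (0 : ℂ) 1, 0 < ell z₁ z₂ z) ∧
      ∃ z ∈ sphere (0 : ℂ) 1, ell z₁ z₂ z < 0 := by
  have hd := dpos h
  rw [sph] at h₁ h₂
  unfold ell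
  set a := z₁.re
  set b := z₁.im
  set u := z₂.re - a with hu
  set v := z₂.im - b with hv
  have hc : z₂.re = a + u := by rw [hu]; ring
  have he : z₂.im = b + v := by rw [hv]; ring
  rw [hc, he] at h₂
  obtain ⟨s, hs, hs2⟩ : ∃ s : ℝ, 0 < s ∧ s ^ 2 = u ^ 2 + v ^ 2 :=
    ⟨√(u ^ 2 + v ^ 2), Real.sqrt_pos.2 hd, Real.sq_sqrt hd.le⟩
  have hre : 2 * (a * u + b * v) = -(u ^ 2 + v ^ 2) := by linear_combination h₂ - h₁
  have hq : (b * u - a * v) ^ 2 < s ^ 2 := by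
    have h3 : (b * u - a * v) ^ 2 + (a * u + b * v) ^ 2 = u ^ 2 + v ^ 2 := by
      linear_combination (u ^ 2 + v ^ 2) * h₁
    have h4 : 0 < (a * u + b * v) ^ 2 := by
      have : a * u + b * v ≠ 0 := by intro h0; rw [h0] at hre; linarith
      positivity
    linarith
  have hab := abs_lt_of_sq_lt_sq' hq hs.le
  refine ⟨⟨⟨-v / s, u / s⟩, ?_, ?_⟩, ⟨⟨v / s, -u / s⟩, ?_, ?_⟩⟩
  · rw [sph]; field_simp; linarith
  · have : (u / s - b) * u - (-v / s - a) * v = s - (b * u - a * v) := by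
      field_simp; linear_combination -hs2
    simp only [this]; linarith [hab.2]
  · rw [sph]; field_simp; linarith
  · have : (-u / s - b) * u - (v / s - a) * v = -s - (b * u - a * v) := by
      field_simp; linear_combination hs2
    simp only [this]; linarith [hab.1]

theorem near {G : ℂ → ℂ} (hG : ContinuousOn G (closedBall 0 1)) {ξ : ℂ}
    (hξ : ξ ∈ sphere (0 : ℂ) 1) {O W : Set ℂ} (hO : IsOpen O) (hW : IsOpen W) (h1 : ξ ∈ O)
    (h2 : G ξ ∈ W) : ∃ y ∈ ball (0 : ℂ) 1, y ∈ O ∧ G y ∈ W := by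
  have hc : ξ ∈ closedBall (0 : ℂ) 1 := sphere_subset_closedBall hξ
  have hcl : ξ ∈ closure (ball (0 : ℂ) 1) := by rwa [closure_ball _ one_ne_zero]
  have hne : (𝓝[ball (0 : ℂ) 1] ξ).NeBot := mem_closure_iff_nhdsWithin_neBot.1 hcl
  have e1 : ∀ᶠ y in 𝓝[ball (0 : ℂ) 1] ξ, G y ∈ W :=
    ((hG ξ hc).mono ball_subset_closedBall).eventually (hW.mem_nhds h2)
  have e2 : ∀ᶠ y in 𝓝[ball (0 : ℂ) 1] ξ, y ∈ O := mem_nhdsWithin_of_mem_nhds (hO.mem_nhds h1)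
  have e3 : ∀ᶠ y in 𝓝[ball (0 : ℂ) 1] ξ, y ∈ ball (0 : ℂ) 1 := self_mem_nhdsWithin
  obtain ⟨y, hy1, hy2, hy3⟩ := (e3.and (e2.and e1)).exists
  exact ⟨y, hy1, hy2, hy3⟩

end Car2A

open Car2A in
theorem p_CAR2 (hARC : S_ARC) (hFIMG : S_FIMG) (hEIL : S_EIL) :
    S_CAR2 := by
  intro U f g G hC _ hG hE hS hP
  have hdiff : DifferentiableOn ℂ G (ball 0 1) := (hFIMG U f g hC).2.1.congr hE
  have hU : ∀ z ∈ ball (0 : ℂ) 1, G z ∈ U := fun z hz => by rw [hE hz]; exact hC.mapsg hz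
  have hfG : ∀ z ∈ ball (0 : ℂ) 1, f (G z) = z := fun z hz => by rw [hE hz]; exact hC.right z hz
  have hF : ∀ z ∈ sphere (0 : ℂ) 1, G z ∈ frontier U := fun z hz => hS ▸ mem_image_of_mem G hz
  have hFU : ∀ p ∈ frontier U, p ∉ U := fun p hp hp' => by
    have : p ∈ U ∩ frontier U := ⟨hp', hp⟩
    rw [hC.op.inter_frontier_eq] at this
    exact this
  have hsplit : ∀ z ∈ closedBall (0 : ℂ) 1, z ∈ ball (0 : ℂ) 1 ∨ z ∈ sphere (0 : ℂ) 1 :=
    fun z hz => by rwa [← ball_union_sphere] at hz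
  intro z₁ hz₁ z₂ hz₂ heq
  rcases hsplit z₁ hz₁ with h₁ | h₁ <;> rcases hsplit z₂ hz₂ with h₂ | h₂
  · rw [← hfG z₁ h₁, heq, hfG z₂ h₂]
  · exact absurd (heq ▸ hU z₁ h₁) (hFU _ (hF z₂ h₂))
  · exact absurd (heq ▸ hU z₂ h₂) (hFU _ (hF z₁ h₁))
  by_contra hne
  set w := G z₁ with hw
  have hwF : w ∈ frontier U := hF z₁ h₁
  set L : Set ℂ := closedBall 0 1 ∩ {z | ell z₁ z₂ z = 0} with hL
  have hLc : IsCompact L :=
    (isCompact_closedBall 0 1).inter_right (isClosed_eq (ell_cont z₁ z₂) continuous_const)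
  have hJc : IsCompact (G '' L) := hLc.image_of_continuousOn (hG.mono inter_subset_left)
  have hJ : ∀ p ∈ G '' L, p ∉ U → p = w := by
    rintro _ ⟨z, ⟨hz, hl⟩, rfl⟩ hp
    rcases hsplit z hz with h | h
    · exact absurd (hU z h) hp
    · rcases chord h₁ h₂ hne h hl with rfl | rfl
      · rfl
      · exact heq.symm
  have hom : ∀ z ∈ ball (0 : ℂ) 1, G z ≠ w := fun z hz h => hFU w hwF (h ▸ hU z hz)
  obtain ⟨⟨a, ha, ha'⟩, ⟨b, hb, hb'⟩⟩ := sides h₁ h₂ hne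
  have hO1 : IsOpen {z | 0 < ell z₁ z₂ z} := isOpen_lt continuous_const (ell_cont z₁ z₂)
  have hO2 : IsOpen {z | ell z₁ z₂ z < 0} := isOpen_lt (ell_cont z₁ z₂) continuous_const
  obtain ⟨ξ₁, ⟨hξ₁, hs₁⟩, hn₁⟩ := hARC G w hG hdiff hom _ hO1 ⟨a, ha', ha⟩
  obtain ⟨ξ₂, ⟨hξ₂, hs₂⟩, hn₂⟩ := hARC G w hG hdiff hom _ hO2 ⟨b, hb', hb⟩
  have hsub : Uᶜ \ {w} ⊆ (G '' L)ᶜ := fun p hp hp' => hp.2 (hJ p hp' hp.1)
  have hp₁ : G ξ₁ ∈ Uᶜ \ {w} := ⟨hFU _ (hF _ hs₁), hn₁⟩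
  have hp₂ : G ξ₂ ∈ Uᶜ \ {w} := ⟨hFU _ (hF _ hs₂), hn₂⟩
  have hWs := (hP w hwF).subset_connectedComponentIn hp₁ hsub
  set W := connectedComponentIn (G '' L)ᶜ (G ξ₁) with hW
  have hWo : IsOpen W := hJc.isClosed.isOpen_compl.connectedComponentIn
  obtain ⟨y₁, hy₁, hl₁, hW₁⟩ := near hG hs₁ hO1 hWo hξ₁ (hWs hp₁)
  obtain ⟨y₂, hy₂, hl₂, hW₂⟩ := near hG hs₂ hO2 hWo hξ₂ (hWs hp₂)
  have hWp : IsPathConnected W :=
    hWo.isConnected_iff_isPathConnected.1 ⟨⟨_, hW₁⟩, isPreconnected_connectedComponentIn⟩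
  have j1 : JoinedIn (G '' L)ᶜ (G y₁) (G y₂) :=
    (hWp.joinedIn _ hW₁ _ hW₂).mono (connectedComponentIn_subset _ _)
  have hBp : IsPathConnected (G '' ball 0 1) :=
    ((convex_ball (0 : ℂ) 1).isPathConnected ⟨y₁, hy₁⟩).image' (hG.mono ball_subset_closedBall)
  have j2 : JoinedIn (frontier U)ᶜ (G y₁) (G y₂) :=
    (hBp.joinedIn _ (mem_image_of_mem G hy₁) _ (mem_image_of_mem G hy₂)).mono (by
      rintro _ ⟨z, hz, rfl⟩ hp
      exact hFU _ hp (hU z hz))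
  have hFc : IsCompact (frontier U) :=
    hS ▸ (isCompact_sphere (0 : ℂ) 1).image_of_continuousOn (hG.mono sphere_subset_closedBall)
  have hI : IsPreconnected (G '' L ∩ frontier U) :=
    (subsingleton_singleton.anti (fun p hp => hJ p hp.1 (hFU p hp.2)) :
      (G '' L ∩ frontier U).Subsingleton).isPreconnected
  obtain ⟨γ, hγ⟩ := hEIL.2.2 _ _ hJc hFc hI _ _ j1 j2
  have hR : IsPreconnected (range γ) := isPreconnected_range γ.continuous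
  have hRU : range γ ⊆ U := by
    refine hR.subset_left_of_subset_union hC.op isClosed_closure.isOpen_compl
      (disjoint_compl_right.mono_left subset_closure) ?_ ⟨G y₁, ⟨0, γ.source⟩, hU _ hy₁⟩
    rintro _ ⟨t, rfl⟩
    by_cases hc : γ t ∈ closure U
    · left
      by_contra hn
      exact hγ t (Or.inr (by rw [hC.op.frontier_eq]; exact ⟨hc, hn⟩))
    · exact Or.inr hc
  have hcont : ContinuousOn (fun x => ell z₁ z₂ (f x)) (range γ) :=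
    (ell_cont z₁ z₂).comp_continuousOn (hC.diff.continuousOn.mono hRU)
  obtain ⟨x, hx, hx0⟩ := hR.intermediate_value (a := G y₂) (b := G y₁) ⟨1, γ.target⟩
    ⟨0, γ.source⟩ hcont (show (0 : ℝ) ∈ Icc _ _ from by
      simp only [hfG _ hy₁, hfG _ hy₂]; exact ⟨le_of_lt hl₂, le_of_lt hl₁⟩)
  have hxU := hRU hx
  have hfx := hC.mapsf hxU
  obtain ⟨t, rfl⟩ := hx
  exact hγ t (Or.inl ⟨f (γ t), ⟨ball_subset_closedBall hfx, hx0⟩, by
    rw [hE hfx]; exact hC.left _ hxU⟩)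

end Pool.Agent.P.MP_d66c6d_pr
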