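import Pool.Agent.P.MP_d66c6d_pr.J.Iface2
import Pool.Agent.P.MP_6c8efb_pr.SLE.LLa
import Pool.Agent.P.MP_6c8efb_pr.SLE.LCl

/-! Step CARD of the carpet project. -/

namespace Pool.Agent.P.MP_d66c6d_pr

open MeasureTheory ProbabilityTheory Set Metric Filter Topology
open scoped ENNReal

namespace CardA

open Complex

theorem mem {s θ : ℝ} (hs : 0 < s) :
    -1 + s * cexp (θ * I) ∈ ball (0 : ℂ) 1 ↔ s < 2 * Real.cos θ := by
  have h : ‖-1 + s * cexp (θ * I)‖ ^ 2 = 1 + s * (s - 2 * Real.cos θ) := by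
    rw [Complex.sq_norm, normSq_apply]
    simp only [add_re, add_im, re_ofReal_mul, im_ofReal_mul, exp_ofReal_mul_I_re,
      exp_ofReal_mul_I_im, neg_re, neg_im, one_re, one_im]
    linear_combination s ^ 2 * Real.sin_sq_add_cos_sq θ
  rw [mem_ball_zero_iff, ← sq_lt_one_iff₀ (norm_nonneg _), h]
  exact ⟨fun e => by nlinarith, fun e => by nlinarith⟩

theorem ang {ζ z : ℂ} {s : ℝ} (hs : 0 < s) (hζ : ‖ζ‖ = 1) (hz : z ∈ ball 0 1 ∩ sphere ζ s) :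
    ∃ θ : ℝ, -Real.pi < θ ∧ θ < Real.pi ∧ s < 2 * Real.cos θ ∧
      z = -ζ * (-1 + s * cexp (θ * I)) := by
  have h0 : ζ ≠ 0 := norm_ne_zero_iff.1 (hζ ▸ one_ne_zero)
  have h1 := norm_mul_exp_arg_mul_I ((ζ - z) / ζ)
  rw [norm_div, hζ, div_one, ← dist_eq_norm', mem_sphere.1 hz.2] at h1
  have h2 : z = -ζ * (-1 + s * cexp (((ζ - z) / ζ).arg * I)) := by
    rw [h1]
    field_simp
    ring
  have h3 := (congrArg norm h2).ge.trans_lt (mem_ball_zero_iff.1 hz.1)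
  rw [norm_mul, norm_neg, hζ, one_mul, ← mem_ball_zero_iff, mem hs] at h3
  refine ⟨_, neg_pi_lt_arg _, (arg_le_pi _).lt_of_ne fun e => ?_, h3, h2⟩
  rw [e, Real.cos_pi] at h3
  linarith

end CardA

theorem p_CARD :
    S_CARD := by
  intro g M hg hi hM ε hε s₁ h1
  obtain ⟨t, ht⟩ : ∃ t, t = 7 * (|M| + 1) / ε := ⟨_, rfl⟩
  have h2 : 0 < t := by rw [ht]; positivity
  have h3 : s₁ / Real.exp (t ^ 2) ∈ Ioo 0 s₁ := ⟨div_pos h1.1 (Real.exp_pos _),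
    div_lt_self h1.1 (Real.one_lt_exp_iff.2 (by positivity))⟩
  refine ⟨_, h3, fun ζ hζ => ?_⟩
  rw [mem_sphere_zero_iff_norm] at hζ
  have h4 : MapsTo (fun z => -ζ * z) (ball 0 1) (ball 0 1) := fun z hz => by
    simpa [hζ] using hz
  have h5 : DifferentiableOn ℂ (fun z => g (-ζ * z)) (ball 0 1) := hg.comp (by fun_prop) h4
  have h6 : InjOn (fun z => g (-ζ * z)) (ball 0 1) := hi.comp
    (mul_right_injective₀ (neg_ne_zero.2 (norm_ne_zero_iff.1 (hζ ▸ one_ne_zero)))).injOn h4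
  have h7 : ∀ z ∈ ball (0 : ℂ) 1, ‖z - -1‖ < s₁ → ‖g (-ζ * z)‖ ≤ |M| + 1 := fun z hz _ => by
    linarith [hM _ (h4 hz), le_abs_self M]
  obtain ⟨s, h8, h9, -⟩ := MP_6c8efb_pr.SLE.L.s_La _ _ _ _ (-1) _ _ _ isOpen_ball isOpen_ball h5 h5
    h6 h6 h3.1 h3.2 (by positivity) h7 h7
  rw [div_div_cancel₀ h1.1.ne', Real.log_exp, Real.sqrt_sq h2.le, ht,
    div_div_cancel₀ (by positivity)] at h9
  have hs := h3.1.trans h8.1
  have key : ∀ α β : ℝ, -Real.pi < α → α ≤ β → β < Real.pi → s < 2 * Real.cos α →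
      s < 2 * Real.cos β → dist (g (-ζ * (-1 + s * Complex.exp (β * Complex.I))))
        (g (-ζ * (-1 + s * Complex.exp (α * Complex.I)))) ≤ ε := by
    intro α β a1 a2 a3 a4 a5
    rw [dist_eq_norm]
    refine (ENNReal.ofReal_le_ofReal_iff hε.le).1 (((MP_6c8efb_pr.SLE.L.s_Cl _ _ _ _ isOpen_ball h5
      hs).2.2 α β a1 a2 a3 fun θ hθ => (CardA.mem hs).2 ?_).trans h9)
    rcases le_total 0 θ with h | h
    · linarith [Real.cos_le_cos_of_nonneg_of_le_pi h a3.le hθ.2]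
    · linarith [Real.cos_le_cos_of_nonneg_of_le_pi (neg_nonneg.2 h) (neg_le.1 a1.le)
        (neg_le_neg hθ.1), Real.cos_neg α, Real.cos_neg θ]
  refine ⟨s, h8, fun z hz w hw => ?_⟩
  obtain ⟨α, a1, a2, a3, rfl⟩ := CardA.ang hs hζ hz
  obtain ⟨β, b1, b2, b3, rfl⟩ := CardA.ang hs hζ hw
  rcases le_total α β with h | h
  · exact dist_comm (g _) _ ▸ key α β a1 h b2 a3 b3
  · exact key β α b1 h a2 b3 a3

end Pool.Agent.P.MP_d66c6d_pr
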