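import Pool.Agent.P.MP_d66c6d_pr.J.Iface2
import Pool.Agent.P.MP_d66c6d_pr.E.Iface
import Pool.Agent.P.MP_d66c6d_pr.T.Iface

/-! Step CARU of the carpet project. -/

namespace Pool.Agent.P.MP_d66c6d_pr

open MeasureTheory ProbabilityTheory Set Metric Filter Topology
open scoped ENNReal

namespace CaruA

/-- A small cross cut cuts off a small part of the domain. -/
theorem cut (hEIL : S_EIL) (hFILL : S_FILL) {U : Set ℂ} {f g : ℂ → ℂ} (h : Conf U f g)
    (hb : Bornology.IsBounded U) {η η' s : ℝ} {ζ a z : ℂ} (hη' : 0 < η') (hη : η' ≤ η)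
    (hL : ∀ p ∈ frontier U, ∀ p' ∈ frontier U, dist p p' < η' →
      ∃ Z ⊆ Uᶜ ∩ ball p η, IsPreconnected Z ∧ p ∈ Z ∧ p' ∈ Z)
    (hσ : ∀ w ∈ ball 0 1 ∩ sphere ζ s, dist (g w) a ≤ η' / 4) (hs : s ≤ dist 0 ζ)
    (h0 : g 0 ∉ closedBall a (2 * η)) (hz : z ∈ ball (0 : ℂ) 1) (hz' : dist z ζ ≤ s) :
    g z ∈ closedBall a (2 * η) := by
  by_contra hn
  obtain ⟨Γ, hΓ, hΓ1, hΓ2⟩ : ∃ Γ : Set ℂ, IsCompact Γ ∧ g '' (ball 0 1 ∩ sphere ζ s) ⊆ Γ ∧
      Γ ⊆ closedBall a (η' / 4) :=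
    ⟨_, isCompact_closedBall a _, image_subset_iff.2 hσ, Subset.rfl⟩
  obtain ⟨Z, hZ, hZc, hZU, hZB, hZE⟩ : ∃ Z : Set ℂ, IsCompact Z ∧ IsPreconnected Z ∧ Z ⊆ Uᶜ ∧
      Z ⊆ closedBall a (2 * η) ∧ Γ ∩ frontier U ⊆ Z := by
    rcases (Γ ∩ frontier U).eq_empty_or_nonempty with hE | ⟨b, hb1, hb2⟩
    · exact ⟨∅, isCompact_empty, isPreconnected_empty, empty_subset _, empty_subset _, hE.le⟩
    have h1 : closure (connectedComponentIn (Uᶜ ∩ ball b η) b) ⊆ closedBall a (2 * η) :=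
      closure_minimal (fun w hw => by
        have h2 := mem_ball.1 (connectedComponentIn_subset _ _ hw).2
        have h3 := mem_closedBall.1 (hΓ2 hb1)
        rw [mem_closedBall]
        linarith [dist_triangle w b a]) isClosed_closedBall
    refine ⟨_, (isCompact_closedBall _ _).of_isClosed_subset isClosed_closure h1,
      isPreconnected_connectedComponentIn.closure, closure_minimal
        (fun w hw => (connectedComponentIn_subset _ _ hw).1) h.op.isClosed_compl, h1,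
      fun w hw => subset_closure ?_⟩
    obtain ⟨Z, h2, h3, h4, h5⟩ := hL b hb2 w hw.2 (by
      linarith [dist_triangle_right b w a, mem_closedBall.1 (hΓ2 hb1),
        mem_closedBall.1 (hΓ2 hw.1)])
    exact h3.subset_connectedComponentIn h4 h2 h5
  have hF : IsCompact (frontier U) := isCompact_of_isClosed_isBounded isClosed_frontier
    (hb.closure.subset frontier_subset_closure)
  have hB : fill (Γ ∪ Z) ⊆ closedBall a (2 * η) :=
    (hFILL _ (hΓ.union hZ)).2.2.2.2.2.1 _ (convex_closedBall _ _)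
      (union_subset (hΓ2.trans (closedBall_subset_closedBall (by linarith))) hZB)
  have hU : U ⊆ (frontier U ∪ Z)ᶜ := fun w hw hw' =>
    hw'.elim (fun h' => (h.op.frontier_eq ▸ h').2 hw) fun h' => hZU h' hw
  have hJ := hEIL.2.2 (Γ ∪ Z) (frontier U ∪ Z) (hΓ.union hZ) (hF.union hZ)
    (by rwa [← inter_union_distrib_right, union_eq_self_of_subset_left hZE]) (g z) (g 0)
    (((hFILL _ (hΓ.union hZ)).2.2.2.2.2.2.2.1 _ (fun h' => hn (hB h')) _
      fun h' => h0 (hB h')).mono (compl_subset_compl.2 (subset_fill _)))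
    ((((((convex_ball (0 : ℂ) 1).isPathConnected ⟨z, hz⟩).image' h.cg).joinedIn _
      (mem_image_of_mem g hz) _ (mem_image_of_mem g (mem_ball_self one_pos))).mono
      h.mapsg.image_subset).mono hU)
  have hc : IsPreconnected (range hJ.somePath) := isPreconnected_range hJ.somePath.continuous
  have hr : range hJ.somePath ⊆ (Γ ∪ Z ∪ (frontier U ∪ Z))ᶜ :=
    range_subset_iff.2 hJ.somePath_mem
  have hr' : range hJ.somePath ⊆ U := hc.subset_of_closure_inter_subset h.op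
    ⟨_, hJ.somePath.source_mem_range, h.mapsg hz⟩ fun w hw => by_contra fun hw' =>
      hr hw.2 (Or.inr (Or.inl (h.op.frontier_eq ▸ ⟨hw.1, hw'⟩)))
  obtain ⟨p, hp, e⟩ := hc.intermediate_value (f := fun w => dist (f w) ζ)
    hJ.somePath.source_mem_range hJ.somePath.target_mem_range
    (continuous_dist.comp_continuousOn ((h.diff.continuousOn.mono hr').prodMk continuousOn_const))
    (show s ∈ Icc _ _ from
      ⟨by rwa [h.right z hz], by rwa [h.right 0 (mem_ball_self one_pos)]⟩)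
  exact hr hp (Or.inl (Or.inl (hΓ1 ⟨f p, ⟨h.mapsf (hr' hp), e⟩, h.left p (hr' hp)⟩)))

end CaruA

theorem p_CARU (hCARD : S_CARD) (hFIMG : S_FIMG) (hEIL : S_EIL) (hFILL : S_FILL) :
    S_CARU := by
  intro U f g h hb hL
  refine Metric.uniformContinuousOn_iff.2 fun ε hε => ?_
  obtain ⟨M, hM⟩ := hb.exists_norm_le
  obtain ⟨d₀, hd₀, hU⟩ := Metric.nhds_basis_closedBall.mem_iff.1
    (h.op.mem_nhds (h.mapsg (mem_ball_self one_pos)))
  obtain ⟨η, hη, hη1, hη2⟩ : ∃ η > (0 : ℝ), 4 * η < ε ∧ 2 * η ≤ d₀ :=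
    ⟨min (ε / 8) (d₀ / 2), by positivity, by linarith [min_le_left (ε / 8) (d₀ / 2)],
      by linarith [min_le_right (ε / 8) (d₀ / 2)]⟩
  obtain ⟨r, hr, hr'⟩ := exists_pos_lt_subset_ball one_pos
    ((isCompact_closedBall (g 0) d₀).image_of_continuousOn (h.diff.continuousOn.mono hU)).isClosed
    (h.mapsf.mono_left hU).image_subset
  obtain ⟨η', hη', hL'⟩ := hL η hη
  have hm : 0 < min η' η := lt_min hη' hη
  obtain ⟨s₀, hs₀, hC⟩ := hCARD g M (hFIMG U f g h).2.1 (LeftInvOn.injOn h.right)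
    (fun z hz => hM _ (h.mapsg hz)) (min η' η / 4) (by positivity) (1 - r)
    ⟨by linarith [hr.2], by linarith [hr.1]⟩
  have key : ∀ ζ ∈ sphere (0 : ℂ) 1, ∃ a, ∀ z ∈ ball (0 : ℂ) 1, dist z ζ ≤ s₀ →
      g z ∈ closedBall a (2 * η) := fun ζ hζ => by
    obtain ⟨s, hs, hσ⟩ := hC ζ hζ
    rw [mem_sphere_zero_iff_norm] at hζ
    have h1 : ‖((1 - s : ℝ) : ℂ) * ζ‖ = 1 - s := by
      rw [norm_mul, hζ, mul_one, Complex.norm_of_nonneg (by linarith [hs.2, hr.1])]
    have h2 : ((1 - s : ℝ) : ℂ) * ζ ∈ ball (0 : ℂ) 1 ∩ sphere ζ s := by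
      refine ⟨mem_ball_zero_iff.2 (by linarith [hs.1, hs₀.1]), ?_⟩
      rw [mem_sphere, dist_comm, dist_eq_norm, show ζ - ((1 - s : ℝ) : ℂ) * ζ = (s : ℂ) * ζ by
        push_cast; ring, norm_mul, hζ, mul_one, Complex.norm_of_nonneg (by linarith [hs.1, hs₀.1])]
    refine ⟨_, fun z hz hz' => CaruA.cut hEIL hFILL h hb hm (min_le_right _ _)
      (fun p hp p' hp' hd => hL' p hp p' hp' (hd.trans_le (min_le_left _ _)))
      (fun w hw => hσ w hw _ h2) (by rw [dist_zero_left, hζ]; linarith [hs.2, hr.1])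
      (fun h0 => ?_) hz (hz'.trans hs.1.le)⟩
    have h3 := hr' (mem_image_of_mem f (closedBall_subset_closedBall hη2 (mem_closedBall'.2
      (mem_closedBall.1 h0))))
    rw [h.right _ h2.1, mem_ball_zero_iff, h1] at h3
    linarith [hs.2]
  obtain ⟨δ, hδ, hK⟩ := Metric.uniformContinuousOn_iff.1
    ((isCompact_closedBall (0 : ℂ) (1 - s₀ / 4)).uniformContinuousOn_of_continuous
      (h.cg.mono (closedBall_subset_ball (by linarith [hs₀.1])))) ε hε
  refine ⟨min δ (s₀ / 4), lt_min hδ (by linarith [hs₀.1]), fun x hx y hy hxy => ?_⟩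
  rw [lt_min_iff] at hxy
  by_cases hx' : ‖x‖ ≤ 1 - s₀ / 2
  · refine hK x (mem_closedBall_zero_iff.2 (by linarith [hs₀.1])) y ?_ hxy.1
    rw [mem_closedBall]
    linarith [dist_triangle_left y 0 x, dist_zero_right x]
  · have h1 : 0 < ‖x‖ := by linarith [hs₀.2, hr.1]
    have h2 : dist x ((‖x‖⁻¹ : ℝ) • x) = 1 - ‖x‖ := by
      rw [dist_comm, dist_eq_norm, show (‖x‖⁻¹ : ℝ) • x - x = (‖x‖⁻¹ - 1 : ℝ) • x by
        rw [sub_smul, one_smul], norm_smul, Real.norm_of_nonneg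
          (sub_nonneg.2 ((one_le_inv₀ h1).2 (mem_ball_zero_iff.1 hx).le)), sub_mul,
        inv_mul_cancel₀ h1.ne', one_mul]
    obtain ⟨a, ha⟩ := key ((‖x‖⁻¹ : ℝ) • x) (by
      rw [mem_sphere_zero_iff_norm, norm_smul, norm_inv, norm_norm, inv_mul_cancel₀ h1.ne'])
    have h3 := mem_closedBall.1 (ha x hx (by linarith [hs₀.1]))
    have h4 := mem_closedBall.1 (ha y hy (by
      linarith [hs₀.1, dist_triangle_left y ((‖x‖⁻¹ : ℝ) • x) x]))
    linarith [dist_triangle_right (g x) (g y) a]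

end Pool.Agent.P.MP_d66c6d_pr
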