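import Pool.Agent.P.MP_d66c6d_pr.E.Iface
import Pool.Agent.P.MP_d66c6d_pr.U.Iface
import Pool.Agent.P.MP_d66c6d_pr.L.Iface

/-!
The outer boundaries of the clusters are simple loops: definitions.
-/

namespace Pool.Agent.P.MP_d66c6d_pr

open MeasureTheory ProbabilityTheory Set Metric Filter Topology
open scoped ENNReal

/-- `Γ` is the local total-variation limit of the nested ensembles in large discs. -/
def IsCLE0 (ν : Measure Br) (κ : ℝ) {Ω : Type} [MeasurableSpace Ω] (P : Measure Ω)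
    (Γ : Ω → Set (Set ℂ)) : Prop :=
  IsProbabilityMeasure P ∧
  ∃ (Ω₀ : Type) (_ : MeasurableSpace Ω₀) (_ : StandardBorelSpace Ω₀) (P₀ : Measure Ω₀)
    (N : Ω₀ → Set Lp), IsPPP P₀ (intensity κ • loopMeasure ν) N ∧
    ∀ ρ > (0 : ℝ), ∀ η > (0 : ℝ≥0∞), ∃ R₀ : ℝ, ∀ R ≥ R₀, ∃ Q : Measure (Ω × (ℕ → Ω₀)),
      Q.map Prod.fst = P ∧ Q.map Prod.snd = Measure.infinitePi (fun _ : ℕ => P₀) ∧
      Q {p | within ρ (Γ p.1) ≠ within ρ (nested2 (fun k => trace '' N (p.2 k)) (ball 0 R))} ≤ η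

/-- `θ` is the distance exponent at the intensity `c`. -/
def Lvl0 (ν : Measure Br) (c θ : ℝ) : Prop :=
  ∃ (Ω : Type) (_ : MeasurableSpace Ω) (_ : StandardBorelSpace Ω) (P : Measure Ω)
    (Γ : Ω → Set (Set ℂ)) (κ : ℝ), intensity κ = ENNReal.ofReal c ∧ IsCLE0 ν κ P Γ ∧
    IsDistExp P (fun ω => firstCarpet (Γ ω)) θ

/-- `K` lies in the closure of one component of the interior of its filling. -/
def Solid (K : Set ℂ) : Prop := ∃ I ⊆ interior (fill K), IsPreconnected I ∧ K ⊆ closure I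

/-- Close points of `E` are joined by small connected subsets of `A`. -/
def LCon (E A : Set ℂ) : Prop := ∀ η > (0 : ℝ), ∃ η' > (0 : ℝ), ∀ p ∈ E, ∀ p' ∈ E,
  dist p p' < η' → ∃ Z ⊆ A ∩ ball p η, IsPreconnected Z ∧ p ∈ Z ∧ p' ∈ Z

/-- A chart of the outside of `F`, through the inversion at the point `a`. -/
def ExtMap (F : Set ℂ) (a : ℂ) (G : ℂ → ℂ) : Prop :=
  ContinuousOn G (closedBall 0 1) ∧ InjOn G (closedBall 0 1) ∧ G 0 = 0 ∧
    (fun z => a + (G z)⁻¹) '' (ball 0 1 \ {0}) = Fᶜ ∧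
    (fun z => a + (G z)⁻¹) '' sphere 0 1 = frontier F

/-- A chart of the inside of `F`. -/
def IntMap (F : Set ℂ) (H : ℂ → ℂ) : Prop :=
  ContinuousOn H (closedBall 0 1) ∧ InjOn H (closedBall 0 1) ∧ H '' ball 0 1 = interior F ∧
    H '' sphere 0 1 = frontier F

/-- The part of the path before it meets `B`. -/
def arm (γ : Br) (B : Set ℂ) : Set ℂ := γ '' {s | ∀ s' ≤ s, γ s' ∉ B}

/-- Both paths meet `B`, and their first parts do not meet their last parts. -/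
def Neck (B : Set ℂ) (α β : Br) : Prop := (range α ∩ B).Nonempty ∧ (range β ∩ B).Nonempty ∧
  Disjoint (arm α B ∪ arm β B) (arm (rev α) B ∪ arm (rev β) B)

/-- `K` is a closed connected set of size more than `r`. -/
def Wide (r : ℝ) (K : Set ℂ) : Prop :=
  IsClosed K ∧ IsPreconnected K ∧ ∀ v : ℂ, ¬ K ⊆ closedBall v r

/-- The Green measures from `x`, integrated over the end point. -/
noncomputable def GS (ν : Measure Br) (x : ℂ) : Measure TP :=
  ((((volume : Measure ℂ).prod ((volume : Measure ℝ).restrict (Ioi 0))).withDensity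
      fun q => hk q.2 (q.1 - x)).prod ν).map fun q => (q.1.2, seg x q.1.1 q.1.2 q.2)

/-- Paths that move by less than `η` in time `δ`. -/
def Slow (δ η : ℝ) : Set TP :=
  {p | ∀ s s' : unitInterval, |(s : ℝ) - s'| * p.1 ≤ δ → dist (p.2 s) (p.2 s') < η}

/-- Paths whose first visit of the disc happens in the last `δ` units of time. -/
def Win (x : ℂ) (ρ δ : ℝ) : Set TP :=
  {p | (range p.2 ∩ closedBall x ρ).Nonempty ∧
    ∀ s : unitInterval, (s : ℝ) * p.1 < p.1 - δ → p.2 s ∉ closedBall x ρ}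

/-- Admissible first parts. -/
def Hd (x : ℂ) (η δ T : ℝ) : Set TP :=
  {p | p.1 ≤ T ∧ p ∈ Win x (4 * η) δ ∧ p.2 1 ∈ ball x (5 * η)}

/-- Admissible reversed last parts. -/
def Tl (x : ℂ) (η T : ℝ) : Set TP :=
  {p | p.1 ≤ T ∧ p.2 1 ∈ ball x (13 * η) ∧ Disjoint (range p.2) (closedBall x (12 * η))}

/-- The mass of the paths from `c` to the disc around `x` that avoid `Z`. -/
noncomputable def phi (ν : Measure Br) (c : ℂ) (T : ℝ) (x : ℂ) (η : ℝ) (Z : Set ℂ) : ℝ≥0∞ :=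
  ∫⁻ z in ball x (13 * η), grM ν c z {p | p.1 ≤ T ∧ Disjoint (range p.2) Z}

/-- The integral over two marked times of a function of the first part and of the reversed last
part. -/
noncomputable def mk2 (Ψ : TP × TP → ℝ≥0∞) (p : TP) : ℝ≥0∞ :=
  ∫⁻ a in Ioo (0 : ℝ) p.1, ∫⁻ a' in Ioo (0 : ℝ) (p.1 - a),
    Ψ ((pcs a a' p).1, trev (pcs a a' p).2.2)

/-- Slow paths from `a` to `c` of duration at most `T`. -/
def Gd (a c : ℂ) (η δ T : ℝ) : Set TP :=
  {p | 0 < p.1 ∧ p.1 ≤ T ∧ p.2 0 = a ∧ p.2 1 = c ∧ p ∈ Slow δ η}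

theorem arm_anti (γ : Br) {B B' : Set ℂ} (h : B ⊆ B') : arm γ B' ⊆ arm γ B :=
  image_mono fun _ hs s' h' hB => hs s' h' (h hB)

theorem arm_subset (γ : Br) (B : Set ℂ) : arm γ B ⊆ range γ \ B := by
  rintro _ ⟨s, hs, rfl⟩
  exact ⟨mem_range_self s, hs s le_rfl⟩

theorem Neck.mono {B B' : Set ℂ} {α β : Br} (h : Neck B α β) (hB : B ⊆ B') : Neck B' α β :=
  ⟨h.1.mono (inter_subset_inter_right _ hB), h.2.1.mono (inter_subset_inter_right _ hB),
    h.2.2.mono (union_subset_union (arm_anti _ hB) (arm_anti _ hB))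
      (union_subset_union (arm_anti _ hB) (arm_anti _ hB))⟩

theorem phi_anti (ν : Measure Br) (c : ℂ) (T : ℝ) (x : ℂ) (η : ℝ) {Z Z' : Set ℂ} (h : Z ⊆ Z') :
    phi ν c T x η Z' ≤ phi ν c T x η Z :=
  lintegral_mono fun _ => measure_mono fun _ hp => ⟨hp.1, hp.2.mono_right h⟩

theorem lintegral_GS (ν : Measure Br) [SFinite ν] (x : ℂ) {Φ : TP → ℝ≥0∞} (hΦ : Measurable Φ) :
    ∫⁻ p, Φ p ∂GS ν x = ∫⁻ y, ∫⁻ p, Φ p ∂grM ν x y := by
  have h1 : Measurable fun q : (ℂ × ℝ) × Br => ((q.1.2, seg x q.1.1 q.1.2 q.2) : TP) := by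
    fun_prop
  have h0 : Measurable fun q : (ℂ × ℝ) × Br => Φ (q.1.2, seg x q.1.1 q.1.2 q.2) := hΦ.comp h1
  have h2 : Measurable fun q : ℂ × ℝ => hk q.2 (q.1 - x) := by fun_prop
  have h3 := h2.mul (h0.lintegral_prod_right' (ν := ν))
  rw [GS, lintegral_map hΦ h1, lintegral_prod _ h0.aemeasurable,
    lintegral_withDensity_eq_lintegral_mul _ h2 h0.lintegral_prod_right',
    lintegral_prod _ (by exact h3.aemeasurable)]
  refine lintegral_congr fun y => ?_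
  rw [lintegral_grM ν x y hΦ]
  refine lintegral_congr fun t => ?_
  rw [lintegral_brM ν t x y (F := fun γ => Φ (t, γ)) (by fun_prop)]
  rfl

instance instSFiniteGS (ν : Measure Br) [SFinite ν] (x : ℂ) : SFinite (GS ν x) := by
  unfold GS
  infer_instance

theorem IsCLE.zero {ν : Measure Br} {κ : ℝ} {Ω : Type} [MeasurableSpace Ω] {P : Measure Ω}
    {Γ : Ω → Set (Set ℂ)} (h : IsCLE ν κ P Γ) : IsCLE0 ν κ P Γ := ⟨h.1, h.2.2⟩

end Pool.Agent.P.MP_d66c6d_pr
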