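import Pool.Agent.P.MP_d66c6d_pr.J.Iface
import Pool.Agent.P.MP_d66c6d_pr.C.Iface
import Pool.Agent.P.MP_d66c6d_pr.N.Iface
import Pool.Agent.P.MP_d66c6d_pr.B.Iface

/-! Step ESC of the carpet project. -/

namespace Pool.Agent.P.MP_d66c6d_pr

open MeasureTheory ProbabilityTheory Set Metric Filter Topology
open scoped ENNReal

namespace EscA

theorem pw {u α : ℝ} (hu : 0 < u) (h0 : 0 < α) (h1 : α ≤ 1) : (√u)⁻¹ ^ α ≤ 1 + u⁻¹ := by
  have hs : 0 < (√u)⁻¹ := inv_pos.2 (Real.sqrt_pos.2 hu)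
  have hi : 0 < u⁻¹ := inv_pos.2 hu
  rcases le_total (√u)⁻¹ 1 with h | h
  · linarith [Real.rpow_le_one hs.le h h0.le]
  · have h2 := Real.rpow_le_rpow_of_exponent_le h (show α ≤ (2 : ℕ) by push_cast; linarith)
    rw [Real.rpow_natCast, inv_pow, Real.sq_sqrt hu.le] at h2
    linarith

theorem num {a r t T C w α d : ℝ} (hr : 0 < r) (ht : 0 < t) (hT : t ≤ T) (hC : 0 < C)
    (hw : 0 < w) (h0 : 0 < α) (h1 : α ≤ 1) (hd : r ≤ d) (ha : 0 ≤ a)
    (hA : a ≤ Real.exp (-d ^ 2 / (2 * t)) / (2 * Real.pi * t))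
    (hB : a ≤ 1 / (Real.pi * t) * (C * (w / √(min (t / 2) (r ^ 2))) ^ α)) :
    a ≤ (1 + 24 * C / r ^ 6 * (T + 2 + T / r ^ 2)) * w ^ (α / 2) := by
  have hpi := Real.pi_gt_three
  have hT0 : 0 < T := ht.trans_le hT
  have hu : 0 < min (t / 2) (r ^ 2) := lt_min (by positivity) (by positivity)
  have e1 : Real.exp (-d ^ 2 / (2 * t)) ≤ 48 * t ^ 3 / r ^ 6 := by
    have h2 := Real.pow_div_factorial_le_exp (r ^ 2 / (2 * t)) (by positivity) 3
    have h3 : Real.exp (-d ^ 2 / (2 * t)) ≤ (Real.exp (r ^ 2 / (2 * t)))⁻¹ := by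
      rw [← Real.exp_neg, Real.exp_le_exp, neg_div, neg_le_neg_iff]
      exact div_le_div_of_nonneg_right (pow_le_pow_left₀ hr.le hd 2) (by positivity)
    refine h3.trans ((inv_anti₀ (by positivity) h2).trans (le_of_eq ?_))
    simp only [Nat.factorial]
    push_cast
    field_simp
    norm_num
  have e2 : (min (t / 2) (r ^ 2))⁻¹ ≤ 2 / t + 1 / r ^ 2 := by
    have p1 : 0 < 2 / t := by positivity
    have p2 : 0 < 1 / r ^ 2 := by positivity
    rcases min_choice (t / 2) (r ^ 2) with h | h <;> rw [h]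
    · rw [inv_div]; linarith
    · rw [← one_div]; linarith
  have e3 : (w / √(min (t / 2) (r ^ 2))) ^ α ≤ w ^ α * (1 + (2 / t + 1 / r ^ 2)) := by
    rw [div_eq_mul_inv, Real.mul_rpow hw.le (by positivity)]
    exact mul_le_mul_of_nonneg_left ((pw hu h0 h1).trans (by linarith)) (by positivity)
  have b1 : a ≤ 48 * t ^ 3 / r ^ 6 / (2 * t) := hA.trans
    (div_le_div₀ (by positivity) e1 (by positivity) (by nlinarith))
  have b2 : a ≤ 1 / t * (C * (w ^ α * (1 + (2 / t + 1 / r ^ 2)))) := hB.trans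
    (mul_le_mul (one_div_le_one_div_of_le ht (by nlinarith))
      (mul_le_mul_of_nonneg_left e3 hC.le) (by positivity) (by positivity))
  have b3 := mul_le_mul b1 b2 ha (by positivity)
  have e4 : 48 * t ^ 3 / r ^ 6 / (2 * t) * (1 / t * (C * (w ^ α * (1 + (2 / t + 1 / r ^ 2))))) =
      24 * C / r ^ 6 * (t + 2 + t / r ^ 2) * w ^ α := by
    field_simp
    ring
  have e5 : 24 * C / r ^ 6 * (t + 2 + t / r ^ 2) ≤ 24 * C / r ^ 6 * (T + 2 + T / r ^ 2) := by
    gcongr
  have e6 : 0 ≤ 24 * C / r ^ 6 * (T + 2 + T / r ^ 2) := by positivity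
  rw [e4] at b3
  generalize 24 * C / r ^ 6 * (T + 2 + T / r ^ 2) = E at e5 e6
  have e7 : (w ^ (α / 2)) ^ 2 = w ^ α := by
    rw [← Real.rpow_natCast, ← Real.rpow_mul hw.le]
    congr 1
    push_cast
    ring
  have e8 : 0 < w ^ α := by positivity
  refine (pow_le_pow_iff_left₀ ha (by positivity) two_ne_zero).1 ?_
  rw [mul_pow, e7, sq]
  refine b3.trans (mul_le_mul_of_nonneg_right (e5.trans ?_) e8.le)
  nlinarith

theorem hk_le {t : ℝ} (ht : 0 < t) (y : ℂ) : hk (t / 2) y ≤ ENNReal.ofReal (1 / (Real.pi * t)) := by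
  refine ENNReal.ofReal_le_ofReal ?_
  rw [show 2 * Real.pi * (t / 2) = Real.pi * t by ring]
  refine div_le_div_of_nonneg_right (Real.exp_le_one_iff.2 ?_) (by positivity)
  rw [neg_div]
  exact neg_nonpos.2 (by positivity)

end EscA

open EscA in
theorem p_ESC (hREC : S_REC) (hKK : S_KK) (hBMK : S_BMK) (hCUT : S_CUT) :
    S_ESC := by
  intro ν hν
  have := hν.prob
  obtain ⟨α, ⟨h0, h1⟩, C, hC, hR⟩ := hREC ν hν
  refine ⟨α / 2, by positivity, fun r hr T => ⟨max T 0 * (1 + 24 * C / r ^ 6 *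
    (T + 2 + T / r ^ 2)), fun K hK z c w hw hz hc => ?_⟩⟩
  have hO : IsOpen Kᶜ := hK.1.isOpen_compl
  have hs : {γ : Br | Disjoint (range γ) K} = {γ : Br | range γ ⊆ Kᶜ} := by
    simp only [subset_compl_iff_disjoint_right]
  obtain ⟨k1, k2, -, -, -, -, k7, -⟩ := hKK ν hν Kᶜ hO
  have surv : ∀ s : ℝ, 0 < s → bmM ν s z {γ : Br | range γ ⊆ Kᶜ} ≤
      ENNReal.ofReal (C * (w / √(min s (r ^ 2))) ^ α) := fun s hs0 => by
    rw [← hs]
    rcases le_or_gt s (r ^ 2) with h | h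
    · rw [min_eq_left h]
      exact hR K r hr hK s ⟨hs0, h⟩ z w hw hz
    · rw [min_eq_right h.le]
      refine le_trans ?_ (hR K r hr hK (r ^ 2) ⟨by positivity, le_rfl⟩ z w hw hz)
      have h2 := ((hBMK ν hν).2 s hs0 z).2.1 (r ^ 2 / s) ⟨by positivity, (div_lt_one hs0).2 h⟩
      rw [div_mul_cancel₀ _ hs0.ne'] at h2
      rw [← h2]
      refine le_trans (measure_mono fun γ hγ => ?_)
        (Measure.le_map_apply (Measurable.aemeasurable (by fun_prop)) _)
      exact Disjoint.mono_left (hCUT.2.2.1 0 _ γ) hγ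
  have pt : ∀ t ∈ Ioc (0 : ℝ) T, KK ν Kᶜ t z c ≤
      ENNReal.ofReal ((1 + 24 * C / r ^ 6 * (T + 2 + T / r ^ 2)) * w ^ (α / 2)) := fun t ht => by
    have ht0 := ht.1
    have hf : KK ν Kᶜ t z c ≠ ∞ := ne_top_of_le_ne_top (hk_ne_top _ _) (k2 t z c)
    rw [← ENNReal.ofReal_toReal hf]
    refine ENNReal.ofReal_le_ofReal (num hr ht0 ht.2 hC hw h0 h1 (d := ‖c - z‖)
      (by rwa [← dist_eq_norm, dist_comm]) ENNReal.toReal_nonneg
      (ENNReal.toReal_le_of_le_ofReal (by positivity) (k2 t z c))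
      (ENNReal.toReal_le_of_le_ofReal (by positivity) ?_))
    have h2 := k1 (t / 2) (t / 2) (by positivity) (by positivity) z c
    rw [add_halves] at h2
    rw [h2, ENNReal.ofReal_mul (by positivity), mul_comm]
    refine (lintegral_mono fun y => mul_le_mul_right ((k2 _ y c).trans (hk_le ht0 _)) _).trans ?_
    rw [lintegral_mul_const' _ _ ENNReal.ofReal_ne_top, (k7 _ (by positivity) z).1]
    exact mul_le_mul_left (surv _ (by positivity)) _
  have hm : MeasurableSet {p : TP | p.1 ≤ T ∧ Disjoint (range p.2) K} := by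
    simp only [← subset_compl_iff_disjoint_right]
    exact (measurableSet_le measurable_fst measurable_const).inter (measurableSet_rangeSub hO)
  rw [← lintegral_indicator_one hm, lintegral_grM ν z c (measurable_one.indicator hm)]
  refine (setLIntegral_mono' (g := (Ioc (0 : ℝ) T).indicator fun _ => ENNReal.ofReal
    ((1 + 24 * C / r ^ 6 * (T + 2 + T / r ^ 2)) * w ^ (α / 2))) measurableSet_Ioi
      fun t ht => ?_).trans ((setLIntegral_le_lintegral _ _).trans (le_of_eq ?_))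
  · by_cases h : t ≤ T
    · rw [indicator_of_mem (show t ∈ Ioc 0 T from ⟨ht, h⟩)]
      refine le_trans (le_of_eq ?_) (pt t ⟨ht, h⟩)
      rw [KK, ← lintegral_indicator_one (isOpen_rangeSub hO).measurableSet, ← hs]
      refine lintegral_congr fun γ => ?_
      by_cases h2 : Disjoint (range γ) K <;> simp [indicator, h, h2]
    · simp [indicator, h]
  · rw [lintegral_indicator_const measurableSet_Ioc, Real.volume_Ioc, sub_zero, mul_comm,
      mul_assoc, ENNReal.ofReal_mul (le_max_right _ _), ENNReal.ofReal_max, ENNReal.ofReal_zero,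
      max_eq_left zero_le]

end Pool.Agent.P.MP_d66c6d_pr
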