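import Pool.Agent.P.MP_d66c6d_pr.J.Iface2
import Pool.Agent.P.MP_d66c6d_pr.T.Iface

/-! Step EXTM of the carpet project. -/

namespace Pool.Agent.P.MP_d66c6d_pr

open MeasureTheory ProbabilityTheory Set Metric Filter Topology
open scoped ENNReal

namespace ExtmA

/-- A punctured disc is connected. -/
theorem punct (x : ℂ) {r : ℝ} (hr : 0 < r) : IsPreconnected (ball x r \ {x}) := by
  have h : ball x r \ {x} = (fun z => x + Complex.exp z) '' {z : ℂ | z.re < Real.log r} := by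
    ext w
    constructor
    · rintro ⟨hw, hne⟩
      have h0 : w - x ≠ 0 := sub_ne_zero.2 hne
      refine ⟨Complex.log (w - x), ?_, ?_⟩
      · show (Complex.log (w - x)).re < Real.log r
        rw [Complex.log_re]
        exact Real.log_lt_log (norm_pos_iff.2 h0) (mem_ball_iff_norm.1 hw)
      · show x + Complex.exp (Complex.log (w - x)) = w
        rw [Complex.exp_log h0]
        ring
    · rintro ⟨z, hz, rfl⟩
      refine ⟨?_, ?_⟩
      · rw [mem_ball_iff_norm, add_sub_cancel_left, Complex.norm_exp]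
        exact (Real.lt_log_iff_exp_lt hr).1 hz
      · intro h
        have h' : x + Complex.exp z = x := h
        exact Complex.exp_ne_zero z (add_eq_left.1 h')
  rw [h]
  exact (convex_halfSpace_re_lt _).isPreconnected.image _ (by fun_prop)

/-- Removing an interior point keeps a planar set connected. -/
theorem rem {A : Set ℂ} {x : ℂ} (hA : IsPreconnected A) (hx : A ∈ 𝓝 x) :
    IsPreconnected (A \ {x}) := by
  obtain ⟨r, hr, hb⟩ := Metric.mem_nhds_iff.1 hx
  have hD : ball x r \ {x} ⊆ A \ {x} := sdiff_subset_sdiff_left hb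
  have key : ∀ u v : Set ℂ, IsOpen u → IsOpen v → A \ {x} ⊆ u ∪ v → (A \ {x}) ∩ (u ∩ v) = ∅ →
      ball x r \ {x} ⊆ u → A \ {x} ⊆ u := by
    intro u v hu hv hc hd hDu
    have h1 : A ⊆ (u ∪ ball x r) ∪ (v \ {x}) := by
      intro y hy
      by_cases hyx : y = x
      · exact Or.inl (Or.inr (hyx ▸ mem_ball_self hr))
      · rcases hc ⟨hy, hyx⟩ with h | h
        · exact Or.inl (Or.inl h)
        · exact Or.inr ⟨h, hyx⟩
    have h2 : A ∩ ((u ∪ ball x r) ∩ (v \ {x})) = ∅ := by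
      refine eq_empty_of_forall_notMem ?_
      rintro y ⟨hy, hyu, hyv, hyx⟩
      have hu' : y ∈ u := hyu.elim id fun h => hDu ⟨h, hyx⟩
      have : y ∈ (A \ {x}) ∩ (u ∩ v) := ⟨⟨hy, hyx⟩, hu', hyv⟩
      rw [hd] at this
      exact this
    rcases isPreconnected_iff_subset_of_disjoint.1 hA _ _ (hu.union isOpen_ball)
      (hv.sdiff isClosed_singleton) h1 h2 with h | h
    · exact fun y hy => (h hy.1).elim id fun hb' => hDu ⟨hb', hy.2⟩
    · exact absurd rfl (h (mem_of_mem_nhds hx)).2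
  refine isPreconnected_iff_subset_of_disjoint.2 fun u v hu hv hc hd => ?_
  have hd' : (ball x r \ {x}) ∩ (u ∩ v) = ∅ :=
    subset_eq_empty (inter_subset_inter_left _ hD) hd
  rcases isPreconnected_iff_subset_of_disjoint.1 (punct x hr) u v hu hv (hD.trans hc) hd' with h | h
  · exact Or.inl (key u v hu hv hc hd h)
  · exact Or.inr (key v u hv hu (by rwa [union_comm]) (by rwa [inter_comm v u]) h)

/-- Closures are preserved away from an exceptional point. -/
theorem clos {f : ℂ → ℂ} {x p : ℂ} {S T : Set ℂ} (hf : ContinuousAt f x) (hx : x ≠ p)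
    (hS : x ∈ closure S) (h : ∀ v ∈ S, v ≠ p → f v ∈ T) : f x ∈ closure T := by
  have h1 : x ∈ closure ({p}ᶜ ∩ S) := isOpen_compl_singleton.inter_closure ⟨hx, hS⟩
  exact hf.continuousWithinAt.mem_closure h1 fun v hv => h v hv.2 hv.1

/-- The inversion at `a`. -/
noncomputable def io (a w : ℂ) : ℂ := (w - a)⁻¹

/-- The inverse of the inversion at `a`. -/
noncomputable def ps (a u : ℂ) : ℂ := a + u⁻¹

theorem ps_io (a w : ℂ) : ps a (io a w) = w := by simp [ps, io]

theorem io_ps (a u : ℂ) : io a (ps a u) = u := by simp [ps, io]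

theorem io_ne {a w : ℂ} (h : w ≠ a) : io a w ≠ 0 := inv_ne_zero (sub_ne_zero.2 h)

theorem ps_ne {a u : ℂ} (h : u ≠ 0) : ps a u ≠ a := by simpa [ps] using h

theorem io_cont {a w : ℂ} (h : w ≠ a) : ContinuousAt (io a) w :=
  (continuousAt_id.sub continuousAt_const).inv₀ (sub_ne_zero.2 h)

theorem ps_cont (a : ℂ) {u : ℂ} (h : u ≠ 0) : ContinuousAt (ps a) u :=
  continuousAt_const.add (continuousAt_id.inv₀ h)

theorem io_pre {a : ℂ} {S : Set ℂ} (hS : IsPreconnected S) (ha : a ∉ S) :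
    IsPreconnected (io a '' S) :=
  hS.image _ fun w hw => (io_cont fun h : w = a => ha (h ▸ hw)).continuousWithinAt

/-- The inverted outside of `F`. -/
def Out (F : Set ℂ) (a : ℂ) : Set ℂ := {u | u = 0 ∨ ps a u ∉ F}

theorem not_out {F : Set ℂ} {a u : ℂ} : u ∈ (Out F a)ᶜ ↔ u ≠ 0 ∧ ps a u ∈ F := by
  simp [Out]

theorem out_open {F : Set ℂ} (a : ℂ) (hF : IsCompact F) : IsOpen (Out F a) := by
  refine isOpen_iff_mem_nhds.2 fun u hu => ?_
  by_cases h0 : u = 0
  · obtain ⟨R, hR, hb⟩ := hF.isBounded.subset_ball_lt 0 a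
    rw [h0]
    refine mem_of_superset (ball_mem_nhds 0 (inv_pos.2 hR)) fun v hv => ?_
    by_cases hv0 : v = 0
    · exact Or.inl hv0
    · refine Or.inr fun hvF => ?_
      have h1 := mem_ball_iff_norm.1 (hb hvF)
      rw [ps, add_sub_cancel_left, norm_inv] at h1
      have h2 := mem_ball_zero_iff.1 hv
      have h3 := norm_pos_iff.2 hv0
      exact lt_asymm h2 (inv_lt_of_inv_lt₀ h3 h1)
  · have h1 : ps a u ∉ F := hu.resolve_left h0
    have h2 : ps a ⁻¹' Fᶜ ∈ 𝓝 u := ps_cont a h0 (hF.isClosed.isOpen_compl.mem_nhds h1)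
    exact mem_of_superset h2 fun v hv => Or.inr hv

theorem out_bdd {F : Set ℂ} {a : ℂ} (ha : a ∈ interior F) : Bornology.IsBounded (Out F a) := by
  obtain ⟨s, hs, hb⟩ := Metric.mem_nhds_iff.1 (mem_interior_iff_mem_nhds.1 ha)
  refine (isBounded_closedBall (x := (0 : ℂ)) (r := s⁻¹)).subset fun u hu => ?_
  rw [mem_closedBall_zero_iff]
  by_cases h0 : u = 0
  · rw [h0, norm_zero]
    exact (inv_pos.2 hs).le
  · have h1 : ps a u ∉ ball a s := fun h => hu.resolve_left h0 (hb h)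
    rw [mem_ball_iff_norm, ps, add_sub_cancel_left, norm_inv, not_lt] at h1
    exact le_inv_of_le_inv₀ hs h1

theorem out_pre {F : Set ℂ} {a : ℂ} (hF : IsCompact F) (hc : IsPreconnected Fᶜ) (ha : a ∈ F) :
    IsPreconnected (Out F a) := by
  refine (io_pre (a := a) hc (not_not.2 ha)).subset_closure ?_ ?_
  · rintro _ ⟨w, hw, rfl⟩
    exact Or.inr (by rwa [ps_io])
  · refine ((dense_compl_singleton (0 : ℂ)).open_subset_closure_inter (out_open a hF)).trans
      (closure_mono ?_)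
    rintro u ⟨hu, h0⟩
    exact ⟨ps a u, hu.resolve_left h0, io_ps a u⟩

theorem fr_to {F : Set ℂ} {a u : ℂ} (hF : IsCompact F) (hu : u ∈ frontier (Out F a)) :
    u ≠ 0 ∧ ps a u ∈ frontier F := by
  have h0 : u ≠ 0 := by
    intro h
    rw [(out_open a hF).frontier_eq] at hu
    exact hu.2 (Or.inl h)
  refine ⟨h0, ?_⟩
  rw [frontier_eq_closure_inter_closure] at hu ⊢
  exact ⟨clos (ps_cont a h0) h0 hu.2 fun v hv _ => (not_out.1 hv).2,
    clos (ps_cont a h0) h0 hu.1 fun v hv hv0 => hv.resolve_left hv0⟩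

theorem fr_of {F : Set ℂ} {a w : ℂ} (ha : a ∈ interior F) (hw : w ∈ frontier F) :
    io a w ∈ frontier (Out F a) := by
  have h0 : w ≠ a := fun h => hw.2 (h ▸ ha)
  rw [frontier_eq_closure_inter_closure] at hw ⊢
  refine ⟨clos (io_cont h0) h0 hw.2 fun v hv _ => Or.inr (by rwa [ps_io]),
    clos (io_cont h0) h0 hw.1 fun v hv hva => not_out.2 ⟨io_ne hva, by rwa [ps_io]⟩⟩

theorem out_lcon {F : Set ℂ} {a : ℂ} (hF : IsCompact F) (ha : a ∈ interior F)
    (hL : LCon (frontier F) F) : LCon (frontier (Out F a)) (Out F a)ᶜ := by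
  intro η hη
  obtain ⟨s, hs, hb⟩ := Metric.mem_nhds_iff.1 (isOpen_interior.mem_nhds ha)
  have hK : IsCompact (F \ ball a (s / 2)) := hF.diff isOpen_ball
  have hKa : ∀ w ∈ F \ ball a (s / 2), w ≠ a := fun w hw h =>
    hw.2 (h ▸ mem_ball_self (half_pos hs))
  have hu1 : UniformContinuousOn (io a) (F \ ball a (s / 2)) :=
    hK.uniformContinuousOn_of_continuous fun w hw => (io_cont (hKa w hw)).continuousWithinAt
  obtain ⟨δ, hδ, h1⟩ := Metric.uniformContinuousOn_iff.1 hu1 η hη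
  obtain ⟨η₂, hη₂, h2⟩ := hL (min δ (s / 2)) (lt_min hδ (half_pos hs))
  have hK' : IsCompact (frontier (Out F a)) :=
    Metric.isCompact_of_isClosed_isBounded isClosed_frontier
      ((out_bdd ha).closure.subset frontier_subset_closure)
  have hu2 : UniformContinuousOn (ps a) (frontier (Out F a)) :=
    hK'.uniformContinuousOn_of_continuous fun u hu => (ps_cont a (fr_to hF hu).1).continuousWithinAt
  obtain ⟨η', hη', h3⟩ := Metric.uniformContinuousOn_iff.1 hu2 η₂ hη₂
  refine ⟨η', hη', fun p hp p' hp' hd => ?_⟩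
  have hq := (fr_to hF hp).2
  obtain ⟨Z, hZ, hZc, hZp, hZp'⟩ := h2 _ hq _ (fr_to hF hp').2 (h3 p hp p' hp' hd)
  have hfar : s ≤ dist (ps a p) a := not_lt.1 fun h => hq.2 (hb h)
  have hZK : Z ⊆ F \ ball a (s / 2) := fun z hz => by
    refine ⟨(hZ hz).1, fun hzb => ?_⟩
    have e1 : dist z (ps a p) < s / 2 := (mem_ball.1 (hZ hz).2).trans_le (min_le_right _ _)
    have e2 : dist z a < s / 2 := hzb
    have e3 := dist_triangle_left (ps a p) a z
    linarith
  refine ⟨io a '' Z, ?_, io_pre hZc fun h => hKa a (hZK h) rfl, ⟨_, hZp, io_ps a p⟩,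
    ⟨_, hZp', io_ps a p'⟩⟩
  rintro _ ⟨z, hz, rfl⟩
  refine ⟨not_out.2 ⟨io_ne (hKa z (hZK hz)), by rw [ps_io]; exact (hZ hz).1⟩, ?_⟩
  have e := h1 z (hZK hz) _ (hZK hZp) ((mem_ball.1 (hZ hz).2).trans_le (min_le_left _ _))
  rwa [io_ps] at e

theorem compl_pre {F : Set ℂ} {a : ℂ} (hF : IsPreconnected F) (ha : a ∈ interior F) :
    IsPreconnected (Out F a)ᶜ := by
  have e : (Out F a)ᶜ = io a '' (F \ {a}) := by
    ext u
    constructor
    · intro hu
      exact ⟨ps a u, ⟨(not_out.1 hu).2, ps_ne (not_out.1 hu).1⟩, io_ps a u⟩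
    · rintro ⟨w, hw, rfl⟩
      exact not_out.2 ⟨io_ne hw.2, by rw [ps_io]; exact hw.1⟩
  rw [e]
  exact io_pre (rem hF (mem_interior_iff_mem_nhds.1 ha)) fun h => h.2 rfl

theorem compl_cut {F : Set ℂ} {a u : ℂ} (ha : a ∈ interior F) (h0 : u ≠ 0)
    (hF : IsPreconnected (F \ {ps a u})) : IsPreconnected ((Out F a)ᶜ \ {u}) := by
  have e : (Out F a)ᶜ \ {u} = io a '' ((F \ {ps a u}) \ {a}) := by
    ext v
    constructor
    · rintro ⟨hv, hvu⟩
      refine ⟨ps a v, ⟨⟨(not_out.1 hv).2, fun h => hvu ?_⟩, ps_ne (not_out.1 hv).1⟩, io_ps a v⟩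
      have h' : ps a v = ps a u := h
      show v = u
      rw [← io_ps a v, h', io_ps]
    · rintro ⟨w, hw, rfl⟩
      refine ⟨not_out.2 ⟨io_ne hw.2, by rw [ps_io]; exact hw.1.1⟩, fun h => hw.1.2 ?_⟩
      have h' : io a w = u := h
      show w = ps a u
      rw [← h', ps_io]
  rw [e]
  refine io_pre (rem hF ?_) fun h => h.2 rfl
  exact inter_mem (mem_interior_iff_mem_nhds.1 ha)
    (isOpen_compl_singleton.mem_nhds (ps_ne h0).symm)

end ExtmA

open ExtmA in
theorem p_EXTM (hRMT : S_RMT) (hIMG : S_IMG) (hCAR1 : S_CAR1) (hCAR2 : S_CAR2) :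
    S_EXTM := by
  intro F a hF hFc hFo ha hL hcut
  have haF : a ∈ F := interior_subset ha
  have hop := out_open a hF
  have hbd := out_bdd ha
  have hpre := out_pre hF hFo haF
  have h0 : (0 : ℂ) ∈ Out F a := Or.inl rfl
  have hunb : ¬ Bornology.IsBounded (Out F a)ᶜ := fun h => by
    have := hbd.union h
    rw [union_compl_self] at this
    exact NormedSpace.unbounded_univ ℝ ℂ this
  have hne : Out F a ≠ univ := fun h => NormedSpace.unbounded_univ ℝ ℂ (h ▸ hbd)
  have hnh : NoHole (Out F a) := by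
    have := hIMG.2 _ hop.isClosed_compl (compl_pre hFc ha) hunb 0
    rwa [compl_compl, hpre.connectedComponentIn h0] at this
  obtain ⟨f, g, hC, hf0⟩ := hRMT _ hop hpre hnh hne 0 h0
  obtain ⟨G, hG, hGg, hGb, hGs⟩ := hCAR1 _ f g hC hbd (out_lcon hF ha hL)
  have hinj := hCAR2 _ f g G hC hbd hG hGg hGs fun u hu =>
    compl_cut ha (fr_to hF hu).1 (hcut _ (fr_to hF hu).2)
  have hz : (0 : ℂ) ∈ ball (0 : ℂ) 1 := mem_ball_self one_pos
  have hG0 : G 0 = 0 := by
    have e := hC.left 0 h0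
    rw [hf0] at e
    rw [hGg hz, e]
  refine ⟨G, hG, hinj, hG0, ?_, ?_⟩
  · ext w
    constructor
    · rintro ⟨z, hzb, rfl⟩
      have h1 : G z ∈ Out F a := hGb ▸ mem_image_of_mem G hzb.1
      refine h1.resolve_left fun h => hzb.2 ?_
      exact hinj (ball_subset_closedBall hzb.1) (ball_subset_closedBall hz) (h.trans hG0.symm)
    · intro hw
      have h1 : io a w ∈ G '' ball 0 1 := by
        rw [hGb]
        exact Or.inr (by rwa [ps_io])
      obtain ⟨z, hzb, e⟩ := h1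
      refine ⟨z, ⟨hzb, fun h => ?_⟩, ?_⟩
      · have h' : z = 0 := h
        rw [h', hG0] at e
        exact io_ne (fun h2 : w = a => hw (h2 ▸ haF)) e.symm
      · show ps a (G z) = w
        rw [e, ps_io]
  · ext w
    constructor
    · rintro ⟨z, hzb, rfl⟩
      exact (fr_to hF (hGs ▸ mem_image_of_mem G hzb)).2
    · intro hw
      have h1 : io a w ∈ G '' sphere 0 1 := hGs ▸ fr_of ha hw
      obtain ⟨z, hzb, e⟩ := h1
      refine ⟨z, hzb, ?_⟩
      show ps a (G z) = w
      rw [e, ps_io]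

end Pool.Agent.P.MP_d66c6d_pr
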