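import Pool.Agent.P.MP_d66c6d_pr.J.Iface3
import Pool.Agent.P.MP_d66c6d_pr.F.Iface
import Pool.Agent.P.MP_d66c6d_pr.L.Iface
import Pool.Agent.P.MP_d66c6d_pr.N.Iface

/-! Step GENJ of the carpet project. -/

namespace Pool.Agent.P.MP_d66c6d_pr

open MeasureTheory ProbabilityTheory Set Metric Filter Topology
open scoped ENNReal

namespace GenjA

section
variable {Ω : Type} [MeasurableSpace Ω] (P : Measure Ω) [IsProbabilityMeasure P]

theorem meas_upd (k : ℕ) :
    Measurable fun p : (ℕ → Ω) × Ω => Function.update p.1 k p.2 := measurable_update'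

theorem map_upd (k : ℕ) : ((Measure.infinitePi fun _ : ℕ => P).prod P).map
    (fun p : (ℕ → Ω) × Ω => Function.update p.1 k p.2) = Measure.infinitePi fun _ : ℕ => P := by
  refine Measure.eq_infinitePi _ fun s t ht => ?_
  rw [Measure.map_apply (meas_upd k) (MeasurableSet.pi s.countable_toSet fun i _ => ht i)]
  by_cases hk : k ∈ s
  · have : (fun p : (ℕ → Ω) × Ω => Function.update p.1 k p.2) ⁻¹' Set.pi s t =
        Set.pi (s.erase k) t ×ˢ t k := by
      ext p
      simp only [mem_preimage, Set.mem_pi, Finset.mem_coe, mem_prod, Finset.mem_erase]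
      refine ⟨fun h => ⟨fun i hi => ?_, ?_⟩, fun h i hi => ?_⟩
      · simpa [Function.update_of_ne hi.1] using h i hi.2
      · simpa using h k hk
      · by_cases e : i = k
        · subst e
          simpa using h.2
        · simpa [Function.update_of_ne e] using h.1 i ⟨e, hi⟩
    rw [this, Measure.prod_prod, Measure.infinitePi_pi _ fun i _ => ht i,
      Finset.prod_erase_mul _ (fun i => P (t i)) hk]
  · have : (fun p : (ℕ → Ω) × Ω => Function.update p.1 k p.2) ⁻¹' Set.pi s t =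
        Set.pi s t ×ˢ univ := by
      ext p
      simp only [mem_preimage, Set.mem_pi, Finset.mem_coe, mem_prod, mem_univ, and_true]
      refine forall₂_congr fun i hi => ?_
      rw [Function.update_of_ne (fun e : i = k => hk (e ▸ hi))]
    rw [this, Measure.prod_prod, Measure.infinitePi_pi _ fun i _ => ht i, measure_univ, mul_one]

theorem indep {Y : Type} [MeasurableSpace Y] (k : ℕ) {f : (ℕ → Ω) → Y} (hf : Measurable f)
    (hd : ∀ ω w, f (Function.update ω k w) = f ω) {B : Set (Y × Ω)} (hB : MeasurableSet B)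
    {J : Y → Prop} (hJ : ∀ y, J y → ∀ᵐ w ∂P, (y, w) ∈ B) :
    ∀ᵐ ω ∂Measure.infinitePi fun _ : ℕ => P, J (f ω) → (f ω, ω k) ∈ B := by
  have m1 : MeasurableSet {y | P (Prod.mk y ⁻¹' Bᶜ) = 0} :=
    measurable_measure_prodMk_left hB.compl (measurableSet_singleton 0)
  have m2 : MeasurableSet {ω : ℕ → Ω | P (Prod.mk (f ω) ⁻¹' Bᶜ) = 0 → (f ω, ω k) ∈ B} :=
    MeasurableSet.imp (hf m1) ((hf.prodMk (measurable_pi_apply k)) hB)
  have h : ∀ᵐ ω ∂Measure.infinitePi fun _ : ℕ => P,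
      P (Prod.mk (f ω) ⁻¹' Bᶜ) = 0 → (f ω, ω k) ∈ B := by
    rw [← map_upd P k, ae_map_iff (meas_upd k).aemeasurable m2]
    refine (Measure.ae_prod_iff_ae_ae (meas_upd k m2)).2 (ae_of_all _ fun ω => ?_)
    change ∀ᵐ w ∂P, P (Prod.mk (f (Function.update ω k w)) ⁻¹' Bᶜ) = 0 →
      (f (Function.update ω k w), Function.update ω k w k) ∈ B
    simp only [hd, Function.update_self]
    by_cases h0 : P (Prod.mk (f ω) ⁻¹' Bᶜ) = 0
    · exact (show ∀ᵐ w ∂P, (f ω, w) ∈ B from h0).mono fun w hw _ => hw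
    · exact ae_of_all _ fun w h => absurd h h0
  exact h.mono fun ω h1 h2 => h1 (hJ _ h2)

end

/-- The candidates for the filled domains, coded by lists. -/
def dom {Ω : Type} (F₀ : KC) (G : KC → Ω → ℕ → KC) : List ℕ → (ℕ → Ω) → KC
  | [], _ => F₀
  | i :: L, ω => G (dom F₀ G L ω) (ω L.length) i

theorem dom_congr {Ω : Type} (F₀ : KC) (G : KC → Ω → ℕ → KC) {ω ω' : ℕ → Ω} :
    ∀ L : List ℕ, (∀ j < L.length, ω j = ω' j) → dom F₀ G L ω = dom F₀ G L ω'
  | [], _ => rfl
  | i :: L, h => by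
    rw [dom, dom, dom_congr F₀ G L fun j hj => h j (hj.trans (Nat.lt_succ_self _)),
      h L.length (Nat.lt_succ_self _)]

theorem meas_dom {Ω : Type} [MeasurableSpace Ω] (F₀ : KC) {G : KC → Ω → ℕ → KC}
    (hG : ∀ i, Measurable fun p : KC × Ω => G p.1 p.2 i) : ∀ L, Measurable (dom F₀ G L)
  | [] => measurable_const
  | i :: L => (hG i).comp ((meas_dom F₀ hG L).prodMk (measurable_pi_apply L.length))

theorem jordan_ball {R : ℝ} (hR : 0 < R) : IsJordan (ball 0 R) := by
  have h : (R : ℂ) ≠ 0 := by exact_mod_cast hR.ne'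
  refine ⟨Homeomorph.mulLeft₀ (R : ℂ) h, ?_⟩
  have := smul_unitBall (E := ℂ) h
  rw [Complex.norm_real, Real.norm_of_nonneg hR.le] at this
  exact this.symm

end GenjA

open GenjA in
theorem p_GENJ (hHULM : S_HULM) (hENUM : S_ENUM) (hJALL : S_JALL) (hLVB : S_LVB) (hDEC : S_DEC) :
    S_GENJ := by
  intro ν hν c c₂ h0 h1 h2 hsub Ω₀ _ P₀ _ n hn R hR
  obtain ⟨⟨H, hH, eH⟩, hN⟩ := hHULM
  obtain ⟨-, e, ok, he, -, hen⟩ := (hENUM KC).2 stdA measurableSet_stdA
  obtain ⟨j1, j2⟩ := hJALL ν hν c c₂ h0 h1 h2 hsub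
  let S : Ω₀ → Cfg KC := fun w => (n w).map fun l : Lp => trB (lp l).2
  have hS : MeasurePreserving S P₀ (PP (ENNReal.ofReal c • muK ν)) := (hLVB.2 ν hν c).1.comp hn
  have eS : ∀ w, sets (S w) = trace '' (n w).pts := fun w => sets_map_trace _
  have hLF : ∀ᵐ w ∂P₀, LF stdA (S w) :=
    hS.quasiMeasurePreserving.ae (((hDEC.2 ν hν c).2.2.1 _ le_rfl).mono fun _ h => h.1)
  let F₀ : KC := ⟨⟨closedBall 0 R, isCompact_closedBall _ _⟩, nonempty_closedBall.2 hR.le⟩
  let G : KC → Ω₀ → ℕ → KC := fun F w i => H (F, S w, e i (S w))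
  have hG : ∀ i, Measurable fun p : KC × Ω₀ => G p.1 p.2 i := fun i =>
    hH.comp (measurable_fst.prodMk ((hS.measurable.comp measurable_snd).prodMk
      ((he i).comp (hS.measurable.comp measurable_snd))))
  have key : ∀ L : List ℕ, ∀ᵐ ω ∂Measure.infinitePi fun _ : ℕ => P₀,
      IsJordan (interior (dom F₀ G L ω : Set ℂ)) →
        NCl (trace '' (n (ω L.length)).pts) (interior (dom F₀ G L ω : Set ℂ)) := fun L => by
    have := indep P₀ L.length (meas_dom F₀ hG L)
      (fun ω w => dom_congr F₀ G L fun j hj => Function.update_of_ne hj.ne _ _)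
      ((measurable_fst.prodMk (hS.measurable.comp measurable_snd)) hN)
      (J := fun F : KC => IsJordan (interior (F : Set ℂ))) fun F hF => by
        filter_upwards [hLF, hn.quasiMeasurePreserving.ae (j1 _ hF)] with w a b
        exact ⟨a, by rw [← eS] at b; exact b⟩
    exact this.mono fun ω h hJ => by rw [← eS]; exact (h hJ).2
  have ev : ∀ {p : Ω₀ → Prop}, (∀ᵐ w ∂P₀, p w) →
      ∀ᵐ ω ∂Measure.infinitePi fun _ : ℕ => P₀, ∀ k, p (ω k) := fun h =>
    ae_all_iff.2 fun k =>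
      (measurePreserving_eval_infinitePi (fun _ : ℕ => P₀) k).quasiMeasurePreserving.ae h
  filter_upwards [ae_all_iff.2 key, ev hLF, ev (hn.quasiMeasurePreserving.ae j2)] with ω a b d
  have step : ∀ L : List ℕ, IsJordan (interior (dom F₀ G L ω : Set ℂ)) →
      ∀ W ∈ cleIn2 (trace '' (n (ω L.length)).pts) (interior (dom F₀ G L ω : Set ℂ)),
        IsJordan W ∧ ∃ i, W = interior (dom F₀ G (i :: L) ω : Set ℂ) := by
    rintro L hJ W ⟨⟨K, hK, hKV, rfl⟩, -⟩
    obtain ⟨d1, d2⟩ := d L.length _ hJ (a L hJ) K hK hKV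
    have e1 := inter_eq_right.2 (interior_subset.trans d2)
    rw [ins] at e1 d1
    rw [e1]
    refine ⟨d1, ?_⟩
    rw [← eS] at hK
    obtain ⟨K', hK', rfl⟩ := hK
    rw [hen _ (b L.length)] at hK'
    obtain ⟨i, -, rfl⟩ := hK'
    refine ⟨i, ?_⟩
    rw [dom, eH _ _ _ (b L.length), eS, ins]
  have main : ∀ k, ∀ V ∈ gen2 (fun k => trace '' (n (ω k)).pts) (ball 0 R) k,
      IsJordan V ∧ ∃ L : List ℕ, L.length = k + 1 ∧ V = interior (dom F₀ G L ω : Set ℂ) := by
    intro k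
    induction k with
    | zero =>
      intro V hV
      have e0 : ball (0 : ℂ) R = interior (dom F₀ G [] ω : Set ℂ) :=
        (interior_closedBall _ hR.ne').symm
      obtain ⟨s1, i, s2⟩ := step [] (e0 ▸ jordan_ball hR) V (e0 ▸ hV)
      exact ⟨s1, [i], rfl, s2⟩
    | succ k ih =>
      intro V hV
      obtain ⟨W, hW, hV'⟩ := mem_iUnion₂.1 hV
      obtain ⟨w1, L, hL, rfl⟩ := ih W hW
      obtain ⟨s1, i, s2⟩ := step L w1 V (hL ▸ hV')
      exact ⟨s1, i :: L, by rw [List.length_cons, hL], s2⟩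
  intro V hV
  obtain ⟨k, hk⟩ := mem_iUnion.1 hV
  exact (main k V hk).1

end Pool.Agent.P.MP_d66c6d_pr
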