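import Pool.Agent.P.MP_d66c6d_pr.J.Iface

/-! Step HOLD of the carpet project. -/

namespace Pool.Agent.P.MP_d66c6d_pr

open MeasureTheory ProbabilityTheory Set Metric Filter Topology
open scoped ENNReal

namespace HoldA

theorem grM_apply (ν : Measure Br) [SFinite ν] (x y : ℂ) {A : Set TP} (hA : MeasurableSet A) :
    grM ν x y A = ∫⁻ t in Ioi (0 : ℝ), hk t (y - x) * ν {b | (t, seg x y t b) ∈ A} := by
  have h1 : Measurable fun p : ℝ × Br => ((p.1, seg x y p.1 p.2) : TP) := by fun_prop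
  have h2 : Measurable fun t : ℝ => hk t (y - x) := by fun_prop
  rw [grM, Measure.map_apply h1 hA, Measure.prod_apply (h1 hA),
    lintegral_withDensity_eq_lintegral_mul _ h2 (measurable_measure_prodMk_left (h1 hA))]
  rfl

theorem hk_le {t : ℝ} (ht : 0 < t) {z : ℂ} (hz : z ≠ 0) :
    hk t z ≤ ENNReal.ofReal (1 / (Real.pi * ‖z‖ ^ 2)) := by
  refine ENNReal.ofReal_le_ofReal ?_
  have h0 := norm_pos_iff.2 hz
  have := Real.pi_pos
  have h1 : ‖z‖ ^ 2 / (2 * t) ≤ Real.exp (‖z‖ ^ 2 / (2 * t)) := by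
    linarith [Real.add_one_le_exp (‖z‖ ^ 2 / (2 * t))]
  rw [neg_div, Real.exp_neg]
  refine (div_le_div_of_nonneg_right (inv_anti₀ (by positivity) h1) (by positivity)).trans
    (le_of_eq ?_)
  field_simp

theorem bound_le (ν : Measure Br) [IsProbabilityMeasure ν] {x y : ℂ} (hxy : x ≠ y) {T t : ℝ}
    (ht : 0 < t) {A : Set TP} (hA : ∀ p ∈ A, p.1 ≤ T) :
    hk t (y - x) * ν {b | (t, seg x y t b) ∈ A} ≤
      (Iic T).indicator (fun _ => ENNReal.ofReal (1 / (Real.pi * ‖y - x‖ ^ 2))) t := by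
  by_cases h : t ≤ T
  · rw [indicator_of_mem (mem_Iic.2 h)]
    exact (mul_le_of_le_one_right' prob_le_one).trans (hk_le ht (sub_ne_zero.2 hxy.symm))
  · have e : {b | (t, seg x y t b) ∈ A} = ∅ := eq_empty_of_forall_notMem fun b hb => h (hA _ hb)
    simp [e]

theorem bound_fin (T : ℝ) (a : ℝ) :
    ∫⁻ t in Ioi (0 : ℝ), (Iic T).indicator (fun _ => ENNReal.ofReal a) t ≠ ∞ := by
  rw [lintegral_indicator_const measurableSet_Iic, Measure.restrict_apply measurableSet_Iic,
    Iic_inter_Ioi, Real.volume_Ioc]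
  exact ENNReal.mul_ne_top ENNReal.ofReal_ne_top ENNReal.ofReal_ne_top

theorem rpow_zero_lim {a : ℝ} (ha : 0 < a) (m : ℝ) :
    Tendsto (fun η : ℝ => η ^ a * m) (𝓝[>] 0) (𝓝 0) := by
  have h := (Real.continuousAt_rpow_const 0 a (Or.inr ha.le)).tendsto.mul_const m
  rw [Real.zero_rpow ha.ne', zero_mul] at h
  exact h.mono_left nhdsWithin_le_nhds

end HoldA

open HoldA

theorem p_HOLD (hOSC : S_OSC) (hNKM : S_NKM) :
    S_HOLD := by
  intro ν hν σ T x y hσ hxy
  have := hν.gauss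
  obtain ⟨c, C, hc, hC, hO⟩ := hOSC ν hν
  have hT : MeasurableSet {p : TP | p.1 ≤ T} := measurableSet_le measurable_fst measurable_const
  have hA : ∀ η : ℝ, MeasurableSet {p : TP | p.1 ≤ T ∧ p ∉ Slow (η ^ (2 + σ)) η} := fun η =>
    hT.inter (hNKM.2.2.2.1 _ _).measurableSet.compl
  constructor
  · rw [grM_apply ν x y hT]
    refine ne_top_of_le_ne_top (bound_fin T (1 / (Real.pi * ‖y - x‖ ^ 2)))
      (lintegral_mono_ae ?_)
    filter_upwards [ae_restrict_mem measurableSet_Ioi] with t ht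
    exact bound_le ν hxy ht fun p hp => hp
  simp only [grM_apply ν x y (hA _)]
  rw [← lintegral_zero (μ := (volume : Measure ℝ).restrict (Ioi 0))]
  have h1 : Measurable fun p : ℝ × Br => ((p.1, seg x y p.1 p.2) : TP) := by fun_prop
  have h2 : Measurable fun t : ℝ => hk t (y - x) := by fun_prop
  refine tendsto_lintegral_filter_of_dominated_convergence _
    (Eventually.of_forall fun η => h2.mul (measurable_measure_prodMk_left (h1 (hA η))))
    (Eventually.of_forall fun η => ?_) (bound_fin T (1 / (Real.pi * ‖y - x‖ ^ 2))) ?_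
  · filter_upwards [ae_restrict_mem measurableSet_Ioi] with t ht
    exact bound_le ν hxy ht (A := {p : TP | p.1 ≤ T ∧ p ∉ Slow (η ^ (2 + σ)) η}) fun p hp => hp.1
  filter_upwards [ae_restrict_mem measurableSet_Ioi] with t ht
  have ht0 : 0 < t := ht
  have hs := Real.sqrt_pos.2 ht0
  have h3 : Tendsto (fun η : ℝ => C * t * ((η ^ (-σ)) ^ ((2 + σ) / σ) *
      Real.exp (-(c / 4) * η ^ (-σ)))) (𝓝[>] 0) (𝓝 0) := by
    have h := ((tendsto_rpow_mul_exp_neg_mul_atTop_nhds_zero ((2 + σ) / σ) (c / 4)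
      (by positivity)).comp (tendsto_rpow_neg_nhdsGT_zero (neg_lt_zero.2 hσ))).const_mul (C * t)
    rwa [mul_zero] at h
  have h4 := ENNReal.Tendsto.const_mul (a := hk t (y - x)) (ENNReal.tendsto_ofReal h3)
    (Or.inr (hk_ne_top _ _))
  rw [ENNReal.ofReal_zero, mul_zero] at h4
  refine tendsto_of_tendsto_of_tendsto_of_le_of_le' tendsto_const_nhds h4
    (Eventually.of_forall fun _ => zero_le) ?_
  filter_upwards [self_mem_nhdsWithin,
    (rpow_zero_lim (a := 2 + σ) (by linarith) t⁻¹).eventually (ge_mem_nhds one_pos),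
    (rpow_zero_lim (a := 1 + σ) (by linarith) (t⁻¹ * ‖y - x‖)).eventually
      (ge_mem_nhds one_half_pos)] with η hη a1 a2
  have hη0 : 0 < η := hη
  have hp : 0 < η ^ σ := Real.rpow_pos_of_pos hη0 _
  have e1 : η ^ (2 + σ) = η ^ 2 * η ^ σ := by rw [Real.rpow_add hη0, Real.rpow_two]
  have e2 : η ^ (1 + σ) = η * η ^ σ := by rw [Real.rpow_add hη0, Real.rpow_one]
  refine mul_le_mul_right (le_trans (measure_mono ?_)
    ((hO (η ^ (2 + σ) * t⁻¹) ⟨by positivity, a1⟩ (η / (2 * √t)) (by positivity)).trans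
      (le_of_eq ?_))) _
  · rintro b ⟨-, hb⟩
    simp only [Slow, mem_ofPred_eq, not_forall, not_lt] at hb
    obtain ⟨s, s', b1, b2⟩ := hb
    have b3 : |(s : ℝ) - s'| ≤ η ^ (2 + σ) * t⁻¹ := by
      rwa [← div_eq_mul_inv, le_div_iff₀ ht0]
    refine ⟨s, s', b3, ?_⟩
    have e : seg x y t b s - seg x y t b s' =
        (((s : ℝ) - s' : ℝ) : ℂ) * (y - x) + (√t : ℂ) * (b s - b s') := by
      simp only [seg_apply]
      push_cast
      ring
    rw [dist_eq_norm, e] at b2
    have b4 := b2.trans (norm_add_le _ _)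
    rw [norm_mul, norm_mul, Complex.norm_real, Complex.norm_real, Real.norm_eq_abs,
      Real.norm_of_nonneg hs.le, ← dist_eq_norm (b s)] at b4
    have b5 := mul_le_mul_of_nonneg_right b3 (norm_nonneg (y - x))
    have b6 := mul_le_mul_of_nonneg_left a2 hη0.le
    rw [e1] at b5
    rw [e2] at b6
    rw [div_le_iff₀ (by positivity)]
    nlinarith
  · congr 1
    rw [← Real.rpow_mul hη0.le, show -σ * ((2 + σ) / σ) = -(2 + σ) by field_simp,
      Real.rpow_neg hη0.le, Real.rpow_neg hη0.le, e1, div_pow, mul_pow, Real.sq_sqrt ht0.le,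
      ← mul_assoc]
    congr 1
    · field_simp
    · congr 1
      field_simp
      norm_num

end Pool.Agent.P.MP_d66c6d_pr
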