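import Pool.Agent.P.MP_d66c6d_pr.J.Iface3
import Pool.Agent.P.MP_d66c6d_pr.N.Iface
import Pool.Agent.P.MP_d66c6d_pr.F.Iface
import Pool.Agent.P.MP_d66c6d_pr.T.Iface

/-! Step HULM of the carpet project. -/

namespace Pool.Agent.P.MP_d66c6d_pr

open MeasureTheory ProbabilityTheory Set Metric Filter Topology
open scoped ENNReal

namespace HulmA

theorem ex_dn {O : Set ℂ} (hO : IsOpen O) (h : O.Nonempty) : ∃ j, dn j ∈ O :=
  (TopologicalSpace.denseRange_denseSeq ℂ).exists_mem_open hO h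

theorem ms_in : MeasurableSet {p : KC × KC | (p.2 : Set ℂ) ⊆ interior (p.1 : Set ℂ)} := by
  have h : MeasurableSet (⋂ n : ℕ, ⋃ j : ℕ, (Prod.fst ⁻¹' (hitK {dn j})ᶜ ∩
      Prod.snd ⁻¹' hitK (ball (dn j) (1 / ((n : ℝ) + 1))) : Set (KC × KC))) :=
    MeasurableSet.iInter fun n => MeasurableSet.iUnion fun j =>
      (measurable_fst (isClosed_hitK isClosed_singleton).measurableSet.compl).inter
        (measurable_snd (isOpen_hitK isOpen_ball).measurableSet)
  refine h.compl.congr (Set.ext fun p => ?_)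
  simp only [mem_compl_iff, mem_iInter, mem_iUnion, mem_inter_iff, mem_preimage, hitK,
    mem_ofPred_eq, inter_singleton_nonempty]
  refine ⟨fun H x hx => ?_, fun H H' => ?_⟩
  · by_contra hn
    refine H fun n => ?_
    have h1 : x ∈ closure (p.1 : Set ℂ)ᶜ := by rwa [closure_compl]
    obtain ⟨j, j1, j2⟩ := ex_dn (isOpen_ball.inter p.1.isCompact.isClosed.isOpen_compl)
      (mem_closure_iff.1 h1 (ball x (1 / ((n : ℝ) + 1))) isOpen_ball (mem_ball_self (by positivity)))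
    exact ⟨j, j2, x, hx, mem_ball_comm.1 j1⟩
  · obtain ⟨δ, hδ, hd⟩ := p.2.isCompact.exists_thickening_subset_open isOpen_interior H
    obtain ⟨n, hn⟩ := exists_nat_one_div_lt hδ
    obtain ⟨j, j1, x, hx, j2⟩ := H' n
    exact j1 (interior_subset (hd (mem_thickening_iff.2
      ⟨x, hx, (mem_ball_comm.1 j2).trans hn⟩)))

/-- The filling of a trace. -/
def fk (hFILL : S_FILL) (K : KC) : KC :=
  ⟨⟨fill K, (hFILL _ K.isCompact).1⟩, K.nonempty.mono (subset_fill _)⟩

theorem meas_fk (hFILL : S_FILL) : Measurable (fk hFILL) := by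
  refine measurable_KC fun O hO => ?_
  have h : MeasurableSet (hitK O ∪ ⋃ j : ℕ, {K : KC | dn j ∈ O ∧ dn j ∈ fill (K : Set ℂ)}) :=
    (isOpen_hitK hO).measurableSet.union (MeasurableSet.iUnion fun j =>
      (MeasurableSet.const _).inter (isClosed_fillK.preimage
        (f := fun K : KC => (dn j, K)) (by fun_prop)).measurableSet)
  refine h.congr (Set.ext fun K => ?_)
  simp only [mem_union, mem_iUnion, mem_ofPred_eq]
  refine ⟨?_, fun ⟨z, z1, z2⟩ => ?_⟩
  · rintro (⟨z, z1, z2⟩ | ⟨j, j1, j2⟩)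
    · exact ⟨z, subset_fill _ z1, z2⟩
    · exact ⟨_, j2, j1⟩
  · by_cases hz : z ∈ (K : Set ℂ)
    · exact Or.inl ⟨z, hz, z2⟩
    · have h1 : z ∈ interior (fill (K : Set ℂ)) := by
        by_contra hn
        exact hz ((hFILL _ K.isCompact).2.2.2.1 ⟨subset_closure z1, hn⟩)
      obtain ⟨j, j1, j2⟩ := ex_dn (isOpen_interior.inter hO) ⟨z, h1, z2⟩
      exact Or.inr ⟨j, j2, interior_subset j1⟩

theorem cl_meets {T : Set (Set ℂ)} {K O : Set ℂ} :
    (cluster T K ∩ O).Nonempty ↔ (K ∩ O).Nonempty ∨ Joins T K O := by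
  constructor
  · rintro ⟨z, ⟨K', h, z1⟩, z2⟩
    rcases Relation.ReflTransGen.cases_head h with rfl | ⟨M, hM, h'⟩
    · exact Or.inl ⟨z, z1, z2⟩
    · exact Or.inr ⟨M, hM.1, K', h', inter_comm _ _ ▸ hM.2, z, z1, z2⟩
  · rintro (⟨z, z1, z2⟩ | ⟨M, hM, K', h', h1, z, z1, z2⟩)
    · exact ⟨z, ⟨K, .refl, z1⟩, z2⟩
    · exact ⟨z, ⟨K', .head ⟨hM, inter_comm _ _ ▸ h1⟩ h', z1⟩, z2⟩

theorem cl_sub (V : Set ℂ) (T : Set (Set ℂ)) (K : Set ℂ) : cluster (ins V T) K ⊆ K ∪ V := by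
  rintro z ⟨K', h, hz⟩
  cases h with
  | refl => exact Or.inl hz
  | tail _ h => exact Or.inr (h.1.2 hz)

open Classical in
/-- The closed cluster inside the first set. -/
noncomputable def cc (q : KC × Cfg KC × KC) : KC :=
  if LF stdA q.2.1 then
    ⟨⟨closure (cluster (ins (interior q.1) (sets q.2.1)) q.2.2),
      ((q.2.2.isCompact.isBounded.union (q.1.isCompact.isBounded.subset interior_subset)).subset
        (cl_sub _ _ _)).isCompact_closure⟩,
      q.2.2.nonempty.mono fun _ hz => subset_closure ⟨_, .refl, hz⟩⟩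
  else q.2.2

theorem cc_eq {q : KC × Cfg KC × KC} (h : LF stdA q.2.1) :
    (cc q : Set ℂ) = closure (cluster (ins (interior q.1) (sets q.2.1)) q.2.2) := by
  rw [cc, if_pos h]
  rfl

theorem meas_cc (hJMN : S_JMN) (hJOINT : S_JOINT) : Measurable cc := by
  obtain ⟨φ, hφ, h⟩ := ((hJOINT KC).2.2.1 stdA measurableSet_stdA KC _
    ((measurable_fst.prodMk measurable_snd.snd) ms_in)).2
  refine measurable_KC fun O hO => ?_
  have h1 := hJMN.2.2.1 KC (fun K => K) (fun _ => O)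
    (measurable_swap isClosed_meetK.measurableSet)
    (measurable_snd (isOpen_hitK hO).measurableSet)
  have h2 : Measurable fun q : KC × Cfg KC × KC => (q.2.2, φ (q.1, q.2.1)) :=
    measurable_snd.snd.prodMk (hφ.comp (measurable_fst.prodMk measurable_snd.fst))
  refine ((measurable_snd.snd (isOpen_hitK hO).measurableSet).union
    ((measurable_snd.fst hJMN.2.2.2.2.1).inter (h2 h1))).congr (Set.ext fun q => ?_)
  simp only [mem_union, mem_inter_iff, mem_preimage, mem_ofPred_eq]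
  by_cases hq : LF stdA q.2.1
  · have e := h (q.1, q.2.1) hq
    have e1 : (φ (q.1, q.2.1)).pts ⊆ q.2.1.pts := e ▸ fun _ hx => hx.1
    have e2 : sets (φ (q.1, q.2.1)) = ins (interior q.1) (sets q.2.1) := by
      ext A
      rw [mem_sets, e]
      exact ⟨fun ⟨K, hK, hA⟩ => ⟨⟨K, hK.1, hA⟩, hA ▸ hK.2⟩,
        fun ⟨⟨K, hK, hA⟩, h'⟩ => ⟨K, ⟨hK, hA.subset.trans h'⟩, hA⟩⟩
    have e3 : LF stdA (φ (q.1, q.2.1)) :=
      ⟨e1.trans hq.1, fun j => (hq.2 j).subset (inter_subset_inter_left _ e1)⟩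
    rw [cc_eq hq, closure_inter_open_nonempty_iff hO, cl_meets, e2]
    exact or_congr Iff.rfl ⟨fun H => H.2.2, fun H => ⟨hq, e3, H⟩⟩
  · rw [cc, if_neg hq]
    exact ⟨fun H => H.elim id fun H => (hq H.1).elim, Or.inl⟩

end HulmA

open HulmA in
theorem p_HULM (hJMN : S_JMN) (hJOINT : S_JOINT) (hFILL : S_FILL) :
    S_HULM := by
  have hc := meas_cc hJMN hJOINT
  refine ⟨⟨fk hFILL ∘ cc, (meas_fk hFILL).comp hc, fun F S K h => ?_⟩, ?_⟩
  · exact congrArg fill (cc_eq (q := (F, S, K)) h)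
  · have h1 := ((hJOINT KC).2.2.1 stdA measurableSet_stdA KC _
      (((measurable_fst.prodMk measurable_snd.snd) ms_in).inter
        ((measurable_fst.prodMk hc) ms_in).compl)).1
    refine ((measurable_snd hJMN.2.2.2.2.1).inter h1.compl).congr (Set.ext fun q => ?_)
    simp only [mem_inter_iff, mem_preimage, mem_ofPred_eq, mem_compl_iff]
    refine and_congr_right fun hq => ⟨fun H => ?_, fun H ⟨_, K, hK, k1, k2⟩ => k2 ?_⟩
    · rintro _ ⟨K, hK, rfl⟩ k1
      by_contra hn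
      refine H ⟨hq, K, hK, k1, ?_⟩
      rwa [cc_eq (q := (q.1, q.2, K)) hq]
    · rw [cc_eq (q := (q.1, q.2, K)) hq]
      exact H _ ⟨K, hK, rfl⟩ k1

end Pool.Agent.P.MP_d66c6d_pr
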