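import Pool.Agent.P.MP_d66c6d_pr.J.Defs

/-!
The filling of a Brownian loop has no cut point.
-/

namespace Pool.Agent.P.MP_d66c6d_pr

open MeasureTheory ProbabilityTheory Set Metric Filter Topology
open scoped ENNReal

-- deps: BMK BM GM CUT REV
/-- The modulus of continuity of the bridge. -/
def S_OSC : Prop := ∀ ν : Measure Br, IsBridge ν → ∃ c C : ℝ, 0 < c ∧ 0 < C ∧
  ∀ h ∈ Ioc (0 : ℝ) 1, ∀ d > (0 : ℝ),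
    ν {b | ∃ s s' : unitInterval, |(s : ℝ) - s'| ≤ h ∧ d ≤ dist (b s) (b s')} ≤
      ENNReal.ofReal (C / h * Real.exp (-c * d ^ 2 / h))

-- deps: OSC NKM
/-- Most paths are slow at small scales. -/
def S_HOLD : Prop := ∀ ν : Measure Br, IsBridge ν → ∀ (σ T : ℝ) (x y : ℂ), 0 < σ → x ≠ y →
  grM ν x y {p | p.1 ≤ T} ≠ ∞ ∧
  Tendsto (fun η : ℝ => grM ν x y {p | p.1 ≤ T ∧ p ∉ Slow (η ^ (2 + σ)) η}) (𝓝[>] 0) (𝓝 0)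

-- deps: START BMK ENC
/-- Brownian motion hits a close continuum with probability at least one half. -/
def S_BMC : Prop := ∀ ν : Measure Br, IsBridge ν → ∃ a ∈ Ioc (0 : ℝ) 1,
  ∀ (K : Set ℂ) (r w : ℝ) (v : ℂ), Wide r K → 0 < w → w ≤ a * r → infDist v K ≤ w →
    bmM ν ((w / a) ^ 2) v {γ | Disjoint (range γ) K} ≤ 2⁻¹

-- deps: BMC BMK GM CUT BM REV
/-- A power bound for the probability to avoid a close continuum. -/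
def S_REC : Prop := ∀ ν : Measure Br, IsBridge ν → ∃ α ∈ Ioc (0 : ℝ) 1, ∃ C > (0 : ℝ),
  ∀ (K : Set ℂ) (r : ℝ), 0 < r → Wide r K → ∀ t ∈ Ioc (0 : ℝ) (r ^ 2), ∀ (v : ℂ) (w : ℝ), 0 < w →
    infDist v K ≤ w →
    bmM ν t v {γ | Disjoint (range γ) K} ≤ ENNReal.ofReal (C * (w / √t) ^ α)

-- deps: REC KK BMK CUT
/-- The same for the Green measure. -/
def S_ESC : Prop := ∀ ν : Measure Br, IsBridge ν → ∃ α > (0 : ℝ), ∀ r > (0 : ℝ), ∀ T : ℝ,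
  ∃ C : ℝ, ∀ K : Set ℂ, Wide r K → ∀ (z c : ℂ) (w : ℝ), 0 < w → infDist z K ≤ w → r ≤ dist z c →
    grM ν z c {p | p.1 ≤ T ∧ Disjoint (range p.2) K} ≤ ENNReal.ofReal (C * w ^ α)

-- deps: BMC KK
/-- The time spent near a continuum before hitting it. -/
def S_OCK : Prop := ∀ ν : Measure Br, IsBridge ν → ∃ a > (0 : ℝ),
  ∀ (K : Set ℂ) (r T w : ℝ) (c : ℂ), Wide r K → 0 < w → w ≤ a * r →
    ∫⁻ z in {z | infDist z K ≤ w}, grM ν c z {p | p.1 ≤ T ∧ Disjoint (range p.2) K} ≤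
      ENNReal.ofReal (2 * (w / a) ^ 2)

-- deps: BM
/-- Three bounds on masses of Green measures. -/
def S_MB : Prop := ∀ ν : Measure Br, IsBridge ν →
  (∃ κ : ℝ≥0∞, κ ≠ 0 ∧ ∀ (x : ℂ) (η : ℝ), 0 < η → ∀ z ∈ ball x (5 * η), ∀ z' ∈ ball x (5 * η),
    κ ≤ grM ν z z' {p | p.1 ≤ η ^ 2 ∧ range p.2 ⊆ ball x (10 * η)}) ∧
  (∀ k ∈ Ioc (0 : ℝ) 1, ∀ T : ℝ, ∃ C : ℝ, ∀ η > (0 : ℝ), ∀ z z' : ℂ, η ≤ dist z z' →
    grM ν z z' {p | p.1 ≤ T} ≤ ENNReal.ofReal (C * η ^ (-(2 * k)))) ∧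
  ∀ (a : ℂ) (r T : ℝ), 0 < r → grM ν a a {p | p.1 ≤ T ∧ ¬ range p.2 ⊆ ball a r} ≠ ∞

-- deps: REV
/-- Measurability of the cutting conditions. -/
def S_NKM : Prop :=
  (∀ x ρ δ, MeasurableSet (Win x ρ δ)) ∧ (∀ x η δ T, MeasurableSet (Hd x η δ T)) ∧
  (∀ x η T, MeasurableSet (Tl x η T)) ∧ (∀ δ η, IsOpen (Slow δ η)) ∧
  IsOpen {q : TP × KC | Disjoint (range q.1.2) (q.2 : Set ℂ)} ∧
  (∀ Ψ : TP × TP → ℝ≥0∞, Measurable Ψ → Measurable (mk2 Ψ)) ∧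
  ∀ ν : Measure Br, IsBridge ν → ∀ (c x : ℂ) (T η : ℝ),
    (Measurable fun K : KC => phi ν c T x η K) ∧ ∀ Z : Set ℂ, IsClosed Z →
      GS ν c {p | p.1 ≤ T ∧ p.2 1 ∈ ball x (13 * η) ∧ Disjoint (range p.2) Z} = phi ν c T x η Z

-- deps: EV
/-- The admissible marks fill a square of side `δ`. -/
def S_NK1 : Prop := ∀ (x a c : ℂ) (η δ T : ℝ) (p : TP) (Ψ : TP × TP → ℝ≥0∞) (m : ℝ≥0∞),
  0 < η → 0 < δ → p ∈ Gd a c η δ T → 15 * η ≤ dist a x → 15 * η ≤ dist c x →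
  (range p.2 ∩ closedBall x (2 * η)).Nonempty →
  (∀ α ∈ Hd x η δ T, ∀ ω ∈ Tl x η T, range α.2 ⊆ arm p.2 (closedBall x (2 * η)) →
    range ω.2 ⊆ arm (rev p.2) (closedBall x (2 * η)) → m ≤ Ψ (α, ω)) →
  ENNReal.ofReal (δ ^ 2) * m ≤ mk2 Ψ p

-- deps: EV
/-- The marks in the two windows fill at most a square of side `δ`. -/
def S_NK2 : Prop := ∀ (x : ℂ) (ρ δ : ℝ) (p : TP), 0 < δ → 0 < p.1 →
  mk2 ((Win x ρ δ ×ˢ Win x ρ δ).indicator 1) p ≤ ENNReal.ofReal (δ ^ 2) ∧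
  (Disjoint (range p.2) (closedBall x ρ) → mk2 ((Win x ρ δ ×ˢ Win x ρ δ).indicator 1) p = 0)

-- deps: MARKR MB REV NKM
/-- Removing the middle part of a path. -/
def S_NKA : Prop := ∀ ν : Measure Br, IsBridge ν → ∀ k ∈ Ioc (0 : ℝ) 1, ∀ T : ℝ, ∃ C : ℝ,
  ∀ η > (0 : ℝ), ∀ (x y : ℂ) (Ψ : TP × TP → ℝ≥0∞), Measurable Ψ →
  (∀ α ω, Ψ (α, ω) ≠ 0 → η ≤ dist (α.2 1) (ω.2 1)) →
  ∫⁻ p in {p : TP | p.1 ≤ T}, mk2 Ψ p ∂grM ν x y ≤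
    ENNReal.ofReal (C * η ^ (-(2 * k))) * ∫⁻ α, ∫⁻ ω, Ψ (α, ω) ∂GS ν y ∂GS ν x

-- deps: MARKR MB NK2 NKM REV EV
/-- Gluing two first parts into one loop. -/
def S_NKB : Prop := ∀ ν : Measure Br, IsBridge ν → ∃ κ : ℝ≥0∞, κ ≠ 0 ∧
  ∀ (x a c : ℂ) (η δ T : ℝ), 0 < η → η ≤ 1 → 0 < δ →
  κ * ∫⁻ A in Hd x η δ T, ∫⁻ A' in Hd x η δ T,
      phi ν c T x η (closedBall x (12 * η) ∪ range A.2 ∪ range A'.2) ^ 2 ∂GS ν a ∂GS ν a ≤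
    ENNReal.ofReal (δ ^ 2) *
      ∫⁻ K in {K : TP | K.1 ≤ 2 * T + 1 ∧ (range K.2 ∩ closedBall x (4 * η)).Nonempty},
        phi ν c T x η (range K.2) ^ 2 ∂grM ν a a

-- deps: NK1 NKA NKB NKM
/-- The estimate for one cell. -/
def S_NKX : Prop := ∀ ν : Measure Br, IsBridge ν → ∃ κ : ℝ≥0∞, κ ≠ 0 ∧ ∀ k ∈ Ioc (0 : ℝ) 1,
  ∀ T : ℝ, ∃ C : ℝ, ∀ (x a c : ℂ) (η δ : ℝ), 0 < η → η ≤ 1 → 0 < δ → 15 * η ≤ dist a x →
  15 * η ≤ dist c x → ∃ R : TP → ℝ≥0∞, Measurable R ∧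
    (∀ p ∈ Gd a c η δ T, ENNReal.ofReal (δ ^ 2) ^ 2 *
      grM ν a c {q | q ∈ Gd a c η δ T ∧ Neck (closedBall x (2 * η)) p.2 q.2} ≤ R p) ∧
    κ * ∫⁻ p in {p : TP | p.1 ≤ T}, R p ∂grM ν a c ≤
      ENNReal.ofReal (C * η ^ (-(2 * k))) ^ 2 * (ENNReal.ofReal (δ ^ 2) *
        ∫⁻ K in {K : TP | K.1 ≤ 2 * T + 1 ∧ (range K.2 ∩ closedBall x (4 * η)).Nonempty},
          phi ν c T x η (range K.2) ^ 2 ∂grM ν a a)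

-- deps: ESC OCK REV
/-- The sum over the cells. -/
def S_NKS : Prop := ∀ ν : Measure Br, IsBridge ν → ∃ α > (0 : ℝ), ∀ r > (0 : ℝ), ∀ T : ℝ,
  ∃ C η₀ : ℝ, 0 < η₀ ∧ ∀ η ∈ Ioo 0 η₀, ∀ (K : Set ℂ) (c : ℂ), Wide r K →
    ∑' i : ℤ × ℤ, {i : ℤ × ℤ | 2 * r ≤ dist (gp η i) c ∧
        (K ∩ closedBall (gp η i) (4 * η)).Nonempty}.indicator
      (fun i => phi ν c T (gp η i) η K ^ 2) i ≤ ENNReal.ofReal (C * η ^ (4 + α))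

-- deps: NKX NKS NKM MB HOLD REV
-- imports: Pool.Agent.P.MP_d66c6d_pr.S.Cells
/-- Necks are unlikely. -/
def S_NKT : Prop := ∀ ν : Measure Br, IsBridge ν → ∀ (a c : ℂ) (r T : ℝ), a ≠ c → 0 < r →
  ∀ ε : ℝ≥0∞, ε ≠ 0 → ∃ (η δ : ℝ) (R : TP → ℝ≥0∞), 0 < η ∧ Measurable R ∧
    (∀ p ∈ Gd a c η δ T, grM ν a c {q | q ∈ Gd a c η δ T ∧ ∃ x, r ≤ dist x a ∧ r ≤ dist x c ∧
      Neck (closedBall x η) p.2 q.2} ≤ R p) ∧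
    ∫⁻ p in {p : TP | p.1 ≤ T}, R p ∂grM ν a c ≤ ε ∧
    grM ν a c {p | p.1 ≤ T ∧ p ∉ Slow δ η} ≤ ε

-- deps:
/-- Being joined inside the filling is measurable. -/
def S_JMS : Prop :=
  MeasurableSet {q : KC × ℂ × ℂ | JoinedIn (interior (fill (q.1 : Set ℂ))) q.2.1 q.2.2}

-- deps: NKT TOP JMS NKM HOLD HITG REV CUT
/-- The end points of two paths are joined inside the filling. -/
def S_NECK : Prop := ∀ ν : Measure Br, IsBridge ν → ∀ a c : ℂ, a ≠ c →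
  ∀ᵐ p ∂grM ν a c, ∀ᵐ q ∂grM ν a c,
    JoinedIn (interior (fill (range p.2 ∪ range q.2))) a c

-- deps: NECK JMS MARK LOOP REV CUT MUK
/-- Almost every loop is solid. -/
def S_SOLID : Prop := ∀ ν : Measure Br, IsBridge ν → ∀ᵐ K : KC ∂muK ν, Solid K

-- deps: PPO JOINT
/-- Null sets of pairs of points. -/
def S_PAIR : Prop := ∀ (E : Type) [MeasurableSpace E] [StandardBorelSpace E] [Nonempty E]
  (m : Measure E), SigmaFinite m → ∀ B : Set (E × E), MeasurableSet B →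
  (∀ x, m {y | (x, y) ∈ B} = 0) →
  ∀ᵐ S ∂PP m, ∀ x ∈ S.pts, ∀ y ∈ S.pts, x ≠ y → (x, y) ∉ B

-- deps: PAIR SOLID HITG PPO MUK DEC CUT REV
/-- The loops of a soup are solid, and two loops that meet overlap. -/
def S_PAIRK : Prop := ∀ ν : Measure Br, IsBridge ν → ∀ c : ℝ,
  ∀ᵐ S ∂PP (ENNReal.ofReal c • muK ν), ∀ K ∈ sets S, Solid K ∧ ∀ K' ∈ sets S, K ≠ K' →
    (K ∩ K').Nonempty → (K ∩ K' ∩ interior (fill K')).Nonempty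

end Pool.Agent.P.MP_d66c6d_pr
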