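import Pool.Agent.P.MP_d66c6d_pr.J.Defs

/-!
Boundary behaviour of conformal maps, and Jordan domains.
-/

namespace Pool.Agent.P.MP_d66c6d_pr

open MeasureTheory ProbabilityTheory Set Metric Filter Topology
open scoped ENNReal

-- deps:
/-- Logarithms extend from a net on which they are consistent. -/
def S_NETD : Prop := ∀ (E P : Set ℂ) (F L : ℂ → ℂ) (r η : ℝ), 2 * r ≤ η → ContinuousOn F E →
  E ⊆ ⋃ p ∈ P, ball p r → (∀ p ∈ P, Complex.exp (L p) = F p) →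
  (∀ p ∈ P, ∀ u ∈ ball p η, ‖F u - F p‖ ≤ ‖F p‖ / 2) →
  (∀ p ∈ P, ∀ p' ∈ P, dist p p' < 2 * r → L p' = L p + Complex.log (F p' / F p)) →
  HasLog F E

-- deps: NETD FILL EIL LOGA CUT
/-- If the end points are not joined inside the filling, there are arbitrarily thin necks. -/
def S_TOP : Prop := ∀ (α β : Br) (a c : ℂ) (r : ℝ), α 0 = a → β 0 = a → α 1 = c → β 1 = c →
  0 < r → ball a r ∪ ball c r ⊆ fill (range α ∪ range β) →
  ¬ JoinedIn (interior (fill (range α ∪ range β))) a c → ∀ η > (0 : ℝ),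
    ∃ x, r ≤ dist x a ∧ r ≤ dist x c ∧ Neck (closedBall x η) α β

-- deps:
-- imports: Pool.Agent.P.MP_6c8efb_pr.SLE.LLa Pool.Agent.P.MP_6c8efb_pr.SLE.LCl
/-- Short images of circular cross cuts. -/
def S_CARD : Prop := ∀ (g : ℂ → ℂ) (M : ℝ), DifferentiableOn ℂ g (ball 0 1) →
  InjOn g (ball 0 1) → (∀ z ∈ ball (0 : ℂ) 1, ‖g z‖ ≤ M) → ∀ ε > (0 : ℝ), ∀ s₁ ∈ Ioc (0 : ℝ) 1,
  ∃ s₀ ∈ Ioo 0 s₁, ∀ ζ ∈ sphere (0 : ℂ) 1, ∃ s ∈ Ioo s₀ s₁, ∀ z ∈ ball 0 1 ∩ sphere ζ s,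
    ∀ w ∈ ball 0 1 ∩ sphere ζ s, dist (g z) (g w) ≤ ε

-- deps: CARD FIMG EIL FILL
/-- Uniform continuity of the conformal map onto a domain with locally connected complement. -/
def S_CARU : Prop := ∀ (U : Set ℂ) (f g : ℂ → ℂ), Conf U f g → Bornology.IsBounded U →
  LCon (frontier U) Uᶜ → UniformContinuousOn g (ball 0 1)

-- deps: CARU
/-- The continuous extension to the closed disc. -/
def S_CAR1 : Prop := ∀ (U : Set ℂ) (f g : ℂ → ℂ), Conf U f g → Bornology.IsBounded U →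
  LCon (frontier U) Uᶜ → ∃ G : ℂ → ℂ, ContinuousOn G (closedBall 0 1) ∧ EqOn G g (ball 0 1) ∧
    G '' ball 0 1 = U ∧ G '' sphere 0 1 = frontier U

-- deps:
/-- A holomorphic function that omits a value does not take it on a whole boundary arc. -/
def S_ARC : Prop := ∀ (G : ℂ → ℂ) (w : ℂ), ContinuousOn G (closedBall 0 1) →
  DifferentiableOn ℂ G (ball 0 1) → (∀ z ∈ ball (0 : ℂ) 1, G z ≠ w) → ∀ O : Set ℂ, IsOpen O →
  (O ∩ sphere 0 1).Nonempty → ∃ ζ ∈ O ∩ sphere 0 1, G ζ ≠ w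

-- deps: ARC FIMG EIL
/-- The extension is injective when the complement has no cut point. -/
def S_CAR2 : Prop := ∀ (U : Set ℂ) (f g G : ℂ → ℂ), Conf U f g → Bornology.IsBounded U →
  ContinuousOn G (closedBall 0 1) → EqOn G g (ball 0 1) → G '' sphere 0 1 = frontier U →
  (∀ w ∈ frontier U, IsPreconnected (Uᶜ \ {w})) → InjOn G (closedBall 0 1)

-- deps: RMT IMG CAR1 CAR2
/-- The chart of the outside. -/
def S_EXTM : Prop := ∀ (F : Set ℂ) (a : ℂ), IsCompact F → IsPreconnected F → IsPreconnected Fᶜ →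
  a ∈ interior F → LCon (frontier F) F → (∀ w ∈ frontier F, IsPreconnected (F \ {w})) →
  ∃ G, ExtMap F a G

-- deps: RMT CAR1 CAR2 EIL LOGA FILL
/-- The chart of the inside. -/
def S_INTM : Prop := ∀ (F : Set ℂ) (a : ℂ) (G : ℂ → ℂ), IsCompact F → IsPreconnected Fᶜ →
  a ∈ interior F → F ⊆ closure (interior F) → ExtMap F a G → ∃ H, IntMap F H

-- deps:
/-- Gluing the two charts. -/
def S_SCHG : Prop := ∀ (F : Set ℂ) (a : ℂ) (G H : ℂ → ℂ), IsCompact F → ExtMap F a G →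
  IntMap F H → IsJordan (interior F)

-- deps: LCC EXTM INTM SCHG FILL
-- imports: Pool.Agent.P.MP_d66c6d_pr.S.Covr
/-- The outer boundary of a cluster of solid overlapping loops is a simple loop. -/
def S_JDET : Prop := ∀ (V : Set ℂ) (T : ℝ → Set (Set ℂ)) (c₀ c₁ : ℝ), IsOpen V →
  Bornology.IsBounded V → Lay V T c₀ c₁ →
  (∀ K ∈ T c₀, Solid K ∧ ∀ K' ∈ T c₀, K ≠ K' → (K ∩ K').Nonempty →
    (K ∩ K' ∩ interior (fill K')).Nonempty) →
  ∀ K ∈ T c₀, IsJordan (interior (fill (closure (cluster (T c₀) K))))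

-- deps: FILL
-- imports: Pool.Agent.P.MP_d66c6d_pr.S.Covr
/-- A countable family of domains without holes that approximates every such domain. -/
def S_UFAM : Prop := ∃ 𝒰 : Set (Set ℂ), 𝒰.Countable ∧
  (∀ U ∈ 𝒰, IsOpen U ∧ IsPreconnected U ∧ NoHole U ∧ Bornology.IsBounded U) ∧
  ∀ V Q : Set ℂ, IsOpen V → NoHole V → IsCompact Q → IsPreconnected Q → Q.Nonempty → Q ⊆ V →
    ∃ U ∈ 𝒰, Q ⊆ U ∧ U ⊆ V

end Pool.Agent.P.MP_d66c6d_pr
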