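import Pool.Agent.P.MP_d66c6d_pr.J.Iface
import Pool.Agent.P.MP_d66c6d_pr.J.Iface2

/-!
All the loops of the nested ensemble are simple.
-/

namespace Pool.Agent.P.MP_d66c6d_pr

open MeasureTheory ProbabilityTheory Set Metric Filter Topology
open scoped ENNReal

-- deps: DENS TRANS MUK
-- imports: Pool.Agent.P.MP_d66c6d_pr.S.Subx
/-- A level with a distance exponent is subcritical. -/
def S_SUBY : Prop := ∀ ν : Measure Br, IsBridge ν → ∀ c θ : ℝ, Lvl0 ν c θ →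
  SubC ν (ENNReal.ofReal c)

-- deps: BLOB JN DEC LVA LVB EXL RC NC HQD HQL HITL PPO MUK REV
-- imports: Pool.Agent.P.MP_d66c6d_pr.G.Sub Pool.Agent.P.MP_d66c6d_pr.G.Lay Pool.Agent.P.MP_d66c6d_pr.L.Layt
/-- The structure of one subcritical soup in a domain without holes. -/
def S_LAYY : Prop := ∀ ν : Measure Br, IsBridge ν → ∀ c c₂ : ℝ, 0 < c → c < c₂ → c₂ ≤ 1 →
  SubC ν (ENNReal.ofReal c₂) → ∀ V : Set ℂ, IsOpen V → IsPreconnected V → NoHole V →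
  Bornology.IsBounded V → ∀ᵐ N ∂PP (ENNReal.ofReal c • loopMeasure ν),
    ∃ (T : ℝ → Set (Set ℂ)) (c₁ : ℝ), Lay V T c c₁ ∧ T c = ins V (trace '' N.pts)

-- deps: JMN JOINT FILL
/-- The filled clusters inside a random domain are measurable. -/
def S_HULM : Prop :=
  (∃ H : KC × Cfg KC × KC → KC, Measurable H ∧ ∀ (F : KC) (S : Cfg KC) (K : KC), LF stdA S →
    (H (F, S, K) : Set ℂ) = fill (closure (cluster (ins (interior F) (sets S)) K))) ∧
  MeasurableSet {q : KC × Cfg KC | LF stdA q.2 ∧ NCl (sets q.2) (interior (q.1 : Set ℂ))}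

-- deps: LAYY PAIRK JDET UFAM LVB JOR
-- imports: Pool.Agent.P.MP_d66c6d_pr.S.Covr
/-- One generation. -/
def S_JALL : Prop := ∀ ν : Measure Br, IsBridge ν → ∀ c c₂ : ℝ, 0 < c → c < c₂ → c₂ ≤ 1 →
  SubC ν (ENNReal.ofReal c₂) →
  (∀ V, IsJordan V → ∀ᵐ N ∂PP (ENNReal.ofReal c • loopMeasure ν), NCl (trace '' N.pts) V) ∧
  ∀ᵐ N ∂PP (ENNReal.ofReal c • loopMeasure ν), ∀ V, IsJordan V → NCl (trace '' N.pts) V →
    ∀ K ∈ trace '' N.pts, K ⊆ V →
      IsJordan (interior (fill (closure (cluster (ins V (trace '' N.pts)) K)))) ∧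
      fill (closure (cluster (ins V (trace '' N.pts)) K)) ⊆ V

-- deps: HULM ENUM JALL LVB DEC
/-- All generations. -/
def S_GENJ : Prop := ∀ ν : Measure Br, IsBridge ν → ∀ c c₂ : ℝ, 0 < c → c < c₂ → c₂ ≤ 1 →
  SubC ν (ENNReal.ofReal c₂) → ∀ (Ω₀ : Type) [MeasurableSpace Ω₀] (P₀ : Measure Ω₀)
  [IsProbabilityMeasure P₀] (n : Ω₀ → Cfg Lp),
  MeasurePreserving n P₀ (PP (ENNReal.ofReal c • loopMeasure ν)) → ∀ R > (0 : ℝ),
  ∀ᵐ ω ∂Measure.infinitePi (fun _ : ℕ => P₀),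
    ∀ V ∈ nested2 (fun k => trace '' (n (ω k)).pts) (ball 0 R), IsJordan V

-- deps: GENJ SUBY TRANS MUK
/-- The simplicity of the loops follows from the loop soup construction. -/
def S_UPG : Prop := ∀ ν : Measure Br, IsBridge ν → ∀ Θ : ℝ → ℝ,
  (∀ c ∈ Ioo (0 : ℝ) (1 / 2), Lvl0 ν c (Θ c)) → AllL ν Θ

end Pool.Agent.P.MP_d66c6d_pr
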