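import Pool.Agent.P.MP_d66c6d_pr.J.Iface2
import Pool.Agent.P.MP_d66c6d_pr.T.Iface

/-! Step INTM of the carpet project. -/

namespace Pool.Agent.P.MP_d66c6d_pr

open MeasureTheory ProbabilityTheory Set Metric Filter Topology
open scoped ENNReal

namespace IntmA

variable {F : Set ℂ} {a : ℂ} {G : ℂ → ℂ}

theorem G_ne (h : ExtMap F a G) {z : ℂ} (hz : z ∈ closedBall (0 : ℂ) 1) (h0 : z ≠ 0) :
    G z ≠ 0 := fun e =>
  h0 (h.2.1 hz (mem_closedBall_self zero_le_one) (e.trans h.2.2.1.symm))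

theorem ps_cont (h : ExtMap F a G) :
    ContinuousOn (fun z => a + (G z)⁻¹) (closedBall 0 1 \ {0}) :=
  continuousOn_const.add ((h.1.mono sdiff_subset).inv₀ fun _ hz => G_ne h hz.1 hz.2)

theorem ps_inj (h : ExtMap F a G) : InjOn (fun z => a + (G z)⁻¹) (closedBall 0 1) :=
  fun _ hz _ hw e => h.2.1 hz hw (inv_injective (add_left_cancel e))

theorem sphere_sub : sphere (0 : ℂ) 1 ⊆ closedBall 0 1 \ {0} := by
  intro z hz
  refine ⟨sphere_subset_closedBall hz, ?_⟩
  rintro rfl
  simp at hz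

theorem ps_out (h : ExtMap F a G) {z : ℂ} (hz : z ∈ closedBall (0 : ℂ) 1) (h0 : z ≠ 0) :
    a + (G z)⁻¹ ∉ interior F := by
  rcases eq_or_lt_of_le (mem_closedBall.1 hz) with e | e
  · have : a + (G z)⁻¹ ∈ frontier F := h.2.2.2.2 ▸ ⟨z, e, rfl⟩
    exact this.2
  · have : a + (G z)⁻¹ ∈ Fᶜ := h.2.2.2.1 ▸ ⟨z, ⟨e, h0⟩, rfl⟩
    exact fun hi => this (interior_subset hi)

theorem exists_k (h : ExtMap F a G) : ∃ k : ℂ → ℂ, ContinuousOn k (frontier F) ∧
    ∀ p ∈ frontier F, k p ∈ sphere (0 : ℂ) 1 ∧ a + (G (k p))⁻¹ = p := by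
  have hk : ∀ p ∈ frontier F,
      Function.invFunOn (fun z => a + (G z)⁻¹) (sphere 0 1) p ∈ sphere (0 : ℂ) 1 ∧
      a + (G (Function.invFunOn (fun z => a + (G z)⁻¹) (sphere 0 1) p))⁻¹ = p := by
    intro p hp
    rw [← h.2.2.2.2] at hp
    exact Function.invFunOn_pos hp
  refine ⟨_, ?_, hk⟩
  rw [continuousOn_iff_isClosed]
  intro t ht
  refine ⟨(fun z => a + (G z)⁻¹) '' (sphere 0 1 ∩ t), ?_, ?_⟩
  · exact (((isCompact_sphere 0 1).inter_right ht).image_of_continuousOn
      ((ps_cont h).mono (inter_subset_left.trans sphere_sub))).isClosed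
  · ext p
    constructor
    · rintro ⟨h1, h2⟩
      exact ⟨⟨_, ⟨(hk p h2).1, h1⟩, (hk p h2).2⟩, h2⟩
    · rintro ⟨⟨z, ⟨z1, z2⟩, rfl⟩, h2⟩
      refine ⟨?_, h2⟩
      have := ps_inj h (sphere_subset_closedBall (hk _ h2).1) (sphere_subset_closedBall z1)
        (hk _ h2).2
      rw [mem_preimage, this]
      exact z2

theorem preconn (hEIL : S_EIL) (hLOGA : S_LOGA) (hF : IsCompact F) (ha : a ∈ interior F)
    (h : ExtMap F a G) : IsPreconnected (interior F) := by
  obtain ⟨k, kc, hk⟩ := exists_k h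
  have hJ : IsCompact (frontier F) :=
    hF.of_isClosed_subset isClosed_frontier hF.isClosed.frontier_subset
  refine isPreconnected_of_forall a fun b hb => ?_
  have hbJ : b ∉ frontier F := fun e => e.2 hb
  have haJ : a ∉ frontier F := fun e => e.2 ha
  have e1 : ∀ z ∈ closedBall (0 : ℂ) 1, z ≠ 0 →
      1 + (a - b) * G z = (a + (G z)⁻¹ - b) * G z := by
    intro z hz h0
    have := G_ne h hz h0
    field_simp
    ring
  obtain ⟨L, Lc, hL⟩ := hLOGA.2.2.2.2.2 (closedBall 0 1) (fun z => 1 + (a - b) * G z)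
    (convex_closedBall 0 1) (continuousOn_const.add (continuousOn_const.mul h.1)) (by
      intro z hz
      by_cases h0 : z = 0
      · simp [h0, h.2.2.1]
      · rw [e1 z hz h0]
        refine mul_ne_zero (sub_ne_zero.2 fun e => ?_) (G_ne h hz h0)
        exact ps_out h hz h0 (e ▸ hb))
  have hlog : HasLog (fun z => (z - b) / (z - a)) (frontier F) := by
    refine ⟨fun p => L (k p), Lc.comp kc fun p hp => sphere_subset_closedBall (hk p hp).1, ?_⟩
    intro p hp
    obtain ⟨k1, k2⟩ := hk p hp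
    obtain ⟨k3, k4⟩ := sphere_sub k1
    have e2 : p - a = (G (k p))⁻¹ := by
      conv_lhs => rw [← k2]
      ring
    show Complex.exp (L (k p)) = (p - b) / (p - a)
    rw [(hL _ k3).trans (e1 _ k3 k4), k2, e2, div_inv_eq_mul]
  have hmem := (hEIL.2.1 _ hJ b hbJ a haJ).2 hlog
  refine ⟨connectedComponentIn (frontier F)ᶜ b, ?_, hmem, mem_connectedComponentIn hbJ,
    isPreconnected_connectedComponentIn⟩
  refine isPreconnected_connectedComponentIn.subset_left_of_subset_union isOpen_interior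
    (isOpen_interior (s := Fᶜ))
    (disjoint_compl_right.mono interior_subset interior_subset) ?_
    ⟨b, mem_connectedComponentIn hbJ, hb⟩
  rw [← compl_frontier_eq_union_interior]
  exact connectedComponentIn_subset _ _

theorem noHole (hFILL : S_FILL) (hF : IsCompact F) (hc : IsPreconnected Fᶜ) :
    NoHole (interior F) := by
  intro K hK hKF z hz
  obtain ⟨f1, -, -, -, -, -, -, -, f9⟩ := hFILL K hK
  have h1 : fill K ⊆ F := by
    rcases f9 Fᶜ hc (disjoint_compl_left.mono_right (hKF.trans interior_subset)) with e | e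
    · exfalso
      refine NormedSpace.unbounded_univ ℝ ℂ ?_
      rw [← union_compl_self F]
      exact hF.isBounded.union (f1.isBounded.subset (e.trans interior_subset))
    · exact compl_subset_compl.1 e
  by_cases hzK : z ∈ K
  · exact hKF hzK
  rcases f9 {z} isPreconnected_singleton (disjoint_singleton_left.2 hzK) with e | e
  · exact interior_mono h1 (e rfl)
  · exact absurd hz (e rfl)

theorem lcon (hF : IsCompact F) (h : ExtMap F a G) : LCon (frontier F) (interior F)ᶜ := by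
  obtain ⟨k, kc, hk⟩ := exists_k h
  have hJ : IsCompact (frontier F) :=
    hF.of_isClosed_subset isClosed_frontier hF.isClosed.frontier_subset
  have hA : closedBall (0 : ℂ) 1 \ ball 0 (1 / 2) ⊆ closedBall 0 1 \ {0} :=
    sdiff_subset_sdiff_right (singleton_subset_iff.2 (mem_ball_self (by norm_num)))
  have u1 := Metric.uniformContinuousOn_iff.1
    (((isCompact_closedBall (0 : ℂ) 1).diff isOpen_ball).uniformContinuousOn_of_continuous
      ((ps_cont h).mono hA))
  have u2 := Metric.uniformContinuousOn_iff.1 (hJ.uniformContinuousOn_of_continuous kc)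
  intro η hη
  obtain ⟨δ, hδ, h1⟩ := u1 η hη
  obtain ⟨η', hη', h2⟩ := u2 (min δ (1 / 2)) (lt_min hδ (by norm_num))
  refine ⟨η', hη', fun p hp p' hp' hd => ?_⟩
  obtain ⟨k1, k2⟩ := hk p hp
  obtain ⟨k3, k4⟩ := hk p' hp'
  have hC : closedBall (0 : ℂ) 1 ∩ ball (k p) (min δ (1 / 2)) ⊆
      closedBall (0 : ℂ) 1 \ ball 0 (1 / 2) := by
    rintro z ⟨z1, z2⟩
    refine ⟨z1, fun z3 => ?_⟩
    have t1 := dist_triangle_left (k p) 0 z
    have t2 := (mem_ball.1 z2).trans_le (min_le_right _ _)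
    rw [mem_sphere.1 k1] at t1
    have t3 := mem_ball.1 z3
    linarith
  have hkp : k p ∈ closedBall (0 : ℂ) 1 ∩ ball (k p) (min δ (1 / 2)) :=
    ⟨sphere_subset_closedBall k1, mem_ball_self (lt_min hδ (by norm_num))⟩
  refine ⟨(fun z => a + (G z)⁻¹) '' (closedBall 0 1 ∩ ball (k p) (min δ (1 / 2))), ?_, ?_,
    ⟨k p, hkp, k2⟩, ⟨k p', ⟨sphere_subset_closedBall k3, ?_⟩, k4⟩⟩
  · rintro _ ⟨z, hz, rfl⟩
    refine ⟨ps_out h hz.1 (hA (hC hz)).2, ?_⟩
    have := h1 z (hC hz) (k p) (hC hkp) ((mem_ball.1 hz.2).trans_le (min_le_left _ _))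
    rw [k2] at this
    exact this
  · exact ((convex_closedBall 0 1).inter (convex_ball _ _)).isPreconnected.image _
      ((ps_cont h).mono (hC.trans hA))
  · rw [mem_ball, dist_comm]
    exact h2 p hp p' hp' hd

end IntmA

open IntmA in
theorem p_INTM (hRMT : S_RMT) (hCAR1 : S_CAR1) (hCAR2 : S_CAR2) (hEIL : S_EIL) (hLOGA : S_LOGA) (hFILL : S_FILL) :
    S_INTM := by
  intro F a G hF hc ha hcl h
  have hb : Bornology.IsBounded (interior F) := hF.isBounded.subset interior_subset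
  have hne : interior F ≠ univ := fun e => NormedSpace.unbounded_univ ℝ ℂ (e ▸ hb)
  have hfr : frontier (interior F) = frontier F := by
    rw [frontier, frontier, interior_interior, hF.isClosed.closure_eq,
      Subset.antisymm (closure_minimal interior_subset hF.isClosed) hcl]
  obtain ⟨f, g, hfg, -⟩ := hRMT _ isOpen_interior (preconn hEIL hLOGA hF ha h)
    (noHole hFILL hF hc) hne a ha
  obtain ⟨H, H1, H2, H3, H4⟩ := hCAR1 _ f g hfg hb (hfr.symm ▸ lcon hF h)
  refine ⟨H, H1, hCAR2 _ f g H hfg hb H1 H2 H4 fun w hw => ?_, H3, H4.trans hfr⟩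
  refine hc.subset_closure ?_ ?_
  · intro z hz
    refine ⟨fun e => hz (interior_subset e), ?_⟩
    rintro rfl
    exact hz (hF.isClosed.frontier_subset (hfr ▸ hw))
  · rw [closure_compl]
    exact sdiff_subset

end Pool.Agent.P.MP_d66c6d_pr
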