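import Pool.Agent.P.MP_d66c6d_pr.J.Iface3
import Pool.Agent.P.MP_d66c6d_pr.J.Iface
import Pool.Agent.P.MP_d66c6d_pr.J.Iface2
import Pool.Agent.P.MP_d66c6d_pr.L.Iface
import Pool.Agent.P.MP_d66c6d_pr.A.Iface
import Pool.Agent.P.MP_d66c6d_pr.S.Covr

/-! Step JALL of the carpet project. -/

namespace Pool.Agent.P.MP_d66c6d_pr

open MeasureTheory ProbabilityTheory Set Metric Filter Topology
open scoped ENNReal

theorem p_JALL (hLAYY : S_LAYY) (hPAIRK : S_PAIRK) (hJDET : S_JDET) (hUFAM : S_UFAM) (hLVB : S_LVB) (hJOR : S_JOR) :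
    S_JALL := by
  intro ν hν c c₂ h0 h1 h2 hs
  have hno : ∀ V, IsJordan V → NoHole V := fun V hV K _ hK => (hJOR V hV).2.2.2.2.2.2.2.1 K hK
  have hbd : ∀ V, IsJordan V → Bornology.IsBounded V := fun V hV =>
    (hJOR V hV).2.2.2.1.isBounded.subset subset_closure
  refine ⟨fun V hV => ?_, ?_⟩
  · filter_upwards [hLAYY ν hν c c₂ h0 h1 h2 hs V (hJOR V hV).1 (hJOR V hV).2.1 (hno V hV)
      (hbd V hV)] with N ⟨T, c₁, hL, e⟩ K hK hKV
    have h := hL.ncl
    have e' : ins V (ins V (trace '' N.pts)) = ins V (trace '' N.pts) := by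
      ext A
      simp only [ins, mem_ofPred_eq, and_assoc, and_self]
    rw [e] at h
    have := h K ⟨hK, hKV⟩ hKV
    rwa [e'] at this
  · obtain ⟨𝒰, u1, u2, u3⟩ := hUFAM
    have a1 := (ae_ball_iff u1).2 fun U hU => hLAYY ν hν c c₂ h0 h1 h2 hs U (u2 U hU).1
      (u2 U hU).2.1 (u2 U hU).2.2.1 (u2 U hU).2.2.2
    have a2 := (hLVB.2 ν hν c).1.quasiMeasurePreserving.ae (hPAIRK ν hν c)
    filter_upwards [a1, a2] with N b1 b2 V hV hN K hK hKV
    rw [Cfg.map, sets_map_trace] at b2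
    have hpre : ∀ A ∈ trace '' N.pts, IsPreconnected A ∧ A.Nonempty := by
      rintro _ ⟨l, -, rfl⟩
      rw [← range_lp]
      exact ⟨isPreconnected_range (lp l).2.continuous, range_nonempty _⟩
    generalize trace '' N.pts = S at *
    have hQ := hN K hK hKV
    have hK' : K ∈ ins V S := ⟨hK, hKV⟩
    refine ⟨?_, (hJOR V hV).2.2.2.2.2.2.2.1 _ hQ⟩
    obtain ⟨U, hU, q1, q2⟩ := u3 V _ (hJOR V hV).1 (hno V hV)
      (isCompact_of_isClosed_isBounded isClosed_closure ((hbd V hV).subset hQ))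
      (isPreconnected_cluster (fun A hA => (hpre A hA.1).1) hK' (hpre K hK).2).closure
      ((hpre K hK).2.mono ((CovrA.sub_cl .refl).trans subset_closure)) hQ
    obtain ⟨T, c₁, hL, e⟩ := b1 U hU
    have hin : ∀ A ∈ ins V S, Lk (ins V S) K A → A ∈ ins U S := fun A hA h =>
      ⟨hA.1, (CovrA.sub_cl h).trans (subset_closure.trans q1)⟩
    have e' : cluster (ins V S) K = cluster (ins U S) K :=
      (CovrA.cl_sub hin).antisymm (CovrA.cl_sub fun A hA _ => ⟨hA.1, hA.2.trans q2⟩)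
    have := hJDET U T c c₁ (u2 U hU).1 (u2 U hU).2.2.2 hL (by
      rw [e]
      exact fun A hA => ⟨(b2 A hA.1).1, fun A' hA' => (b2 A hA.1).2 A' hA'.1⟩) K
      (e ▸ hin K hK' .refl)
    rwa [e, ← e'] at this

end Pool.Agent.P.MP_d66c6d_pr
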