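import Pool.Agent.P.MP_d66c6d_pr.J.Iface2
import Pool.Agent.P.MP_d66c6d_pr.E.Iface
import Pool.Agent.P.MP_d66c6d_pr.T.Iface
import Pool.Agent.P.MP_d66c6d_pr.S.Covr

/-! Step JDET of the carpet project. -/

namespace Pool.Agent.P.MP_d66c6d_pr

open MeasureTheory ProbabilityTheory Set Metric Filter Topology
open scoped ENNReal

namespace JdetA

/-- One component of the interior of the filled cluster is dense in the cluster. -/
theorem dense {S : Set (Set ℂ)} (hS : ∀ K ∈ S, Solid K ∧ ∀ K' ∈ S, K ≠ K' → (K ∩ K').Nonempty →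
    (K ∩ K' ∩ interior (fill K')).Nonempty) {K : Set ℂ} (hK : K ∈ S) (hne : K.Nonempty) :
    ∃ a ∈ interior (fill (closure (cluster S K))), closure (cluster S K) ⊆
      closure (connectedComponentIn (interior (fill (closure (cluster S K)))) a) := by
  set U := interior (fill (closure (cluster S K)))
  have h1 : ∀ A, Lk S K A → interior (fill A) ⊆ U := fun A h =>
    interior_mono (fill_mono ((CovrA.sub_cl h).trans subset_closure))
  obtain ⟨I, i1, i2, i3⟩ := (hS K hK).1
  obtain ⟨a, ha⟩ := (hne.mono i3).of_closure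
  have i4 := i1.trans (h1 K .refl)
  refine ⟨a, i4 ha, closure_minimal (sUnion_subset fun A (hA : Lk S K A) => ?_) isClosed_closure⟩
  induction hA with
  | refl => exact i3.trans (closure_mono (i2.subset_connectedComponentIn ha i4))
  | @tail A B hA hB ih =>
    by_cases e : A = B
    · exact e ▸ ih
    obtain ⟨x, ⟨x1, x2⟩, x3⟩ := (hS A (Lk.mem hK hA)).2 B hB.1 e hB.2
    obtain ⟨J, j1, j2, j3⟩ := (hS B hB.1).1
    have j4 := h1 B (hA.tail hB)
    have ho : IsOpen (connectedComponentIn U x) := isOpen_interior.connectedComponentIn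
    have hx := mem_connectedComponentIn (j4 x3)
    obtain ⟨y, y1, y2⟩ := _root_.mem_closure_iff.1 (ih x1) _ ho hx
    obtain ⟨z, z1, z2⟩ := _root_.mem_closure_iff.1 (j3 x2) _ ho hx
    refine j3.trans (closure_mono ?_)
    rw [connectedComponentIn_eq y2, ← connectedComponentIn_eq y1, connectedComponentIn_eq z1]
    exact j2.subset_connectedComponentIn z2 (j1.trans j4)

/-- The boundary of a hole is not reduced to a point. -/
theorem two {Q : Set ℂ} (hQ : IsClosed Q) {z : ℂ} (hz : z ∈ fill Q) (hz' : z ∉ Q) (w : ℂ) :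
    ∃ p ∈ closure (connectedComponentIn Qᶜ z), p ∈ Q ∧ p ≠ w := by
  by_contra hn
  push Not at hn
  have ho : ∀ v, IsOpen (connectedComponentIn Qᶜ v) := fun v =>
    hQ.isOpen_compl.connectedComponentIn
  have h1 : ({w}ᶜ : Set ℂ) ⊆ connectedComponentIn Qᶜ z := by
    refine (isConnected_compl_singleton_of_one_lt_rank (Complex.rank_real_complex ▸
      Nat.one_lt_ofNat) w).isPreconnected.subset_of_closure_inter_subset (ho z) ?_ ?_
    · rw [inter_comm]
      exact (dense_compl_singleton w).inter_open_nonempty _ (ho z) ⟨z, mem_connectedComponentIn hz'⟩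
    · rintro p ⟨p1, p2⟩
      have p3 : p ∈ Qᶜ := fun h => p2 (hn p p1 h)
      obtain ⟨v, v1, v2⟩ := _root_.mem_closure_iff.1 p1 _ (ho p) (mem_connectedComponentIn p3)
      rw [connectedComponentIn_eq v2, ← connectedComponentIn_eq v1]
      exact mem_connectedComponentIn p3
  refine NormedSpace.unbounded_univ ℝ ℂ ?_
  rw [← union_compl_self {w}]
  exact Bornology.isBounded_singleton.union (Bornology.IsBounded.subset hz h1)

/-- Local connectedness passes to the closure. -/
theorem lcon {C : Set ℂ} (h : ∀ η > (0 : ℝ), ∃ η' > (0 : ℝ), ∀ p ∈ C, ∀ p' ∈ C, dist p p' < η' →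
    JoinedIn (C ∩ ball p η) p p') {E A : Set ℂ} (hE : E ⊆ closure C) (hA : closure C ⊆ A) :
    LCon E A := by
  intro η hη
  obtain ⟨η', h0, h1⟩ := h (η / 4) (by positivity)
  have m0 : 0 < min η' η := lt_min h0 hη
  have m1 := min_le_left η' η
  have m2 := min_le_right η' η
  refine ⟨min η' η / 4, by positivity, fun p hp p' hp' hd => ?_⟩
  obtain ⟨q, q1, q2⟩ := Metric.mem_closure_iff.1 (hE hp) (min η' η / 4) (by positivity)
  have q3 : q ∈ C ∩ ball p (η / 2) := ⟨q1, mem_ball'.2 (by linarith)⟩
  have h2 : C ∩ ball p (min η' η / 4) ⊆ pathComponentIn (C ∩ ball p (η / 2)) q := by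
    rintro u ⟨u1, u2⟩
    have := dist_triangle_left q u p
    have := mem_ball'.1 u2
    refine (h1 q q1 u u1 (by linarith)).mono (inter_subset_inter_right _ (ball_subset_ball' ?_))
    rw [dist_comm]
    linarith
  have h3 := isOpen_ball.closure_inter.trans (closure_mono h2)
  refine ⟨closure (pathComponentIn (C ∩ ball p (η / 2)) q),
    (closure_mono pathComponentIn_subset).trans (closure_inter_subset_inter_closure _ _ |>.trans
      (inter_subset_inter hA (closure_ball_subset_closedBall.trans
        (closedBall_subset_ball (by linarith))))),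
    (isPathConnected_pathComponentIn q3).isConnected.isPreconnected.closure,
    h3 ⟨hE hp, mem_ball_self (by positivity)⟩, h3 ⟨hE hp', mem_ball'.2 hd⟩⟩

end JdetA

theorem p_JDET (hLCC : S_LCC) (hEXTM : S_EXTM) (hINTM : S_INTM) (hSCHG : S_SCHG) (hFILL : S_FILL) :
    S_JDET := by
  intro V T c₀ c₁ hV hb hL hS K hK
  have hsub := hL.mono c₀ c₁ le_rfl hL.lt.le le_rfl
  have ht := (hL.tame.mono hsub).1
  have hne : K.Nonempty := (ht K hK).2.1.nonempty
  obtain ⟨a, ha, hI⟩ := JdetA.dense hS hK hne
  have hQ : IsCompact (closure (cluster (T c₀) K)) :=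
    (hb.subset (sUnion_subset fun A hA => hL.sub A (hsub (Lk.mem hK hA)))).isCompact_closure
  have hQc := (isPreconnected_cluster (fun A hA => (ht A hA).2.1.isConnected.isPreconnected)
    hK hne).closure
  have hlc : LCon (frontier (fill (closure (cluster (T c₀) K))))
      (fill (closure (cluster (T c₀) K))) := by
    refine JdetA.lcon (fun η hη => ?_) (hFILL _ hQ).2.2.2.1 (subset_fill _)
    obtain ⟨η', h0, h1⟩ := hLCC V T c₀ c₁ hV hb hL K hK η hη
    refine ⟨η', h0, fun p hp p' hp' hd => ?_⟩
    obtain ⟨ξ, -, h2⟩ := h1 p hp p' hp' hd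
    exact h2.mono (inter_subset_inter_left _ inter_subset_right)
  generalize closure (cluster (T c₀) K) = Q at ha hI hQ hQc hlc
  obtain ⟨f1, f2, -, -, f5, -, -, -, f9⟩ := hFILL Q hQ
  have hH : ∀ y ∈ fill Q, y ∉ Q → connectedComponentIn Qᶜ y ⊆ interior (fill Q) := fun y hy hy' =>
    (f9 _ isPreconnected_connectedComponentIn
      (subset_compl_iff_disjoint_right.1 (connectedComponentIn_subset _ _))).resolve_right
        fun h => h (mem_connectedComponentIn hy') hy
  have hU := connectedComponentIn_subset (interior (fill Q)) a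
  obtain ⟨G, hG⟩ := hEXTM (fill Q) a f1 (f5 hQc) f2 ha hlc fun w hw => by
    have h0 : closure (connectedComponentIn (interior (fill Q)) a) \ {w} ⊆ fill Q \ {w} :=
      sdiff_subset_sdiff_left (closure_minimal (hU.trans interior_subset) f1.isClosed)
    have h1 : connectedComponentIn (interior (fill Q)) a ⊆
        closure (connectedComponentIn (interior (fill Q)) a) \ {w} := fun u hu =>
      ⟨subset_closure hu, fun e => hw.2 (hU (mem_singleton_iff.1 e ▸ hu))⟩
    have h2 := isPreconnected_connectedComponentIn.subset_closure h1 sdiff_subset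
    have h3 := h1 (mem_connectedComponentIn ha)
    refine isPreconnected_of_forall a fun y hy => ?_
    by_cases hy' : y ∈ Q
    · exact ⟨_, h0, h3, ⟨hI hy', hy.2⟩, h2⟩
    obtain ⟨p, p1, p2, p3⟩ := JdetA.two hQ.isClosed hy.1 hy' w
    have h4 : IsPreconnected (insert p (connectedComponentIn Qᶜ y)) :=
      isPreconnected_connectedComponentIn.subset_closure (subset_insert _ _)
        (insert_subset p1 subset_closure)
    refine ⟨_, union_subset h0 (insert_subset ⟨subset_fill _ p2, p3⟩ fun u hu => ?_), Or.inl h3,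
      Or.inr (Or.inr (mem_connectedComponentIn hy')),
      h2.union p ⟨hI p2, p3⟩ (mem_insert _ _) h4⟩
    exact ⟨interior_subset (hH y hy.1 hy' hu),
      fun e => hw.2 (hH y hy.1 hy' (mem_singleton_iff.1 e ▸ hu))⟩
  obtain ⟨H, hH'⟩ := hINTM (fill Q) a G f1 f2 ha (fun y hy => by
    by_cases hy' : y ∈ Q
    · exact closure_mono hU (hI hy')
    · exact subset_closure (hH y hy hy' (mem_connectedComponentIn hy'))) hG
  exact hSCHG (fill Q) a G H f1 hG hH'

end Pool.Agent.P.MP_d66c6d_pr
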