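import Pool.Agent.P.MP_d66c6d_pr.J.Iface

/-! Step JMS of the carpet project. -/

namespace Pool.Agent.P.MP_d66c6d_pr

open MeasureTheory ProbabilityTheory Set Metric Filter Topology
open scoped ENNReal

namespace JmsA

/-- A countable base of discs. -/
def bl (i : ℕ × ℕ) : Set ℂ := ball (dn i.1) (1 / ((i.2 : ℝ) + 1))

theorem exists_bl {O : Set ℂ} (hO : IsOpen O) {y : ℂ} (hy : y ∈ O) : ∃ i, y ∈ bl i ∧ bl i ⊆ O := by
  obtain ⟨r, hr, h⟩ := Metric.isOpen_iff.1 hO y hy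
  obtain ⟨m, hm⟩ := exists_nat_one_div_lt (half_pos hr)
  obtain ⟨a, ha⟩ := denseRange_dn.exists_dist_lt y (Nat.one_div_pos_of_nat (n := m))
  refine ⟨(a, m), ha, (ball_subset_ball' ?_).trans h⟩
  rw [dist_comm]
  linarith

/-- Chains of discs inside the filling. -/
def ch : ℕ → ℕ × ℕ → ℕ × ℕ → Set KC
  | 0, j, j' => {K | j = j' ∧ bl j' ⊆ fill (K : Set ℂ)}
  | n + 1, j, j' => {K | (∃ i, K ∈ ch n j i ∧ (bl i ∩ bl j').Nonempty) ∧ bl j' ⊆ fill (K : Set ℂ)}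

theorem meas_ch : ∀ n j j', MeasurableSet (ch n j j')
  | 0, _, _ => (MeasurableSet.const _).inter (isClosed_covK _).measurableSet
  | n + 1, j, j' => by
    refine MeasurableSet.inter ?_ (isClosed_covK _).measurableSet
    change MeasurableSet {K | ∃ i, K ∈ ch n j i ∧ (bl i ∩ bl j').Nonempty}
    rw [ofPred_exists]
    exact MeasurableSet.iUnion fun i => (meas_ch n j i).inter (MeasurableSet.const _)

theorem join_bl {A : Set ℂ} {i : ℕ × ℕ} (h : bl i ⊆ A) {x y : ℂ} (hx : x ∈ bl i) (hy : y ∈ bl i) :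
    JoinedIn (interior A) x y :=
  (((convex_ball _ _).isPathConnected ⟨x, hx⟩).joinedIn x hx y hy).mono
    (interior_maximal h isOpen_ball)

theorem join_ch {K : KC} {j : ℕ × ℕ} {x : ℂ} (hx : x ∈ bl j) :
    ∀ n j', K ∈ ch n j j' → ∀ y ∈ bl j', JoinedIn (interior (fill (K : Set ℂ))) x y
  | 0, _, ⟨rfl, h⟩, _, hy => join_bl h hx hy
  | n + 1, _, ⟨⟨i, h1, z, h2, h3⟩, h⟩, _, hy => (join_ch hx n i h1 z h2).trans (join_bl h h3 hy)

theorem ch_of_join {K : KC} {x y : ℂ} (h : JoinedIn (interior (fill (K : Set ℂ))) x y) :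
    ∃ n j j', K ∈ ch n j j' ∧ x ∈ bl j ∧ y ∈ bl j' := by
  obtain ⟨j, hj, hj'⟩ := exists_bl isOpen_interior h.source_mem
  obtain ⟨γ, hγ⟩ := h
  have hU : IsOpen {y | ∃ n j', K ∈ ch n j j' ∧ y ∈ bl j'} := by
    simp only [ofPred_exists]
    exact isOpen_iUnion fun n => isOpen_iUnion fun j' => isOpen_const.inter isOpen_ball
  obtain ⟨n, j', h1, h2⟩ := (isPreconnected_range γ.continuous).subset_of_closure_inter_subset hU
    ⟨x, γ.source_mem_range, 0, j, ⟨rfl, hj'.trans interior_subset⟩, hj⟩ (by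
      rintro _ ⟨h1, s, rfl⟩
      obtain ⟨i, hi, hi'⟩ := exists_bl isOpen_interior (hγ s)
      obtain ⟨z, hz, n, j', h2, h3⟩ := mem_closure_iff.1 h1 _ isOpen_ball hi
      exact ⟨n + 1, i, ⟨⟨j', h2, z, h3, hz⟩, hi'.trans interior_subset⟩, hi⟩) γ.target_mem_range
  exact ⟨n, j, j', h1, hj, h2⟩

end JmsA

theorem p_JMS :
    S_JMS := by
  have : {q : KC × ℂ × ℂ | JoinedIn (interior (fill (q.1 : Set ℂ))) q.2.1 q.2.2} =
      ⋃ n, ⋃ j, ⋃ j', JmsA.ch n j j' ×ˢ (JmsA.bl j ×ˢ JmsA.bl j') := by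
    ext q
    simp only [mem_iUnion, mem_prod]
    exact ⟨JmsA.ch_of_join, fun ⟨n, j, j', h1, h2, h3⟩ => JmsA.join_ch h2 n j' h1 _ h3⟩
  rw [S_JMS, this]
  exact MeasurableSet.iUnion fun n => MeasurableSet.iUnion fun j => MeasurableSet.iUnion fun j' =>
    (JmsA.meas_ch n j j').prod (measurableSet_ball.prod measurableSet_ball)

end Pool.Agent.P.MP_d66c6d_pr
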