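import Pool.Agent.P.MP_d66c6d_pr.J.Iface3
import Pool.Agent.P.MP_d66c6d_pr.S.Iface
import Pool.Agent.P.MP_d66c6d_pr.N.Iface
import Pool.Agent.P.MP_d66c6d_pr.L.Iface
import Pool.Agent.P.MP_d66c6d_pr.F.Iface
import Pool.Agent.P.MP_d66c6d_pr.B.Iface
import Pool.Agent.P.MP_d66c6d_pr.G.Sub
import Pool.Agent.P.MP_d66c6d_pr.G.Lay
import Pool.Agent.P.MP_d66c6d_pr.L.Layt

/-! Step LAYY of the carpet project. -/

namespace Pool.Agent.P.MP_d66c6d_pr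

open MeasureTheory ProbabilityTheory Set Metric Filter Topology
open scoped ENNReal

namespace LayyA

theorem sub {ν : Measure Br} {c : ℝ} (key : SubC ν (ENNReal.ofReal c)) : Sub ν c := by
  intro η hη
  obtain ⟨δ, h1, h2⟩ := ((key.eventually (ge_mem_nhds (pos_iff_ne_zero.2 hη))).and
    self_mem_nhdsWithin).exists
  refine ⟨δ, h2, ?_⟩
  simpa only [Crs, Jn, mul_one] using h1

open SubA in
theorem tame_sub (hBLOB : S_BLOB) (hJN : S_JN) (hMUK : S_MUK) (hPPO : S_PPO) {ν : Measure Br}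
    (hν : IsBridge ν) {c : ℝ} (hS : SubC ν (ENNReal.ofReal c)) (R : ℝ) :
    ∀ᵐ S ∂soup ν c (ball 0 R), Tame (sets S) ∧ SubT (sets S) := by
  have hc : ENNReal.ofReal c ≠ ∞ := ENNReal.ofReal_ne_top
  have hle := smul_res_le (ENNReal.ofReal c) (muK ν) (inK (ball 0 R))
  obtain ⟨h1, h2, -⟩ := (hJN.2 ν hν _ hc).1 _ hle
  have h3 := (hBLOB ν hν _ hc hS).2.2 _ hle
  have h4 := (hPPO KC (ENNReal.ofReal c • (muK ν).restrict (inK (ball 0 R)))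
    inferInstance).2.2.2.2.2.1 _ (Measure.ae_smul_measure
      (ae_restrict_mem (isOpen_inK (isOpen_ball (x := (0 : ℂ)) (ε := R))).measurableSet) _)
  have : PathConnectedSpace unitInterval :=
    isPathConnected_iff_pathConnectedSpace.1
      ((convex_Icc (0 : ℝ) 1).isPathConnected (nonempty_Icc.2 zero_le_one))
  have h5 : ∀ᵐ K : KC ∂muK ν, IsPathConnected (K : Set ℂ) :=
    (hMUK ν hν).2.2.2.2.2.2.1 _ (ae_of_all _ fun l =>
      isPathConnected_range (lp l).2.continuous)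
  have h6 := (hPPO KC (ENNReal.ofReal c • (muK ν).restrict (inK (ball 0 R)))
    inferInstance).2.2.2.2.2.1 _ (Measure.ae_smul_measure (ae_restrict_of_ae h5) _)
  filter_upwards [h2, h3, h4, h6] with S s2 s3 s4 s6
  exact ⟨tame s2 s4 s6, subT s3 s4⟩

theorem layt (hDEC : S_DEC) (hLVA : S_LVA) (hEXL : S_EXL) (hRC : S_RC) {ν : Measure Br}
    (hν : IsBridge ν) {c₀ c₁ c₂ : ℝ} (h0 : 0 < c₀) (h1 : c₀ < c₁) (h2 : c₁ < c₂) (h3 : c₂ ≤ 1)
    (hs : Sub ν c₂) {V : Set ℂ} (hV : IsOpen V) {R : ℝ} (hR : V ⊆ ball 0 R)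
    (hT : ∀ᵐ S ∂soup ν c₂ (ball 0 R), Tame (sets S) ∧ SubT (sets S)) :
    ∀ᵐ S ∂lsV ν c₀ V, Tame (sets (lev c₁ S)) ∧ SubT (sets (lev c₁ S)) ∧
      (∀ ξ > (0 : ℝ), ∃ c' ∈ Ioc c₀ c₁, ∀ K ∈ sets (lev c' S), ξ ≤ diam K → K ∈ sets (lev c₀ S)) ∧
      (∀ q : ℚ × ℚ × ℚ, 0 < q.2.2 →
        EXD (sets (lev c₀ S)) (sets (lev c₁ S)) (closedBall (qp q) q.2.2)) ∧
      ∀ q q' : ℚ × ℚ × ℚ, 0 < q'.2.2 → ball (qp q) q.2.2 ⊆ V →
        EXD (ins (ball (qp q) q.2.2) (sets (lev c₀ S))) (ins (ball (qp q) q.2.2) (sets (lev c₀ S)))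
          (closedBall (qp q') q'.2.2) := by
  have hb : Bornology.IsBounded V := isBounded_ball.subset hR
  obtain ⟨-, -, a3, a4, a5⟩ := hLVA ν hν c₀ ⟨h0.le, by linarith⟩ V hV
  have hE : ∀ c, c₀ ≤ c → c ≤ c₁ → ∀ W, IsOpen W → Bornology.IsBounded W → ∀ q : ℚ × ℚ × ℚ,
      ∀ᵐ S ∂lsV ν c₀ W, 0 < q.2.2 →
        EXD (sets (lev c₀ S)) (sets (lev c S)) (closedBall (qp q) q.2.2) := by
    intro c e1 e2 W e3 e4 q
    by_cases hq : 0 < q.2.2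
    · exact (hEXL ν hν c₀ c c₂ h0.le e1 (by linarith) (by linarith) hs W _ e3 e4
        (isCompact_closedBall _ _) (convex_closedBall _ _).isPreconnected
        (LaytA.nontriv _ (by exact_mod_cast hq))).mono fun _ h _ => h
    · exact .of_forall fun _ h => (hq h).elim
  have b1 := (a3 c₁ ⟨h1.le, by linarith⟩).quasiMeasurePreserving.ae
    (hDEC.1 KC _ _ ((hDEC.2 ν hν c₂).2.1 (inK (ball 0 R))) (fun A => mul_le_mul'
      (ENNReal.ofReal_le_ofReal h2.le) (Measure.restrict_mono (fun K e => Subset.trans e hR) le_rfl A))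
      (fun S => Tame (sets S) ∧ SubT (sets S))
      (fun S T e h => ⟨h.1.mono (image_mono e), LaytA.subT_mono h.2 (image_mono e)⟩)
      hT)
  have b2 : ∀ q q' : ℚ × ℚ × ℚ, ∀ᵐ S ∂lsV ν c₀ V, 0 < q'.2.2 → ball (qp q) q.2.2 ⊆ V →
      EXD (ins (ball (qp q) q.2.2) (sets (lev c₀ S))) (ins (ball (qp q) q.2.2) (sets (lev c₀ S)))
        (closedBall (qp q') q'.2.2) := by
    intro q q'
    by_cases hq : ball (qp q) q.2.2 ⊆ V
    · refine ((a5 _ isOpen_ball hq).quasiMeasurePreserving.ae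
        (hE c₀ le_rfl h1.le _ isOpen_ball isBounded_ball q')).mono fun S h e _ => ?_
      rw [← LaytA.res]
      exact h e
    · exact .of_forall fun _ _ h => (hq h).elim
  filter_upwards [b1, a4, ae_all_iff.2 (hE c₁ h1.le le_rfl V hV hb),
    ae_all_iff.2 fun q => ae_all_iff.2 (b2 q)] with S e1 e2 e3 e4
  exact ⟨e1.1, e1.2, hRC S R c₀ c₁ e2.1 (fun p hp => Subset.trans (e2.2 p hp).1 hR) h1, e3, e4⟩

end LayyA

theorem p_LAYY (hBLOB : S_BLOB) (hJN : S_JN) (hDEC : S_DEC) (hLVA : S_LVA) (hLVB : S_LVB) (hEXL : S_EXL) (hRC : S_RC) (hNC : S_NC) (hHQD : S_HQD) (hHQL : S_HQL) (hHITL : S_HITL) (hPPO : S_PPO) (hMUK : S_MUK) (hREV : S_REV) :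
    S_LAYY := by
  intro ν hν c₀ c₂ h0 h02 h21 hS V v1 v2 v8 hb
  obtain ⟨c₁, h01, h12⟩ := exists_between h02
  obtain ⟨R, hVR⟩ := hb.subset_ball 0
  have hne : V ≠ univ := fun h => NormedSpace.unbounded_univ ℝ ℂ (h ▸ hb)
  obtain ⟨m1, m2⟩ := hLVB.2 ν hν c₀
  obtain ⟨m2, m3⟩ := m2 R
  have := (hMUK ν hν).1
  have hx : IsProbabilityMeasure (xsoup ν c₀ R) := instProbPP _
  suffices h : ∀ᵐ p ∂(PP (ENNReal.ofReal c₀ • loopMeasure ν)).prod (xsoup ν c₀ R),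
      Lay V (lay V p.1 p.2) c₀ c₁ by
    refine (Measure.ae_ae_of_ae_prod h).mono fun N hN => ?_
    obtain ⟨X, hX, hX'⟩ := (hN.and m2).exists
    exact ⟨lay V N X, _, hX, by rw [lay, sets, hX', image_empty, union_empty]⟩
  have a1 := (m3 V v1 hVR).quasiMeasurePreserving.ae
    (LayyA.layt hDEC hLVA hEXL hRC hν h0 h01 h12 h21 (LayyA.sub hS) v1 hVR
      (LayyA.tame_sub hBLOB hJN hMUK hPPO hν hS R))
  have a2 := m1.quasiMeasurePreserving.ae (hNC ν hν c₀ c₂ h0.le h02 (LayyA.sub hS) V v1 v2 v8 hne)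
  have a3 := (hPPO Lp (ENNReal.ofReal c₀ • loopMeasure ν) inferInstance).2.2.2.2.2.1 _
    (Measure.ae_smul_measure (((hREV.2 ν hν).2.2.2.2.2.2.2).and (hHQL ν hν univ isClosed_univ)) _)
  have a4 := ae_all_iff.2 fun q : ℚ × ℚ × ℚ =>
    hHITL ν hν c₀ (V ∩ ball (qp q) q.2.2) (v1.inter isOpen_ball)
  filter_upwards [a1, Measure.quasiMeasurePreserving_fst.ae (a2.and (a3.and a4)),
    Measure.quasiMeasurePreserving_snd.ae m2] with p b1 ⟨b2, b3, b4⟩ b5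
  obtain ⟨t1, t2, t3, t4, t5⟩ := b1
  rw [hLVB.1 V c₀ c₁ h01.le] at t1 t2 t4
  rw [hLVB.1 V c₀ c₀ le_rfl] at t3 t4 t5
  have e : lay V p.1 p.2 c₀ = ins V (trace '' p.1.pts) := by
    rw [lay, sets, b5, image_empty, union_empty]
  refine ⟨h01, fun K hK => hK.2, fun c c' _ h _ => LayA.lay_mono V _ _ h, t1, fun ξ hξ => ?_, t2,
    fun K hK hKV => ?_, fun q hq _ => t4 q hq, fun q q' h1 h2 _ => t5 q q' h1 h2, fun K hK => ?_⟩
  · obtain ⟨c', hc', h⟩ := t3 ξ hξ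
    rw [hLVB.1 V c₀ c' hc'.1.le] at h
    exact ⟨c', hc', h⟩
  · rw [e] at hK ⊢
    rw [LayA.ins_ins, inter_self]
    rw [Cfg.map, sets_map_trace] at b2
    exact b2 K hK.1 hKV
  · rw [e] at hK ⊢
    obtain ⟨⟨l, hl, rfl⟩, hK⟩ := hK
    obtain ⟨⟨-, r1, r2⟩, r3⟩ := b3 l hl
    refine ⟨(lp l).2, range_lp l, r1.trans r2.symm, hHQD _ _ r3, fun q hq A hA => ?_⟩
    rw [LayA.ins_ins] at hA ⊢
    exact hHQD _ _ (b4 q l hl (fun h => hq (h.trans inter_subset_right)) A hA)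

end Pool.Agent.P.MP_d66c6d_pr
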