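import Pool.Agent.P.MP_d66c6d_pr.J.Iface
import Pool.Agent.P.MP_d66c6d_pr.B.Iface

/-! Step MB of the carpet project. -/

namespace Pool.Agent.P.MP_d66c6d_pr

open MeasureTheory ProbabilityTheory Set Metric Filter Topology
open scoped ENNReal

namespace MbA

variable {ν : Measure Br}

theorem gr_eq [SFinite ν] (x y : ℂ) {E : Set TP} (hE : MeasurableSet E) :
    grM ν x y E = ∫⁻ t in Ioi (0 : ℝ), hk t (y - x) * ν {b | (t, seg x y t b) ∈ E} := by
  rw [← lintegral_indicator_one hE, lintegral_grM ν x y (measurable_one.indicator hE)]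
  refine lintegral_congr fun t => ?_
  rw [lintegral_brM ν t x y (F := fun γ => E.indicator 1 (t, γ))
    ((measurable_one.indicator hE).comp (by fun_prop))]
  congr 1
  have hm : MeasurableSet {b | (t, seg x y t b) ∈ E} :=
    (by fun_prop : Measurable fun b : Br => ((t, seg x y t b) : TP)) hE
  rw [← lintegral_indicator_one hm]
  rfl

theorem gr_le [SFinite ν] (x y : ℂ) {E : Set TP} (hE : MeasurableSet E) {T : ℝ}
    (hT : ∀ p ∈ E, p.1 ≤ T) {f : ℝ → ℝ≥0∞}
    (hf : ∀ t ∈ Ioc 0 T, hk t (y - x) * ν {b | (t, seg x y t b) ∈ E} ≤ f t) :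
    grM ν x y E ≤ ∫⁻ t in Ioc 0 T, f t := by
  rw [gr_eq x y hE, ← lintegral_indicator measurableSet_Ioi,
    ← lintegral_indicator measurableSet_Ioc]
  refine lintegral_mono fun t => indicator_apply_le' (fun ht => ?_) fun _ => zero_le
  by_cases h : t ≤ T
  · rw [indicator_of_mem (show t ∈ Ioc 0 T from ⟨ht, h⟩)]
    exact hf t ⟨ht, h⟩
  · rw [show {b | (t, seg x y t b) ∈ E} = ∅ from
      eq_empty_of_forall_notMem fun b hb => h (hT _ hb)]
    simp

theorem exp_le {u k : ℝ} (hu : 0 < u) (hk : k ∈ Ioc (0 : ℝ) 1) : Real.exp (-u) ≤ u ^ (-k) := by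
  rw [Real.exp_neg, Real.rpow_neg hu.le]
  refine inv_anti₀ (Real.rpow_pos_of_pos hu k) ?_
  have := Real.add_one_le_exp u
  rcases le_total u 1 with h | h
  · linarith [Real.rpow_le_one hu.le h hk.1.le]
  · have h2 := Real.rpow_le_rpow_of_exponent_le h hk.2
    rw [Real.rpow_one] at h2
    linarith

theorem one (hν : IsBridge ν) : ∃ κ : ℝ≥0∞, κ ≠ 0 ∧ ∀ (x : ℂ) (η : ℝ), 0 < η →
    ∀ z ∈ ball x (5 * η), ∀ z' ∈ ball x (5 * η),
    κ ≤ grM ν z z' {p | p.1 ≤ η ^ 2 ∧ range p.2 ⊆ ball x (10 * η)} := by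
  have := hν.prob
  have hpi := Real.pi_pos
  refine ⟨ENNReal.ofReal (Real.exp (-100) / (4 * Real.pi)) * ν (ball 0 5),
    mul_ne_zero (ENNReal.ofReal_pos.2 (by positivity)).ne' (hν.tube rfl rfl (by norm_num)),
    fun x η hη z hz z' hz' => ?_⟩
  have hη2 : 0 < η ^ 2 := by positivity
  refine le_of_le_of_eq ?_ (gr_eq z z' ((measurableSet_le measurable_fst measurable_const).inter
    (measurableSet_rangeSub isOpen_ball))).symm
  refine le_trans ?_ (lintegral_mono_set (s := Ioc (η ^ 2 / 2) (η ^ 2))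
    fun t ht => lt_trans (by positivity) ht.1)
  refine le_trans (le_of_eq ?_) (setLIntegral_mono' (f := fun _ =>
    ENNReal.ofReal (Real.exp (-100) / (2 * Real.pi * η ^ 2)) * ν (ball 0 5)) measurableSet_Ioc
    fun t ht => mul_le_mul' (ENNReal.ofReal_le_ofReal ?_) (measure_mono fun b hb => ⟨ht.2, ?_⟩))
  · rw [setLIntegral_const, Real.volume_Ioc, mul_right_comm,
      ← ENNReal.ofReal_mul (by positivity)]
    congr 2
    field_simp
    ring
  · have ht0 : 0 < t := lt_trans (by positivity) ht.1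
    have hd : ‖z' - z‖ ≤ 10 * η := by
      have := dist_triangle_right z' z x
      rw [dist_eq_norm] at this
      linarith [mem_ball.1 hz, mem_ball.1 hz']
    refine div_le_div₀ (by positivity) (Real.exp_le_exp.2 ?_) (by positivity) (by nlinarith [ht.2])
    rw [le_div_iff₀ (by positivity)]
    nlinarith [ht.1, pow_le_pow_left₀ (norm_nonneg _) hd 2]
  · rintro _ ⟨s, rfl⟩
    have h1 := (convex_ball x (5 * η)).add_smul_sub_mem hz hz' s.2
    have h2 : ‖(√t : ℂ) * b s‖ ≤ η * 5 := by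
      rw [norm_mul, Complex.norm_real, Real.norm_of_nonneg (Real.sqrt_nonneg t)]
      exact mul_le_mul (Real.sqrt_le_iff.2 ⟨hη.le, ht.2⟩)
        ((b.norm_coe_le_norm s).trans (mem_ball_zero_iff.1 hb).le) (norm_nonneg _) hη.le
    change seg z z' t b s ∈ _
    rw [mem_ball_iff_norm] at h1 ⊢
    rw [seg_apply, add_sub_right_comm]
    refine (norm_add_le _ _).trans_lt ?_
    rw [Complex.real_smul] at h1
    linarith

theorem two (hν : IsBridge ν) {k : ℝ} (hk' : k ∈ Ioc (0 : ℝ) 1) (T : ℝ) :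
    ∃ C : ℝ, ∀ η > (0 : ℝ), ∀ z z' : ℂ, η ≤ dist z z' →
      grM ν z z' {p | p.1 ≤ T} ≤ ENNReal.ofReal (C * η ^ (-(2 * k))) := by
  have := hν.prob
  have hpi := Real.pi_pos
  have hi : IntegrableOn (fun t : ℝ => t ^ (k - 1)) (Ioc 0 T) :=
    (intervalIntegral.intervalIntegrable_rpow' (by linarith [hk'.1])).1
  refine ⟨2 ^ k / (2 * Real.pi) * ∫ t in Ioc 0 T, t ^ (k - 1), fun η hη z z' hd => ?_⟩
  refine (gr_le z z' (measurableSet_le measurable_fst measurable_const) (fun _ hp => hp)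
    (f := fun t => ENNReal.ofReal (2 ^ k / (2 * Real.pi) * η ^ (-(2 * k)) * t ^ (k - 1)))
    fun t ht => ?_).trans (le_of_eq ?_)
  · refine (mul_le_mul' le_rfl prob_le_one).trans ?_
    rw [mul_one]
    refine ENNReal.ofReal_le_ofReal ?_
    have ht0 := ht.1
    rw [dist_comm, dist_eq_norm] at hd
    have h1 : Real.exp (-‖z' - z‖ ^ 2 / (2 * t)) ≤ (η ^ 2 / (2 * t)) ^ (-k) := by
      refine le_trans (Real.exp_le_exp.2 ?_) (exp_le (by positivity) hk')
      rw [neg_div, neg_le_neg_iff]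
      gcongr
    refine (div_le_div_of_nonneg_right h1 (by positivity)).trans (le_of_eq ?_)
    rw [Real.div_rpow (by positivity) (by positivity), Real.mul_rpow (by norm_num) ht0.le,
      ← Real.rpow_natCast, ← Real.rpow_mul hη.le, Real.rpow_sub_one ht0.ne',
      Real.rpow_neg ht0.le, Real.rpow_neg (by norm_num : (0 : ℝ) ≤ 2)]
    push_cast
    rw [mul_neg]
    field_simp
  · rw [← ofReal_integral_eq_lintegral_ofReal (hi.const_mul _), integral_const_mul, mul_right_comm]
    filter_upwards [ae_restrict_mem measurableSet_Ioc] with t ht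
    have := ht.1
    positivity

theorem three (hBM : S_BM) (hν : IsBridge ν) (a : ℂ) (r T : ℝ) (hr : 0 < r) :
    grM ν a a {p | p.1 ≤ T ∧ ¬ range p.2 ⊆ ball a r} ≠ ∞ := by
  have := hν.prob
  have hpi := Real.pi_pos
  obtain ⟨c, C, hc, hC, h, -⟩ := (hBM ν hν).2
  refine ne_top_of_le_ne_top ?_ (gr_le a a ((measurableSet_le measurable_fst measurable_const).inter
    (measurableSet_rangeSub isOpen_ball).compl) (fun _ hp => hp.1)
    (f := fun _ => ENNReal.ofReal (C / (2 * Real.pi * c * r ^ 2))) fun t ht => ?_)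
  · rw [setLIntegral_const, Real.volume_Ioc]
    exact ENNReal.mul_ne_top ENNReal.ofReal_ne_top ENNReal.ofReal_ne_top
  have ht0 := ht.1
  have hs : 0 < √t := Real.sqrt_pos.2 ht0
  refine (mul_le_mul' le_rfl ((measure_mono fun b hb => ?_).trans
    (h (r / √t) (by positivity)))).trans ?_
  · obtain ⟨_, ⟨s, rfl⟩, hs'⟩ := not_subset.1 hb.2
    change seg a a t b s ∉ _ at hs'
    rw [mem_ball_iff_norm, seg_apply, not_lt] at hs'
    simp only [sub_self, mul_zero, add_zero, add_sub_cancel_left, norm_mul, Complex.norm_real,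
      Real.norm_of_nonneg hs.le] at hs'
    change r / √t ≤ ‖b‖
    rw [div_le_iff₀' hs]
    exact hs'.trans (mul_le_mul_of_nonneg_left (b.norm_coe_le_norm s) hs.le)
  · rw [hk, ← ENNReal.ofReal_mul (by positivity)]
    refine ENNReal.ofReal_le_ofReal ?_
    have h1 := exp_le (u := c * r ^ 2 / t) (k := 1) (by positivity) ⟨one_pos, le_rfl⟩
    rw [Real.rpow_neg_one] at h1
    rw [div_pow, Real.sq_sqrt ht0.le, show -c * (r ^ 2 / t) = -(c * r ^ 2 / t) by ring]
    simp only [sub_self, norm_zero, ne_eq, OfNat.ofNat_ne_zero, not_false_eq_true, zero_pow,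
      neg_zero, zero_div, Real.exp_zero]
    calc 1 / (2 * Real.pi * t) * (C * Real.exp (-(c * r ^ 2 / t)))
        ≤ 1 / (2 * Real.pi * t) * (C * (c * r ^ 2 / t)⁻¹) := by gcongr
      _ = _ := by field_simp

end MbA

theorem p_MB (hBM : S_BM) :
    S_MB := fun _ hν => ⟨MbA.one hν, fun _ hk T => MbA.two hν hk T, MbA.three hBM hν⟩

end Pool.Agent.P.MP_d66c6d_pr
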