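import Pool.Agent.P.MP_d66c6d_pr.J.Iface
import Pool.Agent.P.MP_d66c6d_pr.J.Iface2
import Pool.Agent.P.MP_d66c6d_pr.N.Iface
import Pool.Agent.P.MP_d66c6d_pr.B.Iface

/-! Step NECK of the carpet project. -/

namespace Pool.Agent.P.MP_d66c6d_pr

open MeasureTheory ProbabilityTheory Set Metric Filter Topology
open scoped ENNReal

namespace NeckA

theorem fmono {A B : Set ℂ} (h : A ⊆ B) : fill A ⊆ fill B := fun z hz =>
  show Bornology.IsBounded (connectedComponentIn Bᶜ z) from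
    Bornology.IsBounded.subset (show Bornology.IsBounded (connectedComponentIn Aᶜ z) from hz)
      (connectedComponentIn_mono z (compl_subset_compl.2 h))

theorem null_pairs {X : Type*} [MeasurableSpace X] (μ : Measure X) [SFinite μ] (A : Set X)
    (hA : MeasurableSet A) (hM : μ A ≠ ∞) (Bad : Set (X × X)) (hB : MeasurableSet Bad)
    (hBA : Bad ⊆ A ×ˢ A)
    (h : ∀ ε : ℝ≥0∞, ε ≠ 0 → ∃ (G : Set X) (R : X → ℝ≥0∞), MeasurableSet G ∧ Measurable R ∧
      ∫⁻ p in A, R p ∂μ ≤ ε ∧ μ (A \ G) ≤ ε ∧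
      ∀ᵐ p ∂μ, p ∈ G → μ (Prod.mk p ⁻¹' Bad ∩ G) ≤ R p) :
    ∀ᵐ p ∂μ, ∀ᵐ q ∂μ, (p, q) ∉ Bad := by
  have hf : Measurable fun p => μ (Prod.mk p ⁻¹' Bad) := measurable_measure_prodMk_left hB
  have key : ∀ ε : ℝ≥0∞, ε ≠ 0 → ∫⁻ p, μ (Prod.mk p ⁻¹' Bad) ∂μ ≤ ε * (μ A + 1 + μ A) := by
    intro ε hε
    obtain ⟨G, R, hG, hR, h1, h2, h3⟩ := h ε hε
    have hle : ∀ᵐ p ∂μ, μ (Prod.mk p ⁻¹' Bad) ≤
        A.indicator (fun p => ε + R p) p + (A \ G).indicator (fun _ => μ A) p := by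
      filter_upwards [h3] with p hp
      have hs : Prod.mk p ⁻¹' Bad ⊆ A := fun q hq => (hBA hq).2
      by_cases hpA : p ∈ A
      · by_cases hpG : p ∈ G
        · rw [indicator_of_mem hpA]
          refine le_trans ?_ le_self_add
          calc μ (Prod.mk p ⁻¹' Bad)
              ≤ μ (Prod.mk p ⁻¹' Bad ∩ G) + μ (Prod.mk p ⁻¹' Bad \ G) :=
                measure_le_inter_add_sdiff _ _ _
            _ ≤ R p + ε := add_le_add (hp hpG) ((measure_mono (sdiff_subset_sdiff_left hs)).trans h2)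
            _ = ε + R p := add_comm _ _
        · rw [indicator_of_mem (show p ∈ A \ G from ⟨hpA, hpG⟩)]
          exact (measure_mono hs).trans le_add_self
      · have : Prod.mk p ⁻¹' Bad = ∅ := eq_empty_of_forall_notMem fun q hq => hpA (hBA hq).1
        rw [this, measure_empty]
        exact zero_le
    refine (lintegral_mono_ae hle).trans ?_
    rw [lintegral_add_right _ (measurable_const.indicator (hA.diff hG)), lintegral_indicator hA,
      lintegral_indicator (hA.diff hG), lintegral_add_left measurable_const, setLIntegral_const,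
      setLIntegral_const, mul_add, mul_add, mul_one]
    refine add_le_add (add_le_add le_rfl h1) ?_
    rw [mul_comm]
    exact mul_le_mul' h2 le_rfl
  have hc : μ A + 1 + μ A ≠ ∞ := by
    simp [hM]
  have ht : Tendsto (fun ε : ℝ≥0∞ => ε * (μ A + 1 + μ A)) (𝓝[>] 0) (𝓝 0) := by
    have := ENNReal.Tendsto.mul_const (b := μ A + 1 + μ A)
      (tendsto_id.mono_left (nhdsWithin_le_nhds (s := Ioi (0 : ℝ≥0∞)) (a := 0))) (Or.inr hc)
    simpa using this
  have h0 : ∫⁻ p, μ (Prod.mk p ⁻¹' Bad) ∂μ = 0 := by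
    refine le_antisymm (ge_of_tendsto ht ?_) zero_le
    filter_upwards [self_mem_nhdsWithin] with ε hε
    exact key ε (ne_of_gt hε)
  rw [lintegral_eq_zero_iff hf] at h0
  filter_upwards [h0] with p hp
  exact measure_eq_zero_iff_ae_notMem.1 hp

theorem start (hHITG : S_HITG) (hREV : S_REV) (hCUT : S_CUT) (ν : Measure Br) (hν : IsBridge ν)
    (a c : ℂ) : ∀ᵐ p ∂grM ν a c, ∃ s > (0 : ℝ), closedBall a s ⊆ fill (range p.2) := by
  filter_upwards [((hHITG ν hν).1 univ isClosed_univ).2.1 a c,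
    (hREV.2 ν hν).2.2.2.2.2.1 a c] with p h1 h2
  obtain ⟨s, hs, h⟩ := h1 0 (by simp) (mem_univ _)
    (fun s hs => absurd hs (not_lt.2 unitInterval.nonneg')) 1 one_pos
  refine ⟨s, hs, ?_⟩
  rw [Enc, h2.2.1] at h
  refine h.trans (fmono ?_)
  exact inter_subset_left.trans (hCUT.2.2.1 _ _ _)

end NeckA

theorem p_NECK (hNKT : S_NKT) (hTOP : S_TOP) (hJMS : S_JMS) (hNKM : S_NKM) (hHOLD : S_HOLD) (hHITG : S_HITG) (hREV : S_REV) (hCUT : S_CUT) :
    S_NECK := by
  intro ν hν a c hac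
  have := hν.prob
  have hends := (hREV.2 ν hν).2.2.2.2.2.1 a c
  have main : ∀ n T : ℕ, ∀ᵐ p ∂grM ν a c, ∀ᵐ q ∂grM ν a c, (p, q) ∉
      {w : TP × TP | w.1.1 ≤ T ∧ w.2.1 ≤ T ∧
        ball a (1 / ((n : ℝ) + 1)) ∪ ball c (1 / ((n : ℝ) + 1)) ⊆ fill (range w.1.2) ∧
        ¬ JoinedIn (interior (fill (range w.1.2 ∪ range w.2.2))) a c} := by
    intro n T
    have hr : (0 : ℝ) < 1 / ((n : ℝ) + 1) := by positivity
    have hA : MeasurableSet {p : TP | p.1 ≤ T} := measurableSet_le measurable_fst measurable_const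
    refine NeckA.null_pairs (grM ν a c) {p | p.1 ≤ T} hA
      (hHOLD ν hν 1 T a c one_pos hac).1 _ ?_ (fun w hw => ⟨hw.1, hw.2.1⟩) ?_
    · have m1 : Measurable fun w : TP × TP => trB w.1.2 := by fun_prop
      have m2 : Measurable fun w : TP × TP => ((trB w.1.2 ⊔ trB w.2.2, a, c) : KC × ℂ × ℂ) := by
        fun_prop
      have e1 : MeasurableSet {w : TP × TP | w.1.1 ≤ T} := measurable_fst hA
      have e2 : MeasurableSet {w : TP × TP | w.2.1 ≤ T} := measurable_snd hA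
      have e3 : MeasurableSet {w : TP × TP |
          ball a (1 / ((n : ℝ) + 1)) ∪ ball c (1 / ((n : ℝ) + 1)) ⊆ fill (range w.1.2)} :=
        m1 (isClosed_covK _).measurableSet
      have e4 : MeasurableSet {w : TP × TP |
          ¬ JoinedIn (interior (fill (range w.1.2 ∪ range w.2.2))) a c} := by
        exact (m2 hJMS).compl
      exact e1.inter (e2.inter (e3.inter e4))
    · intro ε hε
      obtain ⟨η, δ, R, hη, hR, h1, h2, h3⟩ := hNKT ν hν a c _ T hac hr ε hε
      refine ⟨Slow δ η, R, (hNKM.2.2.2.1 δ η).measurableSet, hR, h2, h3, ?_⟩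
      filter_upwards [hends] with p hp hpG
      by_cases hpT : p.1 ≤ T
      · refine le_trans (measure_mono_ae ?_) (h1 p ⟨hp.1, hpT, hp.2.1, hp.2.2, hpG⟩)
        filter_upwards [hends] with q hq hw
        obtain ⟨hw, hqG⟩ := hw
        exact ⟨⟨hq.1, hw.2.1, hq.2.1, hq.2.2, hqG⟩, hTOP p.2 q.2 a c _ hp.2.1 hq.2.1 hp.2.2 hq.2.2
          hr (hw.2.2.1.trans (NeckA.fmono subset_union_left)) hw.2.2.2 η hη⟩
      · refine le_trans (le_of_eq (measure_mono_null (fun q hq => ?_) measure_empty)) zero_le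
        exact hpT hq.1.1
  have hc : ∀ᵐ p ∂grM ν a c, ∃ s > (0 : ℝ), closedBall c s ⊆ fill (range p.2) := by
    have h := NeckA.start hHITG hREV hCUT ν hν c a
    rw [← (hREV.2 ν hν).2.2.2.1 a c] at h
    have hm : Measurable fun p : TP => ((p.1, rev p.2) : TP) := by fun_prop
    filter_upwards [ae_of_ae_map hm.aemeasurable h] with p hp
    rwa [(hCUT.2.2.2.2.2.1 p.2).1] at hp
  filter_upwards [ae_all_iff.2 fun n => ae_all_iff.2 (main n), hc,
    NeckA.start hHITG hREV hCUT ν hν a c] with p hp ⟨s, hs, h1⟩ ⟨s', hs', h2⟩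
  obtain ⟨n, hn⟩ := exists_nat_one_div_lt (lt_min hs hs')
  filter_upwards [ae_all_iff.2 (hp n)] with q hq
  obtain ⟨T, hT⟩ := exists_nat_ge (max p.1 q.1)
  by_contra hj
  refine hq T ⟨(le_max_left _ _).trans hT, (le_max_right _ _).trans hT, union_subset ?_ ?_, hj⟩
  · exact ((ball_subset_ball (hn.le.trans (min_le_right _ _))).trans ball_subset_closedBall).trans h2
  · exact ((ball_subset_ball (hn.le.trans (min_le_left _ _))).trans ball_subset_closedBall).trans h1

end Pool.Agent.P.MP_d66c6d_pr
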