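import Pool.Agent.P.MP_d66c6d_pr.J.Iface2

/-! Step NETD of the carpet project. -/

namespace Pool.Agent.P.MP_d66c6d_pr

open MeasureTheory ProbabilityTheory Set Metric Filter Topology
open scoped ENNReal

namespace NetdA

lemma re_pos {a b : ℂ} (hb : b ≠ 0) (h : ‖a - b‖ ≤ ‖b‖ / 2) : 0 < (a / b).re := by
  have hb' : 0 < ‖b‖ := norm_pos_iff.2 hb
  have h1 : ‖a / b - 1‖ ≤ 1 / 2 := by
    rw [div_sub_one hb, norm_div, div_le_iff₀ hb']
    linarith
  have h2 := (Complex.abs_re_le_norm (a / b - 1)).trans h1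
  rw [Complex.sub_re, Complex.one_re] at h2
  linarith [(abs_le.1 h2).1]

lemma log_mul {x y : ℂ} (hx : 0 < x.re) (hy : 0 < y.re) :
    Complex.log (x * y) = Complex.log x + Complex.log y := by
  have hx0 : x ≠ 0 := fun h => by simp [h] at hx
  have hy0 : y ≠ 0 := fun h => by simp [h] at hy
  have h1 := abs_lt.1 (Complex.abs_arg_lt_pi_div_two_iff.2 (Or.inl hx))
  have h2 := abs_lt.1 (Complex.abs_arg_lt_pi_div_two_iff.2 (Or.inl hy))
  exact (Complex.log_mul_eq_add_log_iff hx0 hy0).2
    ⟨by linarith [h1.1, h2.1], by linarith [h1.2, h2.2]⟩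

end NetdA

theorem p_NETD :
    S_NETD := by
  intro E P F L r η hrη hFE hcov hLF hclose hcon
  have hne : ∀ p ∈ P, F p ≠ 0 := fun p hp => by
    rw [← hLF p hp]
    exact Complex.exp_ne_zero _
  have hre : ∀ p ∈ P, ∀ u ∈ ball p η, 0 < (F u / F p).re := fun p hp u hu =>
    NetdA.re_pos (hne p hp) (hclose p hp u hu)
  have hb : ∀ p w : ℂ, w ∈ ball p r → w ∈ ball p η := fun p w hw =>
    ball_subset_ball (by linarith [pos_of_mem_ball hw]) hw
  have key : ∀ p ∈ P, ∀ p' ∈ P, ∀ w, w ∈ ball p r → w ∈ ball p' r →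
      L p + Complex.log (F w / F p) = L p' + Complex.log (F w / F p') := by
    intro p hp p' hp' w hw hw'
    have hd : dist p p' < 2 * r := by
      have := dist_triangle_left p p' w
      rw [mem_ball] at hw hw'
      linarith
    have h6 : F w / F p = F p' / F p * (F w / F p') := by
      have := hne p hp
      have := hne p' hp'
      field_simp
    rw [h6, NetdA.log_mul (hre p hp p' (mem_ball'.2 (hd.trans_le hrη))) (hre p' hp' w (hb _ _ hw')),
      hcon p hp p' hp' hd, add_assoc]
  have hch : ∀ w ∈ E, ∃ p ∈ P, w ∈ ball p r := fun w hw => by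
    simpa only [mem_iUnion, exists_prop] using hcov hw
  choose! q hqP hq using hch
  refine ⟨fun w => L (q w) + Complex.log (F w / F (q w)), ?_, fun w hw => ?_⟩
  · refine continuousOn_of_locally_continuousOn fun w hw =>
      ⟨ball (q w) r, isOpen_ball, hq w hw, ?_⟩
    refine ((continuousOn_const (c := L (q w))).add (((hFE.mono inter_subset_left).div_const
      (F (q w))).clog fun u hu => Or.inl (hre _ (hqP w hw) u (hb _ _ hu.2)))).congr fun u hu => ?_
    exact key _ (hqP u hu.1) _ (hqP w hw) u (hq u hu.1) hu.2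
  · have h0 : F w / F (q w) ≠ 0 := fun h => by
      simpa [h] using hre _ (hqP w hw) w (hb _ _ (hq w hw))
    change Complex.exp (L (q w) + Complex.log (F w / F (q w))) = F w
    rw [Complex.exp_add, Complex.exp_log h0, hLF _ (hqP w hw), mul_div_cancel₀ _ (hne _ (hqP w hw))]

end Pool.Agent.P.MP_d66c6d_pr
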