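import Pool.Agent.P.MP_d66c6d_pr.J.Iface
import Pool.Agent.P.MP_d66c6d_pr.U.Iface

/-! Step NK1 of the carpet project. -/

namespace Pool.Agent.P.MP_d66c6d_pr

open MeasureTheory ProbabilityTheory Set Metric Filter Topology
open scoped ENNReal

namespace Nk1A

theorem box {F : ℝ → ℝ≥0∞} {m : ℝ≥0∞} {A B u δ : ℝ} (h1 : A ≤ u) (h2 : u + δ ≤ B)
    (h : ∀ a ∈ Ioo u (u + δ), m ≤ F a) : ENNReal.ofReal δ * m ≤ ∫⁻ a in Ioo A B, F a := by
  refine le_trans ?_ (lintegral_mono_set (Ioo_subset_Ioo h1 h2))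
  refine le_trans (le_of_eq ?_) (setLIntegral_mono' measurableSet_Ioo h)
  rw [setLIntegral_const, Real.volume_Ioo, add_sub_cancel_left, mul_comm]

theorem head (hEV : S_EV) {p : TP} {x : ℂ} {η δ T t1 a : ℝ} (hT : p.1 ≤ T) (h0 : 0 < t1)
    (ha : a ∈ Ioo t1 (t1 + δ)) (hat : a < p.1) (h1 : dist (ev p t1) x ≤ 4 * η)
    (h2 : ∀ u, 0 ≤ u → u < t1 → 4 * η < dist (ev p u) x) (h3 : dist (ev p a) x < 5 * η)
    (h4 : ∀ u, 0 ≤ u → u ≤ a → 2 * η < dist (ev p u) x) :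
    hd a p ∈ Hd x η δ T ∧ range (hd a p).2 ⊆ arm p.2 (closedBall x (2 * η)) := by
  have ha0 : 0 < a := h0.trans ha.1
  have ht : 0 < p.1 := ha0.trans hat
  obtain ⟨e1, -, e2, -⟩ := hEV.2.1 p a ha0 hat
  obtain ⟨-, e3, -, e4, -⟩ := hEV.1 (hd a p) ha0
  obtain ⟨-, -, -, e5, e6, -⟩ := hEV.1 p ht
  have ea : (hd a p).1 = a := rfl
  rw [ea] at e3 e4
  refine ⟨⟨hat.le.trans hT, ⟨?_, fun s hs => ?_⟩, ?_⟩, ?_⟩
  · rw [e2]
    exact ⟨ev p t1, ⟨t1, ⟨h0.le, ha.1.le⟩, rfl⟩, h1⟩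
  · rw [ea] at hs
    have h5 : 0 ≤ (s : ℝ) * a := mul_nonneg s.2.1 ha0.le
    rw [← e4, e1 _ ⟨h5, mul_le_of_le_one_left ha0.le s.2.2⟩, mem_closedBall, not_le]
    exact h2 _ h5 (by linarith [ha.2])
  · rw [← e3, e1 _ ⟨ha0.le, le_rfl⟩]
    exact h3
  · rw [e2]
    rintro _ ⟨u, hu, rfl⟩
    obtain ⟨s, hs, hs'⟩ := e6 u ⟨hu.1, hu.2.trans hat.le⟩
    refine ⟨s, fun s' h' => ?_, hs'⟩
    have h5 : (s' : ℝ) * p.1 ≤ (s : ℝ) * p.1 := mul_le_mul_of_nonneg_right h' ht.le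
    rw [← e5, mem_closedBall, not_le]
    exact h4 _ (mul_nonneg s'.2.1 ht.le) (by linarith [hu.2])

theorem tail (hEV : S_EV) {p : TP} {x : ℂ} {η T a a' : ℝ} (hη : 0 < η) (hT : p.1 ≤ T)
    (ha : 0 < a) (ha' : 0 < a') (hat : a + a' < p.1) (h1 : dist (ev p (a + a')) x < 13 * η)
    (h2 : ∀ u, a + a' ≤ u → u ≤ p.1 → 12 * η < dist (ev p u) x) :
    trev (tl a' (tl a p)) ∈ Tl x η T ∧
      range (trev (tl a' (tl a p))).2 ⊆ arm (rev p.2) (closedBall x (2 * η)) := by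
  have ht : 0 < p.1 := by linarith
  have ea : (tl a p).1 = p.1 - a := rfl
  have eb : (tl a' (tl a p)).1 = p.1 - a - a' := rfl
  obtain ⟨-, e1, -⟩ := hEV.2.1 p a ha (by linarith)
  obtain ⟨-, e2, -, e3, -⟩ := hEV.2.1 (tl a p) a' ha' (by rw [ea]; linarith)
  obtain ⟨e4, -, -, -, -, -, -, e5, -, e6⟩ := hEV.1 (tl a' (tl a p)) (by rw [eb]; linarith)
  obtain ⟨-, -, -, -, -, e7, -⟩ := hEV.1 p ht
  obtain ⟨-, -, -, e8, e9, -⟩ := hEV.1 (trev p) ht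
  have ec : (trev p).1 = p.1 := rfl
  have ed : (trev p).2 = rev p.2 := rfl
  rw [ec, ed] at e8 e9
  rw [ea] at e2 e3
  have hr : ∀ z ∈ range (trev (tl a' (tl a p))).2, ∃ w, a + a' ≤ w ∧ w ≤ p.1 ∧ ev p w = z := by
    rw [e5, e3]
    rintro _ ⟨u, hu, rfl⟩
    exact ⟨a + u, by linarith [hu.1], by linarith [hu.2],
      (e1 u ⟨by linarith [hu.1], hu.2⟩).symm⟩
  refine ⟨⟨?_, ?_, ?_⟩, fun z hz => ?_⟩
  · change p.1 - a - a' ≤ T
    linarith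
  · rw [e6, ← e4, e2 0 ⟨le_rfl, by linarith⟩, add_zero, e1 a' ⟨ha'.le, by linarith⟩]
    exact h1
  · rw [Set.disjoint_left]
    intro z hz
    obtain ⟨w, hw, hw', rfl⟩ := hr z hz
    rw [mem_closedBall, not_le]
    exact h2 w hw hw'
  · obtain ⟨w, hw, hw', rfl⟩ := hr z hz
    obtain ⟨s, hs, hs'⟩ := e9 (p.1 - w) ⟨by linarith, by linarith⟩
    refine ⟨s, fun s' h' => ?_, by rw [hs', e7, sub_sub_cancel]⟩
    have h5 : (s' : ℝ) * p.1 ≤ (s : ℝ) * p.1 := mul_le_mul_of_nonneg_right h' ht.le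
    have h6 : 0 ≤ (s' : ℝ) * p.1 := mul_nonneg s'.2.1 ht.le
    rw [← e8, e7, mem_closedBall, not_le]
    have := h2 (p.1 - s' * p.1) (by linarith) (by linarith)
    linarith

end Nk1A

theorem p_NK1 (hEV : S_EV) :
    S_NK1 := by
  intro x a c η δ T p Ψ m hη hδ hp ha hc hx hΨ
  obtain ⟨ht, hT, hpa, hpc, hS⟩ := hp
  obtain ⟨e0, e1, e2, -, e3, -⟩ := hEV.1 p ht
  have slow : ∀ u ∈ Icc 0 p.1, ∀ v ∈ Icc 0 p.1, |u - v| ≤ δ → dist (ev p u) (ev p v) < η := by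
    intro u hu v hv h
    obtain ⟨s, hs, hs'⟩ := e3 u hu
    obtain ⟨r, hr, hr'⟩ := e3 v hv
    rw [← hs', ← hr']
    refine hS s r ?_
    rwa [← hs, ← hr, ← sub_mul, abs_mul, abs_of_pos ht] at h
  have hd : Continuous fun u => dist (ev p u) x := (continuous_ev p).dist continuous_const
  rw [e2] at hx
  obtain ⟨_, ⟨t0, ht0, rfl⟩, h0⟩ := hx
  rw [mem_closedBall] at h0
  obtain ⟨t1, ⟨ht1, h1⟩, m1⟩ := (isCompact_Icc.inter_right (isClosed_le hd continuous_const) :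
    IsCompact (Icc 0 p.1 ∩ {u | dist (ev p u) x ≤ 4 * η})).exists_isLeast
      ⟨t0, ht0, by change dist _ _ ≤ _; linarith⟩
  obtain ⟨t2, ⟨ht2, h2⟩, m2⟩ := (isCompact_Icc.inter_right (isClosed_le hd continuous_const) :
    IsCompact (Icc 0 p.1 ∩ {u | dist (ev p u) x ≤ 12 * η})).exists_isGreatest
      ⟨t0, ht0, by change dist _ _ ≤ _; linarith⟩
  change dist (ev p t1) x ≤ 4 * η at h1
  change dist (ev p t2) x ≤ 12 * η at h2
  have d0 : 15 * η ≤ dist (ev p 0) x := by rwa [e0, hpa]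
  have d1 : 15 * η ≤ dist (ev p p.1) x := by rwa [e1, hpc]
  have p1 : 0 < t1 := lt_of_le_of_ne ht1.1 (by rintro rfl; linarith)
  have b1 : ∀ u, 0 ≤ u → u < t1 → 4 * η < dist (ev p u) x := fun u hu hu' => by
    by_contra h
    exact absurd (m1 ⟨⟨hu, hu'.le.trans ht1.2⟩, not_lt.1 h⟩) (not_le.2 hu')
  have q1 : dist (ev p t1) x = 4 * η := by
    obtain ⟨u, hu, hu'⟩ := intermediate_value_Icc' ht1.1 hd.continuousOn
      (show 4 * η ∈ Icc (dist (ev p t1) x) (dist (ev p 0) x) from ⟨h1, by linarith⟩)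
    have : u = t1 := le_antisymm hu.2 (m1 ⟨⟨hu.1, hu.2.trans ht1.2⟩, le_of_eq hu'⟩)
    rwa [this] at hu'
  have near : ∀ u ∈ Icc 0 p.1, ∀ v ∈ Icc 0 p.1, v ≤ u → u ≤ v + δ →
      dist (ev p u) x < dist (ev p v) x + η ∧ dist (ev p v) x < dist (ev p u) x + η := by
    intro u hu v hv h h'
    have h3 := slow u hu v hv (by rw [abs_of_nonneg (by linarith)]; linarith)
    have h4 := dist_triangle (ev p u) (ev p v) x
    have h5 := dist_triangle (ev p v) (ev p u) x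
    rw [dist_comm (ev p v) (ev p u)] at h5
    constructor <;> linarith
  have b2 : ∀ u, 0 ≤ u → u ≤ p.1 → u ≤ t1 + δ → 2 * η < dist (ev p u) x := by
    intro u hu hu' h
    rcases lt_or_ge u t1 with h3 | h3
    · linarith [b1 u hu h3]
    · linarith [(near u ⟨hu, hu'⟩ t1 ht1 h3 h).2]
  have b3 : t1 + δ < t0 := by
    by_contra h
    linarith [b2 t0 ht0.1 ht0.2 (not_lt.1 h)]
  have b4 : t0 ≤ t2 := m2 ⟨ht0, by change dist _ _ ≤ _; linarith⟩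
  have b5 : t2 + δ < p.1 := by
    by_contra h
    linarith [(near p.1 ⟨ht.le, le_rfl⟩ t2 ht2 ht2.2 (not_lt.1 h)).1]
  have b6 : ∀ u, t2 < u → u ≤ p.1 → 12 * η < dist (ev p u) x := fun u hu hu' => by
    by_contra h
    exact absurd (m2 ⟨⟨ht2.1.trans hu.le, hu'⟩, not_lt.1 h⟩) (not_le.2 hu)
  rw [sq, ENNReal.ofReal_mul hδ.le, mul_assoc]
  refine Nk1A.box p1.le (by linarith) fun s hs => ?_
  have hs1 := hs.1
  have hs2 := hs.2
  refine Nk1A.box (u := t2 - s) (by linarith) (by linarith) fun s' hs' => ?_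
  have hs3 := hs'.1
  have hs4 := hs'.2
  obtain ⟨A1, A2⟩ := Nk1A.head hEV (x := x) (η := η) hT p1 hs (by linarith) h1 b1
    (by linarith [(near s ⟨by linarith, by linarith⟩ t1 ht1 hs1.le hs2.le).1])
    (fun u hu hu' => b2 u hu (by linarith) (by linarith))
  obtain ⟨B1, B2⟩ := Nk1A.tail hEV (x := x) (a := s) (a' := s') hη hT (by linarith) (by linarith)
    (by linarith)
    (by linarith [(near (s + s') ⟨by linarith, by linarith⟩ t2 ht2 (by linarith) (by linarith)).1])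
    (fun u hu hu' => b6 u (by linarith) hu')
  exact hΨ _ A1 _ B1 A2 B2

end Pool.Agent.P.MP_d66c6d_pr
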