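import Pool.Agent.P.MP_d66c6d_pr.J.Iface
import Pool.Agent.P.MP_d66c6d_pr.U.Iface

/-! Step NK2 of the carpet project. -/

namespace Pool.Agent.P.MP_d66c6d_pr

open MeasureTheory ProbabilityTheory Set Metric Filter Topology
open scoped ENNReal

namespace Nk2A

variable {x : ℂ} {ρ δ a a' : ℝ} {p : TP}

theorem win (hEV : S_EV) (hp : 0 < p.1) (h : p ∈ Win x ρ δ) :
    (∃ u ∈ Icc 0 p.1, ev p u ∈ closedBall x ρ) ∧
      ∀ u ∈ Icc 0 p.1, u < p.1 - δ → ev p u ∉ closedBall x ρ := by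
  obtain ⟨-, -, h0, -, h2, -⟩ := hEV.1 p hp
  obtain ⟨⟨z, hz, hz'⟩, h3⟩ := h
  constructor
  · rw [h0] at hz
    obtain ⟨u, hu, rfl⟩ := hz
    exact ⟨u, hu, hz'⟩
  · intro u hu q
    obtain ⟨s, e, e'⟩ := h2 u hu
    exact e' ▸ h3 s (e.symm ▸ q)

/-- admissible cut times in real time -/
structure Ok (x : ℂ) (ρ δ : ℝ) (p : TP) (a b : ℝ) : Prop where
  a1 : ∃ u ∈ Icc 0 a, ev p u ∈ closedBall x ρ
  a2 : ∀ u ∈ Icc 0 a, u < a - δ → ev p u ∉ closedBall x ρ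
  b1 : ∃ w ∈ Icc b p.1, ev p w ∈ closedBall x ρ
  b2 : ∀ w ∈ Icc b p.1, b + δ < w → ev p w ∉ closedBall x ρ

theorem ok (hEV : S_EV) (ha : a ∈ Ioo 0 p.1) (ha' : a' ∈ Ioo 0 (p.1 - a))
    (h : ((pcs a a' p).1, trev (pcs a a' p).2.2) ∈ Win x ρ δ ×ˢ Win x ρ δ) :
    Ok x ρ δ p a (a + a') := by
  obtain ⟨h1, h2⟩ := h
  obtain ⟨e1, e2, -⟩ := hEV.2.1 p a ha.1 ha.2
  obtain ⟨-, e5, -⟩ := hEV.2.1 (tl a p) a' ha'.1 ha'.2
  have h0 : 0 < (tl a' (tl a p)).1 := sub_pos.2 ha'.2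
  have e7 : ∀ w ∈ Icc (a + a') p.1, ev (trev (tl a' (tl a p))) (p.1 - w) = ev p w := fun w hw => by
    have q1 := hw.1
    have q2 := hw.2
    have q3 := ha'.1
    rw [(hEV.1 _ h0).2.2.2.2.2.1, e5 _ ⟨by simp [tl]; linarith, by simp [tl]; linarith⟩,
      e2 _ ⟨by simp [tl]; linarith, by simp [tl]; linarith⟩]
    congr 1
    simp [tl]
    ring
  simp only [pcs] at h1 h2
  obtain ⟨h3, h4⟩ := win (p := hd a p) hEV ha.1 h1
  obtain ⟨h5, h6⟩ := win (p := trev (tl a' (tl a p))) hEV h0 h2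
  have t1 : (hd a p).1 = a := rfl
  have t2 : (trev (tl a' (tl a p))).1 = p.1 - a - a' := rfl
  rw [t1] at h3 h4
  rw [t2] at h5 h6
  refine ⟨?_, fun u hu q => e1 u hu ▸ h4 u hu q, ?_, fun w hw q => ?_⟩
  · obtain ⟨u, hu, q⟩ := h3
    exact ⟨u, hu, e1 u hu ▸ q⟩
  · obtain ⟨u, hu, q⟩ := h5
    have hw : p.1 - u ∈ Icc (a + a') p.1 := ⟨by linarith [hu.2], by linarith [hu.1]⟩
    exact ⟨_, hw, by rwa [← e7 _ hw, sub_sub_cancel]⟩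
  · rw [← e7 w hw]
    exact h6 _ ⟨by linarith [hw.2], by linarith [hw.1]⟩ (by linarith)

theorem Ok.left {a₁ a₂ b₁ b₂ : ℝ} (h1 : Ok x ρ δ p a₁ b₁) (h2 : Ok x ρ δ p a₂ b₂) (hδ : 0 < δ) :
    a₂ - a₁ ≤ δ := by
  by_contra! h
  obtain ⟨u, hu, q⟩ := h1.a1
  exact h2.a2 u ⟨hu.1, by linarith [hu.2]⟩ (by linarith [hu.2]) q

theorem Ok.right {b₁ b₂ : ℝ} (h1 : Ok x ρ δ p a b₁) (h2 : Ok x ρ δ p a b₂) (hδ : 0 < δ) :
    b₂ - b₁ ≤ δ := by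
  by_contra! h
  obtain ⟨w, hw, q⟩ := h2.b1
  exact h1.b2 w ⟨by linarith [hw.1], hw.2⟩ (by linarith [hw.1]) q

theorem bound {f : ℝ → ℝ≥0∞} {M : ℝ≥0∞} {x y : ℝ} (h1 : ∀ u ∈ Ioo x y, f u ≤ M)
    (h2 : ∀ u ∈ Ioo x y, ∀ v ∈ Ioo x y, f u ≠ 0 → f v ≠ 0 → v - u ≤ δ) :
    ∫⁻ u in Ioo x y, f u ≤ M * ENNReal.ofReal δ := by
  refine (setLIntegral_mono' (g := {u ∈ Ioo x y | f u ≠ 0}.indicator fun _ => M) measurableSet_Ioo
    fun u hu => ?_).trans ((lintegral_indicator_const_le _ _).trans (mul_le_mul_right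
      ((Measure.restrict_apply_le _ _).trans ((Real.volume_le_diam _).trans
        (ediam_le fun u hu v hv => ?_))) _))
  · by_cases h : f u = 0
    · simp [h]
    · rw [indicator_of_mem (show u ∈ {u ∈ Ioo x y | f u ≠ 0} from ⟨hu, h⟩)]
      exact h1 u hu
  · rw [edist_dist, Real.dist_eq]
    exact ENNReal.ofReal_le_ofReal (abs_sub_le_iff.2
      ⟨h2 v hv.1 u hu.1 hv.2 hu.2, h2 u hu.1 v hv.1 hu.2 hv.2⟩)

theorem ex_ok (hEV : S_EV) (ha : a ∈ Ioo 0 p.1)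
    (h : ∫⁻ a' in Ioo (0 : ℝ) (p.1 - a), (Win x ρ δ ×ˢ Win x ρ δ).indicator (1 : TP × TP → ℝ≥0∞)
      ((pcs a a' p).1, trev (pcs a a' p).2.2) ≠ 0) : ∃ b, Ok x ρ δ p a b := by
  by_contra! h'
  refine h ((setLIntegral_congr_fun measurableSet_Ioo fun a' ha' => ?_).trans lintegral_zero)
  exact indicator_of_notMem (fun h1 => h' _ (ok hEV ha ha' h1)) _

end Nk2A

open Nk2A in
theorem p_NK2 (hEV : S_EV) :
    S_NK2 := by
  intro x ρ δ p hδ hp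
  unfold mk2
  constructor
  · rw [sq, ENNReal.ofReal_mul hδ.le]
    refine bound (fun a ha => ?_) fun u hu v hv h1 h2 => ?_
    · refine (bound (M := 1) (fun u _ => ?_) fun u hu v hv h1 h2 => ?_).trans (one_mul _).le
      · exact indicator_apply_le' (fun _ => le_rfl) fun _ => zero_le
      have := (ok hEV ha hu (mem_of_indicator_ne_zero h1)).right
        (ok hEV ha hv (mem_of_indicator_ne_zero h2)) hδ
      linarith
    · obtain ⟨_, q1⟩ := ex_ok hEV hu h1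
      obtain ⟨_, q2⟩ := ex_ok hEV hv h2
      exact q1.left q2 hδ
  · intro h
    refine (setLIntegral_congr_fun measurableSet_Ioo fun a ha => ?_).trans lintegral_zero
    by_contra h1
    obtain ⟨b, q⟩ := ex_ok hEV ha h1
    obtain ⟨u, hu, q1⟩ := q.a1
    rw [(hEV.1 p hp).2.2.1] at h
    exact disjoint_left.1 h ⟨u, ⟨hu.1, hu.2.trans ha.2.le⟩, rfl⟩ q1

end Pool.Agent.P.MP_d66c6d_pr
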