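import Pool.Agent.P.MP_d66c6d_pr.J.Iface
import Pool.Agent.P.MP_d66c6d_pr.U.Iface
import Pool.Agent.P.MP_d66c6d_pr.B.Iface

/-! Step NKA of the carpet project. -/

namespace Pool.Agent.P.MP_d66c6d_pr

open MeasureTheory ProbabilityTheory Set Metric Filter Topology
open scoped ENNReal

theorem p_NKA (hMARKR : S_MARKR) (hMB : S_MB) (hREV : S_REV) (hNKM : S_NKM) :
    S_NKA := by
  intro ν hν k hk T
  obtain ⟨C, hC⟩ := (hMB ν hν).2.1 k hk T
  refine ⟨C, fun η hη x y Ψ hΨ h0 => ?_⟩
  have := hν.gauss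
  obtain ⟨-, -, -, r4, -, r6, -⟩ := hREV.2 ν hν
  have hc : ENNReal.ofReal (C * η ^ (-(2 * k))) ≠ ∞ := ENNReal.ofReal_ne_top
  have hC' := hC η hη
  generalize ENNReal.ofReal (C * η ^ (-(2 * k))) = c at *
  have mT : MeasurableSet {p : TP | p.1 ≤ T} := measurableSet_le measurable_fst measurable_const
  have mr : Measurable (trev : TP → TP) := Measurable.trev' measurable_id
  let Φ : TP × TP × TP → ℝ≥0∞ := fun q =>
    {p : TP | p.1 ≤ T}.indicator 1 q.2.1 * Ψ (q.1, trev q.2.2)
  have mΦ : Measurable Φ := ((measurable_one.indicator mT).comp measurable_snd.fst).mul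
    (hΨ.comp (measurable_fst.prodMk (mr.comp measurable_snd.snd)))
  calc _ ≤ ∫⁻ p, ∫⁻ a in Ioo (0 : ℝ) p.1, ∫⁻ a' in Ioo (0 : ℝ) (p.1 - a), Φ (pcs a a' p)
          ∂volume ∂volume ∂grM ν x y := by
        rw [← lintegral_indicator mT]
        refine lintegral_mono fun p => ?_
        by_cases hp : p ∈ {p : TP | p.1 ≤ T}
        · rw [indicator_of_mem hp]
          refine setLIntegral_mono' measurableSet_Ioo fun a ha =>
            setLIntegral_mono' measurableSet_Ioo fun a' ha' => ?_
          have h1 : (pcs a a' p).2.1 ∈ {p : TP | p.1 ≤ T} := by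
            have h2 : p.1 ≤ T := hp
            change a' ≤ T
            linarith [ha.1, ha'.2]
          simp only [Φ, indicator_of_mem h1, Pi.one_apply, one_mul, le_refl]
        · rw [indicator_of_notMem hp]
          exact zero_le
    _ = _ := (hMARKR ν hν x y).2.2 Φ mΦ
    _ ≤ ∫⁻ z, ∫⁻ α, c * ∫⁻ ω, Ψ (α, ω) ∂GS ν y ∂grM ν x z := by
        refine lintegral_mono fun z => lintegral_mono_ae ((r6 x z).mono fun α hα => ?_)
        have mα : Measurable fun ω => Ψ (α, ω) := hΨ.comp measurable_prodMk_left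
        rw [lintegral_GS ν y mα, ← lintegral_const_mul' _ _ hc]
        refine lintegral_mono fun z' => ?_
        have e : ∫⁻ ω, Ψ (α, trev ω) ∂grM ν z' y = ∫⁻ ω, Ψ (α, ω) ∂grM ν y z' := by
          rw [← r4 z' y]
          exact (lintegral_map mα mr).symm
        have e2 : ∀ β, ∫⁻ ω, Φ (α, β, ω) ∂grM ν z' y =
            {p : TP | p.1 ≤ T}.indicator 1 β * ∫⁻ ω, Ψ (α, ω) ∂grM ν y z' := fun β => by
          rw [← e]
          exact lintegral_const_mul ({p : TP | p.1 ≤ T}.indicator 1 β)
            (f := fun ω => Ψ (α, trev ω)) (mα.comp mr)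
        simp only [e2]
        rw [lintegral_mul_const _ (measurable_one.indicator mT), lintegral_indicator_one mT]
        by_cases hz : η ≤ dist z z'
        · exact mul_le_mul_left (hC' z z' hz) _
        · have e3 : ∫⁻ ω, Ψ (α, ω) ∂grM ν y z' = 0 := by
            refine (lintegral_congr_ae ((r6 y z').mono fun ω hω => ?_)).trans lintegral_zero
            by_contra h
            exact hz (hα.2.2 ▸ hω.2.2 ▸ h0 α ω h)
          simp [e3]
    _ = _ := by
        rw [lintegral_GS ν x (Φ := fun α => ∫⁻ ω, Ψ (α, ω) ∂GS ν y) hΨ.lintegral_prod_right',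
          ← lintegral_const_mul' _ _ hc]
        exact lintegral_congr fun z => lintegral_const_mul' _ _ hc

end Pool.Agent.P.MP_d66c6d_pr
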