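import Pool.Agent.P.MP_d66c6d_pr.J.Iface
import Pool.Agent.P.MP_d66c6d_pr.U.Iface
import Pool.Agent.P.MP_d66c6d_pr.B.Iface

/-! Step NKB of the carpet project. -/

namespace Pool.Agent.P.MP_d66c6d_pr

open MeasureTheory ProbabilityTheory Set Metric Filter Topology
open scoped ENNReal

namespace NkbA

theorem meas_inner (t : ℝ) {G : ℝ × ℝ → ℝ≥0∞} (hG : Measurable G) :
    Measurable fun a => ∫⁻ a' in Ioo 0 (t - a), G (a, a') := by
  have h : ∀ a, ∫⁻ a' in Ioo 0 (t - a), G (a, a') =
      ∫⁻ a', ({q : ℝ × ℝ | 0 < q.2 ∧ q.2 < t - q.1}.indicator G) (a, a') := fun a => by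
    rw [← lintegral_indicator measurableSet_Ioo]
    rfl
  simp_rw [h]
  exact (hG.indicator ((measurableSet_lt measurable_const measurable_snd).inter
    (measurableSet_lt measurable_snd (measurable_const.sub measurable_fst)))).lintegral_prod_right'

theorem mk2_mul (C : ℝ≥0∞) {W : TP × TP → ℝ≥0∞} (hW : Measurable W) (p : TP) :
    mk2 (fun q => C * W q) p = C * mk2 W p := by
  have h : Measurable fun q : ℝ × ℝ => W ((pcs q.1 q.2 p).1, trev (pcs q.1 q.2 p).2.2) := by
    have h0 : Measurable fun q : ℝ × ℝ => pcs q.1 q.2 p :=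
      Measurable.pcs' measurable_fst measurable_snd measurable_const
    exact hW.comp (h0.fst.prodMk (Measurable.trev' h0.snd.snd))
  rw [mk2, mk2, ← lintegral_const_mul C (meas_inner p.1 h)]
  refine lintegral_congr fun a => ?_
  exact lintegral_const_mul C (h.comp (measurable_const.prodMk measurable_id))

theorem range_pcs (hEV : S_EV) {p : TP} {a a' : ℝ} (hp : 0 < p.1) (ha : a ∈ Ioo 0 p.1)
    (ha' : a' ∈ Ioo 0 (p.1 - a)) :
    range p.2 ⊆ range (pcs a a' p).1.2 ∪ range (pcs a a' p).2.1.2 ∪ range (pcs a a' p).2.2.2 := by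
  have key : ∀ (q : TP) (u : ℝ), 0 < q.1 → u ∈ Ioo 0 q.1 →
      range q.2 = range (hd u q).2 ∪ range (tl u q).2 := fun q u hq hu => by
    obtain ⟨-, -, h1, h2, -⟩ := hEV.2.1 q u hu.1 hu.2
    rw [h1, h2, (hEV.1 q hq).2.2.1, ← image_union, Icc_union_Icc_eq_Icc hu.1.le hu.2.le]
  rw [key p a hp ha, key (tl a p) a' (sub_pos.2 ha.2) ha', union_assoc]
  exact subset_rfl

end NkbA

theorem p_NKB (hMARKR : S_MARKR) (hMB : S_MB) (hNK2 : S_NK2) (hNKM : S_NKM) (hREV : S_REV) (hEV : S_EV) :
    S_NKB := by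
  intro ν hν
  have := hν.prob
  obtain ⟨κ, hκ, hmb⟩ := (hMB ν hν).1
  refine ⟨κ, hκ, fun x a c η δ T hη hη1 hδ => ?_⟩
  obtain ⟨-, -, -, hrev, -, hends, -⟩ := hREV.2 ν hν
  set H := Hd x η δ T with hH
  have mH : MeasurableSet H := hNKM.2.1 x η δ T
  set M : Set TP := {p | p.1 ≤ η ^ 2 ∧ range p.2 ⊆ ball x (10 * η)} with hM
  have mM : MeasurableSet M := (measurableSet_le measurable_fst measurable_const).inter
    ((Measurable.trB' measurable_snd) (isOpen_inK isOpen_ball).measurableSet)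
  set φ : Set ℂ → ℝ≥0∞ := fun Z => phi ν c T x η Z ^ 2 with hφ
  have mφ : Measurable fun K : KC => φ K := (hNKM.2.2.2.2.2.2 ν hν c x T η).1.pow_const 2
  have aφ : ∀ {Z Z' : Set ℂ}, Z ⊆ Z' → φ Z' ≤ φ Z := fun h =>
    pow_le_pow_left' (phi_anti ν c T x η h) 2
  have m1 : Measurable (H.indicator (1 : TP → ℝ≥0∞)) := measurable_one.indicator mH
  set Ψ : TP × TP × TP → ℝ≥0∞ := fun q => H.indicator 1 q.1 * (M.indicator 1 q.2.1 *
    (H.indicator 1 (trev q.2.2) * φ (range q.1.2 ∪ range q.2.1.2 ∪ range q.2.2.2))) with hΨ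
  have mΨ : Measurable Ψ := (m1.comp measurable_fst).mul
    (((measurable_one.indicator mM).comp measurable_snd.fst).mul
      ((m1.comp (Measurable.trev' measurable_snd.snd)).mul
        (mφ.comp (Measurable.supKC (Measurable.supKC (Measurable.trB' measurable_fst.snd)
          (Measurable.trB' measurable_snd.fst.snd)) (Measurable.trB' measurable_snd.snd.snd)))))
  set F : TP × TP → ℝ≥0∞ := fun q => H.indicator 1 q.1 * (H.indicator 1 q.2 *
    φ (closedBall x (12 * η) ∪ range q.1.2 ∪ range q.2.2)) with hF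
  have mF : Measurable F := (m1.comp measurable_fst).mul ((m1.comp measurable_snd).mul
    (mφ.comp (Measurable.supKC (Measurable.supKC
      (measurable_const (a := (⟨⟨closedBall x (12 * η), isCompact_closedBall _ _⟩,
        nonempty_closedBall.2 (by positivity)⟩ : KC)))
      (Measurable.trB' measurable_fst.snd)) (Measurable.trB' measurable_snd.snd))))
  have mFa : ∀ α, Measurable fun A' => F (α, A') := fun α =>
    mF.comp (measurable_const.prodMk measurable_id)
  have e1 : ∫⁻ A in H, ∫⁻ A' in H,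
      φ (closedBall x (12 * η) ∪ range A.2 ∪ range A'.2) ∂GS ν a ∂GS ν a =
      ∫⁻ z, ∫⁻ α, ∫⁻ z', ∫⁻ ω, F (α, trev ω) ∂grM ν z' a ∂volume ∂grM ν a z := by
    have e2 : ∀ α, ∫⁻ z', ∫⁻ ω, F (α, trev ω) ∂grM ν z' a = ∫⁻ A', F (α, A') ∂GS ν a :=
      fun α => by
        rw [lintegral_GS ν a (mFa α)]
        refine lintegral_congr fun z' => ?_
        rw [← hrev z' a]
        exact (lintegral_map (mFa α) (Measurable.trev' measurable_id)).symm
    simp_rw [e2]
    rw [← lintegral_GS ν a mF.lintegral_prod_right', ← lintegral_indicator mH]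
    refine lintegral_congr fun α => ?_
    by_cases hα : α ∈ H
    · rw [indicator_of_mem hα, ← lintegral_indicator mH]
      refine lintegral_congr fun β => ?_
      by_cases hβ : β ∈ H <;> simp [hF, hα, hβ]
    · simp [hF, hα]
  refine (mul_le_mul_right e1.le κ).trans (le_trans ?_
    (((hMARKR ν hν a a).2.2 Ψ mΨ).symm.le.trans ?_))
  · refine (lintegral_const_mul_le _ _).trans (lintegral_mono fun z => ?_)
    refine (lintegral_const_mul_le _ _).trans (lintegral_mono_ae ?_)
    filter_upwards [hends a z] with α hα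
    refine (lintegral_const_mul_le _ _).trans (lintegral_mono fun z' => ?_)
    by_cases hαH : α ∈ H
    swap
    · simp [hF, hαH]
    by_cases hz' : z' ∈ ball x (5 * η)
    swap
    · have h0 : ∫⁻ ω, F (α, trev ω) ∂grM ν z' a = 0 := by
        refine (lintegral_congr_ae ?_).trans lintegral_zero
        filter_upwards [hends z' a] with ω hω
        have : trev ω ∉ H := fun h => hz' (by
          have h1 := h.2.2
          rwa [(hEV.1 ω hω.1).2.2.2.2.2.2.2.2.2, hω.2.1] at h1)
        simp [hF, this]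
      simp [h0]
    refine (mul_le_mul_left (hmb x η hη z (hα.2.2 ▸ hαH.2.2) z' hz') _).trans ?_
    rw [mul_comm, ← setLIntegral_const, ← lintegral_indicator mM]
    refine lintegral_mono fun β => ?_
    by_cases hβ : β ∈ M
    swap
    · rw [indicator_of_notMem hβ]
      exact zero_le
    rw [indicator_of_mem hβ]
    refine lintegral_mono_ae ?_
    filter_upwards [hends z' a] with ω hω
    simp only [hF, hΨ, indicator_of_mem hβ, Pi.one_apply, one_mul]
    refine mul_le_mul_right (mul_le_mul_right (aφ ?_) _) _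
    rw [(hEV.1 ω hω.1).2.2.2.2.2.2.2.1]
    refine union_subset_union_left _ (union_subset subset_union_right
      (subset_union_of_subset_left (hβ.2.trans (ball_subset_closedBall.trans
        (closedBall_subset_closedBall (by linarith)))) _))
  · rw [← lintegral_const_mul' _ _ ENNReal.ofReal_ne_top]
    refine le_trans (lintegral_mono_ae ?_) (lintegral_indicator_le _ _)
    filter_upwards [hends a a] with p hp
    have mW : Measurable ((Win x (4 * η) δ ×ˢ Win x (4 * η) δ).indicator
        (1 : TP × TP → ℝ≥0∞)) := measurable_one.indicator ((hNKM.1 _ _ _).prod (hNKM.1 _ _ _))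
    obtain ⟨n1, n2⟩ := hNK2 x (4 * η) δ p hδ hp.1
    have key : ∫⁻ u in Ioo (0 : ℝ) p.1, ∫⁻ u' in Ioo (0 : ℝ) (p.1 - u), Ψ (pcs u u' p) ≤
        {K : TP | K.1 ≤ 2 * T + 1}.indicator (fun K => φ (range K.2)) p *
          mk2 ((Win x (4 * η) δ ×ˢ Win x (4 * η) δ).indicator 1) p := by
      rw [← NkbA.mk2_mul _ mW]
      refine setLIntegral_mono' measurableSet_Ioo fun u hu =>
        setLIntegral_mono' measurableSet_Ioo fun u' hu' => ?_
      by_cases h1 : (pcs u u' p).1 ∈ H
      swap
      · simp [hΨ, h1]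
      by_cases h2 : (pcs u u' p).2.1 ∈ M
      swap
      · simp [hΨ, h2]
      by_cases h3 : trev (pcs u u' p).2.2 ∈ H
      swap
      · simp [hΨ, h3]
      have h4 : p ∈ {K : TP | K.1 ≤ 2 * T + 1} := by
        have k1 : u ≤ T := h1.1
        have k2 : u' ≤ η ^ 2 := h2.1
        have k3 : p.1 - u - u' ≤ T := h3.1
        have k4 : η ^ 2 ≤ 1 := pow_le_one₀ hη.le hη1
        change p.1 ≤ 2 * T + 1
        linarith
      have h5 : ((pcs u u' p).1, trev (pcs u u' p).2.2) ∈ Win x (4 * η) δ ×ˢ Win x (4 * η) δ :=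
        ⟨h1.2.1, h3.2.1⟩
      simp only [hΨ, indicator_of_mem h1, indicator_of_mem h2, indicator_of_mem h3,
        indicator_of_mem h4, indicator_of_mem h5, Pi.one_apply, one_mul, mul_one]
      exact aφ (NkbA.range_pcs hEV hp.1 hu hu')
    refine key.trans ?_
    by_cases h1 : p.1 ≤ 2 * T + 1
    swap
    · rw [indicator_of_notMem (s := {K : TP | K.1 ≤ 2 * T + 1}) h1, zero_mul]
      exact zero_le
    by_cases h2 : (range p.2 ∩ closedBall x (4 * η)).Nonempty
    swap
    · rw [n2 (Set.disjoint_iff_inter_eq_empty.2 (not_nonempty_iff_eq_empty.1 h2)), mul_zero]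
      exact zero_le
    rw [indicator_of_mem (s := {K : TP | K.1 ≤ 2 * T + 1}) h1, indicator_of_mem
      (s := {K : TP | K.1 ≤ 2 * T + 1 ∧ (range K.2 ∩ closedBall x (4 * η)).Nonempty}) ⟨h1, h2⟩,
      mul_comm]
    exact mul_le_mul_left n1 _

end Pool.Agent.P.MP_d66c6d_pr
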