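import Pool.Agent.P.MP_d66c6d_pr.J.Iface
import Pool.Agent.P.MP_d66c6d_pr.B.Iface

/-! Step NKM of the carpet project. -/

namespace Pool.Agent.P.MP_d66c6d_pr

open MeasureTheory ProbabilityTheory Set Metric Filter Topology
open scoped ENNReal

namespace NkmA

theorem clEx {X : Type*} [TopologicalSpace X] {P : unitInterval → X → Prop}
    (h : IsClosed {q : unitInterval × X | P q.1 q.2}) : IsClosed {x | ∃ s, P s x} := by
  have := isClosedMap_snd_of_compactSpace _ h
  rwa [show Prod.snd '' {q : unitInterval × X | P q.1 q.2} = {x | ∃ s, P s x} by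
    ext x; simp] at this

theorem cl_hit {B : Set ℂ} (hB : IsClosed B) : IsClosed {p : TP | (range p.2 ∩ B).Nonempty} := by
  have := clEx (P := fun s (p : TP) => p.2 s ∈ B) (hB.preimage (by fun_prop))
  simpa [Set.Nonempty]

theorem ms_dj {B : Set ℂ} (hB : IsClosed B) :
    MeasurableSet {p : TP | Disjoint (range p.2) B} := by
  have := (cl_hit hB).measurableSet.compl
  simpa only [compl_ofPred, ← not_disjoint_iff_nonempty_inter, not_not] using this

theorem meas_Ioo {α : Type*} [MeasurableSpace α] {f : α × ℝ → ℝ≥0∞} (hf : Measurable f)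
    {t : α → ℝ} (ht : Measurable t) : Measurable fun x => ∫⁻ a in Ioo 0 (t x), f (x, a) := by
  simp only [← lintegral_indicator measurableSet_Ioo]
  exact Measurable.lintegral_prod_right' (f := {q : α × ℝ | 0 < q.2 ∧ q.2 < t q.1}.indicator f)
    (hf.indicator ((measurableSet_lt measurable_const measurable_snd).inter
      (measurableSet_lt measurable_snd (ht.comp measurable_fst))))

theorem ms_win (x : ℂ) (ρ δ : ℝ) : MeasurableSet (Win x ρ δ) := by
  refine (cl_hit isClosed_closedBall).measurableSet.inter ?_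
  have h : ∀ n : ℕ, IsClosed {p : TP | ∃ s : unitInterval,
      (s : ℝ) * p.1 + 1 / ((n : ℝ) + 1) ≤ p.1 - δ ∧ p.2 s ∈ closedBall x ρ} := fun n =>
    clEx (IsClosed.and (isClosed_le (by fun_prop) (by fun_prop))
      (isClosed_closedBall.preimage (f := fun q : unitInterval × TP => q.2.2 q.1) (by fun_prop)))
  have h2 := (MeasurableSet.iUnion fun n => (h n).measurableSet).compl
  refine (congrArg MeasurableSet (Set.ext fun p => ?_)).mp h2
  simp only [mem_compl_iff, mem_iUnion, not_exists]
  refine ⟨fun H s hs hm => ?_, fun H n ⟨s, hs, hm⟩ => H s ?_ hm⟩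
  · obtain ⟨n, hn⟩ := exists_nat_one_div_lt (sub_pos.2 hs)
    exact H n ⟨s, by linarith, hm⟩
  · have : (0 : ℝ) < 1 / ((n : ℝ) + 1) := by positivity
    linarith

theorem op_slow (δ η : ℝ) : IsOpen (Slow δ η) := by
  have h1 : IsClosed {q : unitInterval × TP | ∃ s' : unitInterval,
      |(q.1 : ℝ) - s'| * q.2.1 ≤ δ ∧ η ≤ dist (q.2.2 q.1) (q.2.2 s')} :=
    clEx (IsClosed.and (isClosed_le (by fun_prop) continuous_const)
      (isClosed_le continuous_const (by fun_prop)))
  have h2 := (clEx (P := fun s (p : TP) => ∃ s' : unitInterval,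
    |(s : ℝ) - s'| * p.1 ≤ δ ∧ η ≤ dist (p.2 s) (p.2 s')) h1).isOpen_compl
  simp only [compl_ofPred, not_exists, not_and, not_le] at h2
  exact h2

theorem op_dj : IsOpen {q : TP × KC | Disjoint (range q.1.2) (q.2 : Set ℂ)} := by
  have h : Continuous fun q : TP × KC => (trB q.1.2, q.2) :=
    (continuous_trB.comp continuous_fst.snd).prodMk continuous_snd
  have := (isClosed_meetK.preimage h).isOpen_compl
  refine (congrArg IsOpen (Set.ext fun q => ?_)).mp this
  exact not_nonempty_iff_eq_empty.trans Set.disjoint_iff_inter_eq_empty.symm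

end NkmA

open NkmA in
theorem p_NKM (hREV : S_REV) :
    S_NKM := by
  have e : Measurable fun p : TP => p.2 1 := by fun_prop
  have hT : ∀ T : ℝ, MeasurableSet {p : TP | p.1 ≤ T} := fun T =>
    measurableSet_le measurable_fst measurable_const
  refine ⟨ms_win, fun x η δ T => (hT T).inter ((ms_win _ _ _).inter (e measurableSet_ball)),
    fun x η T => (hT T).inter ((e measurableSet_ball).inter (ms_dj isClosed_closedBall)),
    op_slow, op_dj, fun Ψ hΨ => ?_, fun ν hν c x T η => ⟨?_, fun Z hZ => ?_⟩⟩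
  · refine meas_Ioo (f := fun q : TP × ℝ => ∫⁻ a' in Ioo 0 (q.1.1 - q.2),
      Ψ ((pcs q.2 a' q.1).1, trev (pcs q.2 a' q.1).2.2)) ?_ measurable_fst
    have h : Measurable fun q : (TP × ℝ) × ℝ => pcs q.1.2 q.2 q.1.1 := by fun_prop
    exact meas_Ioo (f := fun q : (TP × ℝ) × ℝ =>
      Ψ ((pcs q.1.2 q.2 q.1.1).1, trev (pcs q.1.2 q.2 q.1.1).2.2))
      (hΨ.comp (h.fst.prodMk (Measurable.trev' h.snd.snd))) (by fun_prop)
  · have := hν.prob
    have hS : MeasurableSet {q : TP × KC | q.1.1 ≤ T ∧ Disjoint (range q.1.2) (q.2 : Set ℂ)} :=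
      (measurable_fst (hT T)).inter op_dj.measurableSet
    have h := measurable_grM ν (α := KC × ℂ) (x := fun _ => c) (y := fun a => a.2)
      (Φ := fun a p => {q : TP × KC | q.1.1 ≤ T ∧
        Disjoint (range q.1.2) (q.2 : Set ℂ)}.indicator 1 (p, a.1))
      measurable_const measurable_snd
      ((measurable_one.indicator hS).comp (measurable_snd.prodMk measurable_fst.fst))
    refine (congrArg Measurable (funext fun K => ?_)).mp
      (h.lintegral_prod_right' (ν := volume.restrict (ball x (13 * η))))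
    refine lintegral_congr fun z => ?_
    exact lintegral_indicator_one ((hT T).inter (ms_dj K.isCompact.isClosed))
  · have := hν.prob
    have hS : MeasurableSet {p : TP | p.1 ≤ T ∧ p.2 1 ∈ ball x (13 * η) ∧
        Disjoint (range p.2) Z} := (hT T).inter ((e measurableSet_ball).inter (ms_dj hZ))
    rw [← lintegral_indicator_one hS, lintegral_GS ν c (measurable_one.indicator hS), phi,
      ← lintegral_indicator measurableSet_ball]
    refine lintegral_congr fun z => ?_
    rw [lintegral_indicator_one hS]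
    have ha := (hREV.2 ν hν).2.2.2.2.2.1 c z
    by_cases hz : z ∈ ball x (13 * η)
    · rw [indicator_of_mem hz]
      refine measure_congr (ha.mono fun p hp => ?_)
      exact propext ⟨fun h => ⟨h.1, h.2.2⟩, fun h => ⟨h.1, hp.2.2.symm ▸ hz, h.2⟩⟩
    · rw [indicator_of_notMem hz]
      exact measure_eq_zero_iff_ae_notMem.2 (ha.mono fun p h hp => hz (h.2.2 ▸ hp.2.1))

end Pool.Agent.P.MP_d66c6d_pr
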