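import Pool.Agent.P.MP_d66c6d_pr.J.Iface
import Pool.Agent.P.MP_d66c6d_pr.B.Iface

/-! Step NKS of the carpet project. -/

namespace Pool.Agent.P.MP_d66c6d_pr

open MeasureTheory ProbabilityTheory Set Metric Filter Topology
open scoped ENNReal

namespace NksA

theorem range_rev (γ : Br) : range (rev γ) = range γ := by
  refine Subset.antisymm (range_subset_iff.2 fun s => mem_range_self _)
    (range_subset_iff.2 fun s => ⟨unitInterval.symm s, ?_⟩)
  change γ (projIcc 0 1 zero_le_one (1 + ((unitInterval.symm s : unitInterval) : ℝ) * (0 - 1))) = _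
  rw [unitInterval.coe_symm_eq, show (1 : ℝ) + (1 - s) * (0 - 1) = s by ring, projIcc_val]

theorem coord (ε : ℝ) (w : ℂ) (c : ℤ × ℤ) :
    |w.re - ε * c.1| ≤ dist w (gp ε c) ∧ |w.im - ε * c.2| ≤ dist w (gp ε c) := by
  have a := Complex.abs_re_le_norm (w - gp ε c)
  have b := Complex.abs_im_le_norm (w - gp ε c)
  rw [dist_eq_norm]
  simpa [gp] using And.intro a b

theorem count {ε : ℝ} (hε : 0 < ε) (w : ℂ) :
    ∑' c : ℤ × ℤ, (ball (gp ε c) (13 * ε)).indicator (1 : ℂ → ℝ≥0∞) w ≤ 729 := by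
  have key : ∀ (x : ℝ) (k : ℤ), |x - ε * k| < 13 * ε →
      k ∈ Finset.Icc (⌊x / ε⌋ - 13) (⌊x / ε⌋ + 13) := fun x k h => by
    have h1 := abs_lt.1 h
    have h2 := Int.floor_le (x / ε)
    have h3 := Int.lt_floor_add_one (x / ε)
    have h4 : x / ε - 13 < k := by
      rw [sub_lt_iff_lt_add, div_lt_iff₀ hε]
      linarith
    have h5 : (k : ℝ) < x / ε + 13 := by
      rw [← sub_lt_iff_lt_add, lt_div_iff₀ hε]
      linarith
    have h6 : ((⌊x / ε⌋ - 13 : ℤ) : ℝ) < k := by push_cast; linarith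
    have h7 : (k : ℝ) < (⌊x / ε⌋ + 14 : ℤ) := by push_cast; linarith
    have h6' := Int.cast_lt.1 h6
    have h7' := Int.cast_lt.1 h7
    rw [Finset.mem_Icc]
    omega
  have hz : ∀ c ∉ Finset.Icc (⌊w.re / ε⌋ - 13) (⌊w.re / ε⌋ + 13) ×ˢ
      Finset.Icc (⌊w.im / ε⌋ - 13) (⌊w.im / ε⌋ + 13),
      (ball (gp ε c) (13 * ε)).indicator (1 : ℂ → ℝ≥0∞) w = 0 := fun c hc => by
    refine indicator_of_notMem (s := ball (gp ε c) (13 * ε)) (fun h => hc ?_) _
    exact Finset.mem_product.2 ⟨key _ _ ((coord ε w c).1.trans_lt h),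
      key _ _ ((coord ε w c).2.trans_lt h)⟩
  rw [tsum_eq_sum hz]
  refine (Finset.sum_le_card_nsmul _ _ 1 fun c _ => indicator_le_self' (fun _ _ => zero_le) w).trans
    ?_
  rw [Finset.card_product, Int.card_Icc, Int.card_Icc,
    show ∀ a : ℤ, a + 13 + 1 - (a - 13) = 27 from fun a => by ring,
    show ∀ a : ℤ, a + 13 + 1 - (a - 13) = 27 from fun a => by ring, nsmul_one]
  exact le_of_eq (by norm_num [show Int.toNat 27 = 27 from rfl])

theorem main {η : ℝ} (hη : 0 < η) {g : ℂ → ℝ≥0∞} (hg : Measurable g) {N : Set ℂ}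
    (hN : MeasurableSet N) (S : Set (ℤ × ℤ)) (b : ℝ≥0∞)
    (h : ∀ i ∈ S, ∀ z ∈ ball (gp η i) (13 * η), z ∈ N ∧ g z ≤ b) :
    ∑' i, S.indicator (fun i => (∫⁻ z in ball (gp η i) (13 * η), g z) ^ 2) i ≤
      b * ENNReal.ofReal ((13 * η) ^ 2 * Real.pi) * (729 * ∫⁻ z in N, g z) := by
  have hm : ∀ i, Measurable fun z =>
      (ball (gp η i) (13 * η)).indicator (1 : ℂ → ℝ≥0∞) z * N.indicator g z := fun i =>
    (measurable_one.indicator measurableSet_ball).mul (hg.indicator hN)
  calc _ ≤ ∑' i, b * ENNReal.ofReal ((13 * η) ^ 2 * Real.pi) *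
        ∫⁻ z, (ball (gp η i) (13 * η)).indicator 1 z * N.indicator g z := by
        refine ENNReal.tsum_le_tsum fun i => indicator_apply_le' (fun hi => ?_) fun _ => zero_le
        rw [sq]
        refine mul_le_mul' ?_ ?_
        · refine (setLIntegral_mono' measurableSet_ball fun z hz => (h i hi z hz).2).trans ?_
          rw [setLIntegral_const, Complex.volume_ball, ENNReal.ofReal_mul (sq_nonneg _),
            ENNReal.ofReal_pow (by positivity), ← NNReal.coe_real_pi, ENNReal.ofReal_coe_nnreal]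
        · rw [← lintegral_indicator measurableSet_ball]
          refine lintegral_mono fun z => indicator_apply_le' (fun hz => ?_) fun _ => zero_le
          rw [indicator_of_mem hz, indicator_of_mem (h i hi z hz).1, Pi.one_apply, one_mul]
    _ = b * ENNReal.ofReal ((13 * η) ^ 2 * Real.pi) *
        ∫⁻ z, ∑' i, (ball (gp η i) (13 * η)).indicator 1 z * N.indicator g z := by
        rw [ENNReal.tsum_mul_left, lintegral_tsum fun i => (hm i).aemeasurable]
    _ ≤ _ := by
        refine mul_le_mul' le_rfl ?_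
        rw [← lintegral_indicator hN, ← lintegral_const_mul _ (hg.indicator hN)]
        refine lintegral_mono fun z => ?_
        rw [ENNReal.tsum_mul_right]
        exact mul_le_mul' (count hη z) le_rfl

end NksA

theorem p_NKS (hESC : S_ESC) (hOCK : S_OCK) (hREV : S_REV) :
    S_NKS := by
  intro ν hν
  have := hν.prob
  obtain ⟨α, hα, hE⟩ := hESC ν hν
  obtain ⟨a, ha, hO⟩ := hOCK ν hν
  refine ⟨α, hα, fun r hr T => ?_⟩
  obtain ⟨C, hC⟩ := hE r hr T
  refine ⟨|C| * 17 ^ α * (169 * Real.pi) * (729 * (2 * (17 / a) ^ 2)), min (r / 13) (a * r / 17),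
    by positivity, fun η hη K c hK => ?_⟩
  obtain ⟨hη, hη'⟩ := hη
  have h1 : η < r / 13 := hη'.trans_le (min_le_left _ _)
  have h2 : η < a * r / 17 := hη'.trans_le (min_le_right _ _)
  have mE : MeasurableSet {p : TP | p.1 ≤ T ∧ Disjoint (range p.2) K} := by
    simp_rw [← subset_compl_iff_disjoint_right]
    exact (measurableSet_le measurable_fst measurable_const).inter
      (measurableSet_rangeSub hK.1.isOpen_compl)
  have hg : Measurable fun z => grM ν c z {p : TP | p.1 ≤ T ∧ Disjoint (range p.2) K} := by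
    simp_rw [← lintegral_indicator_one mE]
    exact measurable_grM ν measurable_const measurable_id
      ((measurable_one.indicator mE).comp measurable_snd)
  have hs : ∀ z, grM ν c z {p : TP | p.1 ≤ T ∧ Disjoint (range p.2) K} =
      grM ν z c {p : TP | p.1 ≤ T ∧ Disjoint (range p.2) K} := by
    intro z
    rw [← (hREV.2 ν hν).2.2.2.1 z c, Measure.map_apply (by fun_prop) mE]
    simp only [preimage_ofPred_eq, NksA.range_rev]
  refine (NksA.main hη hg (N := {z | infDist z K ≤ 17 * η})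
    (measurableSet_le (continuous_infDist_pt K).measurable measurable_const) _
    (ENNReal.ofReal (|C| * (17 * η) ^ α)) ?_).trans ?_
  · rintro i ⟨hi, y, hy, hyi⟩ z hz
    rw [mem_closedBall] at hyi
    rw [mem_ball] at hz
    have h3 : infDist z K ≤ 17 * η :=
      (infDist_le_dist_of_mem hy).trans (by linarith [dist_triangle_right z y (gp η i)])
    refine ⟨h3, ?_⟩
    rw [hs]
    refine (hC K hK z c _ (by positivity) h3 ?_).trans (ENNReal.ofReal_le_ofReal
      (mul_le_mul_of_nonneg_right (le_abs_self C) (by positivity)))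
    linarith [dist_triangle_left (gp η i) c z]
  · refine (mul_le_mul' le_rfl (mul_le_mul' le_rfl
      (hO K r T (17 * η) c hK (by positivity) (by linarith)))).trans (le_of_eq ?_)
    rw [← ENNReal.ofReal_mul (by positivity), ← ENNReal.ofReal_ofNat 729,
      ← ENNReal.ofReal_mul (by positivity), ← ENNReal.ofReal_mul (by positivity),
      Real.mul_rpow (by norm_num) hη.le, Real.rpow_add hη, Real.rpow_ofNat]
    congr 1
    ring

end Pool.Agent.P.MP_d66c6d_pr
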