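import Pool.Agent.P.MP_d66c6d_pr.J.Iface
import Pool.Agent.P.MP_d66c6d_pr.B.Iface
import Pool.Agent.P.MP_d66c6d_pr.S.Cells

/-! Step NKT of the carpet project. -/

namespace Pool.Agent.P.MP_d66c6d_pr

open MeasureTheory ProbabilityTheory Set Metric Filter Topology
open scoped ENNReal

namespace NktA

theorem arith {C C' η α k σ : ℝ} (hη : 0 < η) (m : ℝ≥0∞) :
    ENNReal.ofReal (C * η ^ (-(2 * k))) ^ 2 * (ENNReal.ofReal ((η ^ (2 + σ)) ^ 2) *
      (ENNReal.ofReal (C' * η ^ (4 + α)) * m)) ≤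
    ENNReal.ofReal ((η ^ (2 + σ)) ^ 2) ^ 2 *
      (ENNReal.ofReal (|C| ^ 2 * |C'| * η ^ (α - 4 * k - 2 * σ)) * m) := by
  have h1 : ENNReal.ofReal (C * η ^ (-(2 * k))) ≤ ENNReal.ofReal (|C| * η ^ (-(2 * k))) :=
    ENNReal.ofReal_le_ofReal (mul_le_mul_of_nonneg_right (le_abs_self _) (by positivity))
  have h2 : ENNReal.ofReal (C' * η ^ (4 + α)) ≤ ENNReal.ofReal (|C'| * η ^ (4 + α)) :=
    ENNReal.ofReal_le_ofReal (mul_le_mul_of_nonneg_right (le_abs_self _) (by positivity))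
  refine le_trans (b := ENNReal.ofReal (|C| * η ^ (-(2 * k))) ^ 2 *
    (ENNReal.ofReal ((η ^ (2 + σ)) ^ 2) * (ENNReal.ofReal (|C'| * η ^ (4 + α)) * m)))
    (by gcongr) (le_of_eq ?_)
  rw [← ENNReal.ofReal_pow (by positivity), ← ENNReal.ofReal_pow (by positivity), ← mul_assoc,
    ← mul_assoc, ← mul_assoc, ← ENNReal.ofReal_mul (by positivity),
    ← ENNReal.ofReal_mul (by positivity), ← ENNReal.ofReal_mul (by positivity)]
  congr 2
  have e : (η ^ (-(2 * k))) ^ 2 * η ^ (4 + α) = (η ^ (2 + σ)) ^ 2 * η ^ (α - 4 * k - 2 * σ) := by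
    rw [sq, sq, ← Real.rpow_add hη, ← Real.rpow_add hη, ← Real.rpow_add hη, ← Real.rpow_add hη]
    congr 1
    ring
  linear_combination (|C| ^ 2 * |C'| * (η ^ (2 + σ)) ^ 2) * e

theorem small {A β : ℝ} (hβ : 0 < β) {κ m ε : ℝ≥0∞} (hκ : κ ≠ 0) (hm : m ≠ ∞) (hε : ε ≠ 0) :
    ∀ᶠ η : ℝ in 𝓝[>] 0, κ⁻¹ * (ENNReal.ofReal (A * η ^ β) * m) ≤ ε := by
  have h1 : Tendsto (fun η : ℝ => A * η ^ β) (𝓝[>] 0) (𝓝 0) := by
    have := ((Real.continuousAt_rpow_const 0 β (Or.inr hβ.le)).tendsto.const_mul A).mono_left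
      (nhdsWithin_le_nhds (s := Ioi 0))
    rwa [Real.zero_rpow hβ.ne', mul_zero] at this
  have h2 := ENNReal.tendsto_ofReal h1
  rw [ENNReal.ofReal_zero] at h2
  have h3 := ENNReal.Tendsto.const_mul (a := κ⁻¹)
    (ENNReal.Tendsto.mul_const (b := m) h2 (Or.inr hm)) (Or.inr (ENNReal.inv_ne_top.2 hκ))
  rw [zero_mul, mul_zero] at h3
  exact h3.eventually_le_const (pos_iff_ne_zero.2 hε)

end NktA

open NktA in
theorem p_NKT (hNKX : S_NKX) (hNKS : S_NKS) (hNKM : S_NKM) (hMB : S_MB) (hHOLD : S_HOLD) (hREV : S_REV) :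
    S_NKT := by
  intro ν hν a c r T hac hr ε hε
  obtain ⟨α, hα, hS⟩ := hNKS ν hν
  obtain ⟨C', η₀, hη₀, hS⟩ := hS (r / 8) (by positivity) T
  obtain ⟨κ, hκ, hX⟩ := hNKX ν hν
  obtain ⟨k, hk, hkα⟩ : ∃ k ∈ Ioc (0 : ℝ) 1, k ≤ α / 16 :=
    ⟨min 1 (α / 16), ⟨lt_min one_pos (by positivity), min_le_left _ _⟩, min_le_right _ _⟩
  obtain ⟨C, hX⟩ := hX k hk T
  have hm := (hMB ν hν).2.2 a (r / 2) (2 * T + 1) (half_pos hr)
  have hκ' : min κ 1 ≠ 0 := (lt_min (pos_iff_ne_zero.2 hκ) one_pos).ne'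
  have hκ'' : min κ 1 ≠ ∞ := ((min_le_right _ _).trans_lt ENNReal.one_lt_top).ne
  have e1 := small (A := |C| ^ 2 * |C'|) (β := α - 4 * k - 2 * (α / 4)) (by linarith) hκ' hm hε
  have e2 := (hHOLD ν hν (α / 4) T a c (by positivity) hac).2.eventually_le_const
    (pos_iff_ne_zero.2 hε)
  have e3 : ∀ᶠ η : ℝ in 𝓝[>] 0, η ∈ Ioo 0 (min η₀ (min 1 (r / 32))) :=
    Ioo_mem_nhdsGT (lt_min hη₀ (lt_min one_pos (by positivity)))
  obtain ⟨η, h1, h2, hη, h3⟩ := (e1.and (e2.and e3)).exists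
  obtain ⟨hη0, h4⟩ := lt_min_iff.1 h3
  obtain ⟨hη1, hηr⟩ := lt_min_iff.1 h4
  have har := arith (C := C) (C' := C') (α := α) (k := k) (σ := α / 4) hη
    (grM ν a a {p | p.1 ≤ 2 * T + 1 ∧ ¬ range p.2 ⊆ ball a (r / 2)})
  have hδ : 0 < η ^ (2 + α / 4) := by positivity
  generalize η ^ (2 + α / 4) = δ at h2 har hδ
  have hD0 : ENNReal.ofReal (δ ^ 2) ^ 2 ≠ 0 :=
    pow_ne_zero _ (ENNReal.ofReal_pos.2 (by positivity)).ne'
  have hD1 : ENNReal.ofReal (δ ^ 2) ^ 2 ≠ ∞ := ENNReal.pow_ne_top ENNReal.ofReal_ne_top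
  let I : Set (ℤ × ℤ) := {i | r - η ≤ dist (gp η i) a ∧ r - η ≤ dist (gp η i) c}
  let E : ℤ × ℤ → Set TP := fun i =>
    {K | i ∈ I ∧ K.1 ≤ 2 * T + 1 ∧ (range K.2 ∩ closedBall (gp η i) (4 * η)).Nonempty}
  have htr : Measurable fun K : TP => trB K.2 := by fun_prop
  have hE0 : ∀ i, MeasurableSet
      {K : TP | K.1 ≤ 2 * T + 1 ∧ (range K.2 ∩ closedBall (gp η i) (4 * η)).Nonempty} := fun i =>
    (measurableSet_le measurable_fst measurable_const).inter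
      (htr (isClosed_hitK isClosed_closedBall).measurableSet)
  have hE : ∀ i, MeasurableSet (E i) := fun i => (MeasurableSet.const _).inter (hE0 i)
  let F : ℤ × ℤ → TP → ℝ≥0∞ := fun i =>
    (E i).indicator fun K => phi ν c T (gp η i) η (range K.2) ^ 2
  have hF : ∀ i, Measurable (F i) := fun i =>
    (((hNKM.2.2.2.2.2.2 ν hν c (gp η i) T η).1.comp htr).pow_const 2).indicator (hE i)
  have key : ∀ i, ∃ R : TP → ℝ≥0∞, Measurable R ∧
      (i ∈ I → ∀ p ∈ Gd a c η δ T, ENNReal.ofReal (δ ^ 2) ^ 2 * grM ν a c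
        {q | q ∈ Gd a c η δ T ∧ Neck (closedBall (gp η i) (2 * η)) p.2 q.2} ≤ R p) ∧
      min κ 1 * ∫⁻ p in {p : TP | p.1 ≤ T}, R p ∂grM ν a c ≤
        ENNReal.ofReal (C * η ^ (-(2 * k))) ^ 2 *
          (ENNReal.ofReal (δ ^ 2) * ∫⁻ K, F i K ∂grM ν a a) := by
    intro i
    by_cases hi : i ∈ I
    · obtain ⟨R, r1, r2, r3⟩ := hX (gp η i) a c η δ hη hη1.le hδ
        (by rw [dist_comm]; linarith [hi.1]) (by rw [dist_comm]; linarith [hi.2])
      refine ⟨R, r1, fun _ => r2, le_trans (by gcongr; exact min_le_left _ _) (r3.trans_eq ?_)⟩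
      rw [← lintegral_indicator (hE0 i)]
      simp only [F, E, hi, true_and]
    · exact ⟨0, measurable_zero, fun h => absurd h hi, by simp⟩
  choose R hR hR1 hR2 using key
  refine ⟨η, δ, fun p => (ENNReal.ofReal (δ ^ 2) ^ 2)⁻¹ * ∑' i, R i p, hη,
    (Measurable.tsum hR).const_mul _, fun p hp => ?_, ?_, h2⟩
  · refine le_trans (measure_mono (t := ⋃ i, {q | i ∈ I ∧ q ∈ Gd a c η δ T ∧
      Neck (closedBall (gp η i) (2 * η)) p.2 q.2}) ?_) ((measure_iUnion_le _).trans ?_)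
    · rintro q ⟨hq, x, x1, x2, x3⟩
      obtain ⟨i, hi⟩ := CellsA.grid hη x
      have a1 := dist_triangle x (gp η i) a
      have a2 := dist_triangle x (gp η i) c
      refine mem_iUnion.2 ⟨i, ⟨by linarith, by linarith⟩, hq,
        x3.mono (closedBall_subset_closedBall' (by linarith))⟩
    · refine le_trans (ENNReal.tsum_le_tsum fun i => ?_) ENNReal.tsum_mul_left.le
      by_cases hi : i ∈ I
      · simp only [hi, true_and]
        exact (ENNReal.mul_le_iff_le_inv hD0 hD1).1 (hR1 i hi p hp)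
      · simp [hi]
  refine le_trans ?_ h1
  rw [← ENNReal.mul_le_iff_le_inv hκ' hκ'', lintegral_const_mul _ (Measurable.tsum hR),
    lintegral_tsum fun i => (hR i).aemeasurable, mul_left_comm, ← ENNReal.tsum_mul_left]
  refine le_trans (mul_le_mul_right ((ENNReal.tsum_le_tsum hR2).trans (le_trans ?_ har)) _)
    (le_of_eq ?_)
  swap
  · rw [← mul_assoc, ENNReal.inv_mul_cancel hD0 hD1, one_mul]
  rw [ENNReal.tsum_mul_left, ENNReal.tsum_mul_left, ← lintegral_tsum fun i => (hF i).aemeasurable]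
  gcongr
  refine le_trans (lintegral_mono_ae ?_) (lintegral_indicator_const_le _ _)
  filter_upwards [(hREV.2 ν hν).2.2.2.2.2.1 a a] with K hK
  by_cases h : ∃ i, K ∈ E i
  swap
  · have : ∀ i, F i K = 0 := fun i => indicator_of_notMem (fun hi => h ⟨i, hi⟩) _
    simp [this]
  obtain ⟨i, hi, hT, w, w1, w2⟩ := h
  have b1 : r / 2 ≤ dist w a := by
    have := dist_triangle_left (gp η i) a w
    have := hi.1
    have : dist w (gp η i) ≤ 4 * η := w2
    linarith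
  have ha : a ∈ range K.2 := ⟨0, hK.2.1⟩
  have hW : Wide (r / 8) (range K.2) := by
    refine ⟨(isCompact_range K.2.continuous).isClosed, isPreconnected_range K.2.continuous,
      fun v hv => ?_⟩
    have c1 : dist w v ≤ r / 8 := hv w1
    have c2 : dist a v ≤ r / 8 := hv ha
    have := dist_triangle_right w a v
    linarith
  rw [indicator_of_mem (show K ∈ {p : TP | p.1 ≤ 2 * T + 1 ∧ ¬ range p.2 ⊆ ball a (r / 2)} from
    ⟨hT, fun hb => not_lt.2 b1 (hb w1)⟩)]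
  refine le_trans (ENNReal.tsum_le_tsum fun j => ?_) (hS η ⟨hη, hη0⟩ _ c hW)
  by_cases hj : K ∈ E j
  · rw [indicator_of_mem (show j ∈ {i : ℤ × ℤ | 2 * (r / 8) ≤ dist (gp η i) c ∧
      (range K.2 ∩ closedBall (gp η i) (4 * η)).Nonempty} from
        ⟨by linarith [hj.1.2], hj.2.2⟩)]
    exact (indicator_of_mem hj _).le
  · exact (indicator_of_notMem hj _).trans_le zero_le

end Pool.Agent.P.MP_d66c6d_pr
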