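import Pool.Agent.P.MP_d66c6d_pr.J.Iface

/-! Step NKX of the carpet project. -/

namespace Pool.Agent.P.MP_d66c6d_pr

open MeasureTheory ProbabilityTheory Set Metric Filter Topology
open scoped ENNReal

namespace NkxA

/-- Two admissible first parts that avoid two admissible last parts. -/
def D4 (x : ℂ) (η δ T : ℝ) : Set ((TP × TP) × (TP × TP)) :=
  {z | z.1.1 ∈ Hd x η δ T ∧ z.1.2 ∈ Tl x η T ∧ z.2.1 ∈ Hd x η δ T ∧ z.2.2 ∈ Tl x η T ∧
    Disjoint (range z.1.1.2 ∪ range z.2.1.2) (range z.1.2.2 ∪ range z.2.2.2)}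

theorem meas_disj (hNKM : S_NKM) {α : Type} [MeasurableSpace α] {f g : α → TP}
    (hf : Measurable f) (hg : Measurable g) :
    MeasurableSet {a | Disjoint (range (f a).2) (range (g a).2)} := by
  have h : Measurable fun a => ((f a, trB (g a).2) : TP × KC) :=
    hf.prodMk (Measurable.trB' hg.snd)
  exact h hNKM.2.2.2.2.1.measurableSet

theorem meas_D4 (hNKM : S_NKM) (x : ℂ) (η δ T : ℝ) : MeasurableSet (D4 x η δ T) := by
  have h1 := hNKM.2.1 x η δ T
  have h2 := hNKM.2.2.1 x η T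
  have e : D4 x η δ T = {z | z.1.1 ∈ Hd x η δ T} ∩ ({z | z.1.2 ∈ Tl x η T} ∩
      ({z | z.2.1 ∈ Hd x η δ T} ∩ ({z | z.2.2 ∈ Tl x η T} ∩
      (({z | Disjoint (range z.1.1.2) (range z.1.2.2)} ∩
        {z | Disjoint (range z.1.1.2) (range z.2.2.2)}) ∩
      ({z | Disjoint (range z.2.1.2) (range z.1.2.2)} ∩
        {z | Disjoint (range z.2.1.2) (range z.2.2.2)}))))) := by
    ext z
    simp only [D4, mem_ofPred_eq, mem_inter_iff, disjoint_union_left, disjoint_union_right]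
    tauto
  rw [e]
  exact (measurable_fst.fst h1).inter ((measurable_fst.snd h2).inter
    ((measurable_snd.fst h1).inter ((measurable_snd.snd h2).inter
    (((meas_disj hNKM measurable_fst.fst measurable_fst.snd).inter
      (meas_disj hNKM measurable_fst.fst measurable_snd.snd)).inter
    ((meas_disj hNKM measurable_snd.fst measurable_fst.snd).inter
      (meas_disj hNKM measurable_snd.fst measurable_snd.snd))))))

theorem far {x : ℂ} {η δ T : ℝ} (hη : 0 < η) {α ω : TP} (h1 : α ∈ Hd x η δ T)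
    (h2 : ω ∈ Tl x η T) : η ≤ dist (α.2 1) (ω.2 1) := by
  have h3 : dist (α.2 1) x < 5 * η := mem_ball.1 h1.2.2
  have h4 : ¬ dist (ω.2 1) x ≤ 12 * η := fun h =>
    Set.disjoint_left.1 h2.2.2 (mem_range_self 1) (mem_closedBall.2 h)
  have h5 := dist_triangle_left (ω.2 1) x (α.2 1)
  linarith [not_le.1 h4]

theorem inner (hNKM : S_NKM) (ν : Measure Br) (hν : IsBridge ν) (x c : ℂ) (η δ T : ℝ)
    (A A' : TP) :
    ∫⁻ B, ∫⁻ B', (D4 x η δ T).indicator 1 ((A, B), (A', B')) ∂GS ν c ∂GS ν c ≤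
      phi ν c T x η (closedBall x (12 * η) ∪ range A.2 ∪ range A'.2) ^ 2 := by
  have hZ : IsClosed (closedBall x (12 * η) ∪ range A.2 ∪ range A'.2) :=
    (isClosed_closedBall.union (isCompact_range A.2.continuous).isClosed).union
      (isCompact_range A'.2.continuous).isClosed
  rw [← (hNKM.2.2.2.2.2.2 ν hν c x T η).2 _ hZ]
  set G : Set TP := {p | p.1 ≤ T ∧ p.2 1 ∈ ball x (13 * η) ∧
    Disjoint (range p.2) (closedBall x (12 * η) ∪ range A.2 ∪ range A'.2)} with hG
  have e : G = Tl x η T ∩ ({p | Disjoint (range p.2) (range A.2)} ∩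
      {p | Disjoint (range p.2) (range A'.2)}) := by
    ext p
    simp only [hG, Tl, mem_ofPred_eq, mem_inter_iff, disjoint_union_right]
    tauto
  have hm : MeasurableSet G := by
    rw [e]
    exact (hNKM.2.2.1 x η T).inter
      ((meas_disj hNKM measurable_id (measurable_const (a := A))).inter
        (meas_disj hNKM measurable_id (measurable_const (a := A'))))
  have hi : Measurable (G.indicator (1 : TP → ℝ≥0∞)) := measurable_one.indicator hm
  calc ∫⁻ B, ∫⁻ B', (D4 x η δ T).indicator 1 ((A, B), (A', B')) ∂GS ν c ∂GS ν c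
      ≤ ∫⁻ B, ∫⁻ B', G.indicator 1 B * G.indicator 1 B' ∂GS ν c ∂GS ν c := by
        refine lintegral_mono fun B => lintegral_mono fun B' => ?_
        by_cases h : ((A, B), (A', B')) ∈ D4 x η δ T
        · have h5 := h.2.2.2.2
          simp only [disjoint_union_left, disjoint_union_right] at h5
          have hB : B ∈ G := by
            rw [e]
            exact ⟨h.2.1, h5.1.1.symm, h5.1.2.symm⟩
          have hB' : B' ∈ G := by
            rw [e]
            exact ⟨h.2.2.2.1, h5.2.1.symm, h5.2.2.symm⟩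
          simp [indicator_of_mem h, indicator_of_mem hB, indicator_of_mem hB']
        · simp [indicator_of_notMem h]
    _ = GS ν c G ^ 2 := by
        simp_rw [lintegral_const_mul _ hi]
        rw [lintegral_mul_const _ hi, lintegral_indicator_one hm, sq]

end NkxA

open NkxA in
theorem p_NKX (hNK1 : S_NK1) (hNKA : S_NKA) (hNKB : S_NKB) (hNKM : S_NKM) :
    S_NKX := by
  intro ν hν
  have hprob := hν.1
  obtain ⟨κ, hκ, hB⟩ := hNKB ν hν
  refine ⟨κ, hκ, fun k hk T => ?_⟩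
  obtain ⟨C, hA⟩ := hNKA ν hν k hk T
  refine ⟨C, fun x a c η δ hη hη1 hδ ha hc => ?_⟩
  set Λ := ENNReal.ofReal (C * η ^ (-(2 * k))) with hΛ
  have hΛ' : Λ ≠ ∞ := ENNReal.ofReal_ne_top
  have hD := meas_D4 hNKM x η δ T
  have hHd := hNKM.2.1 x η δ T
  let Ψ4 : (TP × TP) × (TP × TP) → ℝ≥0∞ := (D4 x η δ T).indicator 1
  have h4 : Measurable Ψ4 := measurable_one.indicator hD
  let Ψt : TP × TP → ℝ≥0∞ := fun w => ∫⁻ A', ∫⁻ B', Ψ4 (w, (A', B')) ∂GS ν c ∂GS ν a
  have h3 : Measurable fun u : (TP × TP) × TP => ∫⁻ B', Ψ4 (u.1, (u.2, B')) ∂GS ν c :=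
    Measurable.lintegral_prod_right' (f := fun v : ((TP × TP) × TP) × TP =>
      Ψ4 (v.1.1, (v.1.2, v.2))) (h4.comp (by fun_prop))
  have ht : Measurable Ψt := h3.lintegral_prod_right'
  have hΛt : Measurable fun w => Λ * Ψt w := ht.const_mul Λ
  refine ⟨mk2 fun w => Λ * Ψt w, hNKM.2.2.2.2.2.1 _ hΛt, fun p hp => ?_, ?_⟩
  · set E := {q | q ∈ Gd a c η δ T ∧ Neck (closedBall x (2 * η)) p.2 q.2} with hE
    rcases E.eq_empty_or_nonempty with h0 | ⟨q₀, hq₀⟩
    · simp [h0]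
    rw [sq, mul_assoc]
    refine hNK1 x a c η δ T p _ _ hη hδ hp ha hc hq₀.2.1 fun α hα ω hω h1 h2 => ?_
    have hw : Measurable fun w => Ψ4 ((α, ω), w) := h4.comp (by fun_prop)
    have hf := hNKM.2.2.2.2.2.1 _ hw
    have hT : MeasurableSet {q : TP | q.1 ≤ T} := measurableSet_le measurable_fst measurable_const
    have hsub : E ⊆ {q | ENNReal.ofReal (δ ^ 2) ≤ mk2 (fun w => Ψ4 ((α, ω), w)) q} ∩
        {q : TP | q.1 ≤ T} := by
      intro q hq
      refine ⟨?_, hq.1.2.1⟩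
      have h5 := hNK1 x a c η δ T q (fun w => Ψ4 ((α, ω), w)) 1 hη hδ hq.1 ha hc hq.2.2.1
        fun α' hα' ω' hω' h1' h2' => by
          have hm : ((α, ω), (α', ω')) ∈ D4 x η δ T := ⟨hα, hω, hα', hω',
            hq.2.2.2.mono (union_subset_union h1 h1') (union_subset_union h2 h2')⟩
          simp [Ψ4, indicator_of_mem hm]
      rwa [mul_one] at h5
    calc ENNReal.ofReal (δ ^ 2) * grM ν a c E
        ≤ ENNReal.ofReal (δ ^ 2) * (grM ν a c).restrict {q : TP | q.1 ≤ T}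
            {q | ENNReal.ofReal (δ ^ 2) ≤ mk2 (fun w => Ψ4 ((α, ω), w)) q} := by
          rw [Measure.restrict_apply' hT]
          exact mul_le_mul_right (measure_mono hsub) _
      _ ≤ ∫⁻ q in {q : TP | q.1 ≤ T}, mk2 (fun w => Ψ4 ((α, ω), w)) q ∂grM ν a c :=
          mul_meas_ge_le_lintegral hf _
      _ ≤ Λ * Ψt (α, ω) := by
          refine hA η hη a c _ hw fun α' ω' h5 => ?_
          have hm : ((α, ω), (α', ω')) ∈ D4 x η δ T := by
            by_contra hn
            exact h5 (indicator_of_notMem hn _)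
          exact far hη hm.2.2.1 hm.2.2.2.1
  · have hz : ∀ α ω, Λ * Ψt (α, ω) ≠ 0 → η ≤ dist (α.2 1) (ω.2 1) := by
      intro α ω h5
      by_contra hn
      apply h5
      have h6 : ∀ A' B', Ψ4 ((α, ω), (A', B')) = 0 := fun A' B' =>
        indicator_of_notMem (fun hm => hn (far hη hm.1 hm.2.1)) _
      simp [Ψt, h6]
    have hI : ∫⁻ α, ∫⁻ ω, Ψt (α, ω) ∂GS ν c ∂GS ν a ≤
        ∫⁻ A in Hd x η δ T, ∫⁻ A' in Hd x η δ T,
          phi ν c T x η (closedBall x (12 * η) ∪ range A.2 ∪ range A'.2) ^ 2 ∂GS ν a ∂GS ν a := by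
      rw [← lintegral_indicator hHd]
      refine lintegral_mono fun A => ?_
      have hs : Measurable fun u : TP × TP => ∫⁻ B', Ψ4 ((A, u.1), (u.2, B')) ∂GS ν c :=
        h3.comp (g := fun u : (TP × TP) × TP => ∫⁻ B', Ψ4 (u.1, (u.2, B')) ∂GS ν c)
          (f := fun u : TP × TP => ((A, u.1), u.2)) (by fun_prop)
      have hswap : ∫⁻ ω, Ψt (A, ω) ∂GS ν c =
          ∫⁻ A', ∫⁻ B, ∫⁻ B', Ψ4 ((A, B), (A', B')) ∂GS ν c ∂GS ν c ∂GS ν a :=
        lintegral_lintegral_swap
          (f := fun B A' => ∫⁻ B', Ψ4 ((A, B), (A', B')) ∂GS ν c) hs.aemeasurable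
      rw [hswap]
      by_cases hAm : A ∈ Hd x η δ T
      · rw [indicator_of_mem hAm, ← lintegral_indicator hHd]
        refine lintegral_mono fun A' => ?_
        by_cases hAm' : A' ∈ Hd x η δ T
        · rw [indicator_of_mem hAm']
          exact inner hNKM ν hν x c η δ T A A'
        · have h6 : ∀ B B', Ψ4 ((A, B), (A', B')) = 0 := fun B B' =>
            indicator_of_notMem (fun hm => hAm' hm.2.2.1) _
          simp [h6]
      · have h6 : ∀ A' B B', Ψ4 ((A, B), (A', B')) = 0 := fun A' B B' =>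
          indicator_of_notMem (fun hm => hAm hm.1) _
        simp [h6]
    have h7 := hA η hη a c _ hΛt hz
    simp_rw [lintegral_const_mul' _ _ hΛ'] at h7
    calc κ * ∫⁻ p in {p : TP | p.1 ≤ T}, mk2 (fun w => Λ * Ψt w) p ∂grM ν a c
        ≤ κ * (Λ * (Λ * ∫⁻ A in Hd x η δ T, ∫⁻ A' in Hd x η δ T,
          phi ν c T x η (closedBall x (12 * η) ∪ range A.2 ∪ range A'.2) ^ 2
            ∂GS ν a ∂GS ν a)) := by
          refine mul_le_mul_right (h7.trans ?_) _
          exact mul_le_mul_right (mul_le_mul_right hI _) _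
      _ = Λ ^ 2 * (κ * ∫⁻ A in Hd x η δ T, ∫⁻ A' in Hd x η δ T,
          phi ν c T x η (closedBall x (12 * η) ∪ range A.2 ∪ range A'.2) ^ 2
            ∂GS ν a ∂GS ν a) := by ring
      _ ≤ _ := mul_le_mul_right (hB x a c η δ T hη hη1 hδ) _

end Pool.Agent.P.MP_d66c6d_pr
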