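import Pool.Agent.P.MP_d66c6d_pr.J.Iface
import Pool.Agent.P.MP_d66c6d_pr.C.Iface

/-! Step OCK of the carpet project. -/

namespace Pool.Agent.P.MP_d66c6d_pr

open MeasureTheory ProbabilityTheory Set Metric Filter Topology
open scoped ENNReal

namespace OckA

theorem tele {s n : ℝ → ℝ≥0∞} (hs : Measurable s) {τ : ℝ} (hτ : 0 < τ)
    (h1 : ∀ t, 0 < t → s t ≤ 1) (h2 : ∀ t, 0 < t → s (t + τ) + 2⁻¹ * n t ≤ s t) (T : ℝ) :
    ∫⁻ t in Ioc 0 T, n t ≤ ENNReal.ofReal (2 * τ) := by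
  have hA : ∫⁻ t in Ioc 0 T, s (t + τ) ≠ ∞ := by
    refine ne_top_of_le_ne_top ?_ (setLIntegral_mono' measurableSet_Ioc (g := fun _ => 1)
      fun t ht => h1 _ (add_pos ht.1 hτ))
    simp
  have e1 : ∫⁻ t in Ioc 0 T, s (t + τ) = ∫⁻ t in Ioc τ (T + τ), s t := by
    rw [← (measurePreserving_add_right volume τ).setLIntegral_comp_preimage_emb
      (measurableEmbedding_addRight τ) s (Ioc τ (T + τ)), preimage_add_const_Ioc, sub_self,
      add_sub_cancel_right]
  have e2 : ∫⁻ t in Ioc 0 τ, s t ≤ ENNReal.ofReal τ := by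
    refine (setLIntegral_mono' measurableSet_Ioc (g := fun _ => 1) fun t ht => h1 _ ht.1).trans ?_
    simp
  have e3 : (∫⁻ t in Ioc 0 T, s (t + τ)) + 2⁻¹ * ∫⁻ t in Ioc 0 T, n t ≤
      (∫⁻ t in Ioc 0 T, s (t + τ)) + ENNReal.ofReal τ := by
    calc _ = ∫⁻ t in Ioc 0 T, (s (t + τ) + 2⁻¹ * n t) := by
          rw [lintegral_add_left (f := fun t => s (t + τ)) (hs.comp (measurable_add_const τ)),
            lintegral_const_mul' _ _ (by simp)]
      _ ≤ ∫⁻ t in Ioc 0 T, s t := setLIntegral_mono' measurableSet_Ioc fun t ht => h2 t ht.1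
      _ ≤ ∫⁻ t in Ioc τ (T + τ) ∪ Ioc 0 τ, s t := lintegral_mono_set fun t ht => by
          rcases le_or_gt t τ with h | h
          · exact Or.inr ⟨ht.1, h⟩
          · exact Or.inl ⟨h, by linarith [ht.2]⟩
      _ ≤ _ := (lintegral_union_le _ _ _).trans (by rw [e1]; gcongr)
  have e4 := (ENNReal.add_le_add_iff_left hA).1 e3
  rw [ENNReal.ofReal_mul zero_le_two, ENNReal.ofReal_ofNat]
  calc _ = 2 * (2⁻¹ * ∫⁻ t in Ioc 0 T, n t) := by
        rw [← mul_assoc, ENNReal.mul_inv_cancel (by simp) (by simp), one_mul]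
    _ ≤ _ := by gcongr

theorem gr (ν : Measure Br) [SFinite ν] {K : Set ℂ} (hK : IsClosed K) (T : ℝ) (c z : ℂ) :
    grM ν c z {p | p.1 ≤ T ∧ Disjoint (range p.2) K} = ∫⁻ t in Ioc 0 T, KK ν Kᶜ t c z := by
  have hm := (isOpen_rangeSub hK.isOpen_compl).measurableSet
  have e : {p : TP | p.1 ≤ T ∧ Disjoint (range p.2) K} = Iic T ×ˢ {γ : Br | range γ ⊆ Kᶜ} := by
    ext p
    simp only [mem_ofPred_eq, mem_prod, mem_Iic, subset_compl_iff_disjoint_right]
  have hS : MeasurableSet (Iic T ×ˢ {γ : Br | range γ ⊆ Kᶜ}) := measurableSet_Iic.prod hm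
  rw [e, ← lintegral_indicator_one hS, lintegral_grM ν c z (measurable_one.indicator hS),
    ← Ioi_inter_Iic, inter_comm, ← setLIntegral_indicator measurableSet_Iic]
  refine lintegral_congr fun t => ?_
  by_cases ht : t ∈ Iic T
  · rw [indicator_of_mem ht, KK, ← lintegral_indicator_one hm]
    refine lintegral_congr fun γ => ?_
    by_cases hγ : γ ∈ {γ : Br | range γ ⊆ Kᶜ}
    · rw [indicator_of_mem hγ, indicator_of_mem (mk_mem_prod ht hγ)]
      rfl
    · rw [indicator_of_notMem hγ, indicator_of_notMem fun h => hγ h.2]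
  · rw [indicator_of_notMem ht]
    refine (lintegral_congr fun γ => ?_).trans lintegral_zero
    exact indicator_of_notMem (fun h => ht h.1) _

end OckA

theorem p_OCK (hBMC : S_BMC) (hKK : S_KK) :
    S_OCK := by
  intro ν hν
  have := hν.prob
  obtain ⟨a, ha, hb⟩ := hBMC ν hν
  refine ⟨a, ha.1, fun K r T w c hK hw hwa => ?_⟩
  have hO : IsOpen Kᶜ := hK.1.isOpen_compl
  obtain ⟨k1, -, -, -, -, -, k7, -⟩ := hKK ν hν Kᶜ hO
  have hτ : 0 < (w / a) ^ 2 := pow_pos (div_pos hw ha.1) 2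
  have hN : MeasurableSet {z : ℂ | infDist z K ≤ w} :=
    (isClosed_le (continuous_infDist_pt K) continuous_const).measurableSet
  have m1 : Measurable fun p : ℝ × ℂ => KK ν Kᶜ p.1 c p.2 :=
    measurable_KK ν hO measurable_fst measurable_const measurable_snd
  have m2 : Measurable fun p : ℂ × ℂ => KK ν Kᶜ ((w / a) ^ 2) p.1 p.2 :=
    measurable_KK ν hO measurable_const measurable_fst measurable_snd
  simp only [OckA.gr ν hK.1]
  have m0 : Measurable fun p : ℂ × ℝ => KK ν Kᶜ p.2 c p.1 :=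
    measurable_KK ν hO measurable_snd measurable_const measurable_fst
  rw [lintegral_lintegral_swap (f := fun z t => KK ν Kᶜ t c z) m0.aemeasurable]
  refine OckA.tele (s := fun t => ∫⁻ z, KK ν Kᶜ t c z) m1.lintegral_prod_right' hτ
    (fun t ht => (k7 t ht c).2) (fun t ht => ?_) T
  have m3 : Measurable fun z => KK ν Kᶜ t c z :=
    measurable_KK ν hO measurable_const measurable_const measurable_id
  have e : ∫⁻ y, KK ν Kᶜ (t + (w / a) ^ 2) c y =
      ∫⁻ z, KK ν Kᶜ t c z * ∫⁻ y, KK ν Kᶜ ((w / a) ^ 2) z y := by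
    simp only [k1 t _ ht hτ]
    have m4 : Measurable fun p : ℂ × ℂ => KK ν Kᶜ t c p.2 * KK ν Kᶜ ((w / a) ^ 2) p.2 p.1 :=
      (measurable_KK ν hO measurable_const measurable_const measurable_snd).mul
        (measurable_KK ν hO measurable_const measurable_snd measurable_fst)
    rw [lintegral_lintegral_swap (f := fun y z => KK ν Kᶜ t c z * KK ν Kᶜ ((w / a) ^ 2) z y)
      m4.aemeasurable]
    exact lintegral_congr fun z => lintegral_const_mul _
      (measurable_KK ν hO measurable_const measurable_const measurable_id)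
  rw [e, ← lintegral_const_mul _ m3, ← lintegral_indicator hN,
    ← lintegral_add_left (f := fun z => KK ν Kᶜ t c z * ∫⁻ y, KK ν Kᶜ ((w / a) ^ 2) z y)
      (m3.mul m2.lintegral_prod_right')]
  refine lintegral_mono fun z => ?_
  by_cases hz : z ∈ {z : ℂ | infDist z K ≤ w}
  · have h1 : ∫⁻ y, KK ν Kᶜ ((w / a) ^ 2) z y ≤ 2⁻¹ := by
      rw [(k7 _ hτ z).1]
      simpa only [subset_compl_iff_disjoint_right] using hb K r w z hK hw hwa hz
    rw [indicator_of_mem hz]
    calc _ ≤ KK ν Kᶜ t c z * 2⁻¹ + 2⁻¹ * KK ν Kᶜ t c z := by gcongr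
      _ = _ := by rw [mul_comm, ← add_mul, ENNReal.inv_two_add_inv_two, one_mul]
  · rw [indicator_of_notMem hz, add_zero]
    exact mul_le_of_le_one_right' (k7 _ hτ z).2

end Pool.Agent.P.MP_d66c6d_pr
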