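import Pool.Agent.P.MP_d66c6d_pr.J.Iface
import Pool.Agent.P.MP_d66c6d_pr.N.Iface
import Pool.Agent.P.MP_d66c6d_pr.B.Iface

/-! Step OSC of the carpet project. -/

namespace Pool.Agent.P.MP_d66c6d_pr

open MeasureTheory ProbabilityTheory Set Metric Filter Topology
open scoped ENNReal

namespace OscA

/-- The path moves away from its start by at least `ρ`. -/
def Ex (ρ : ℝ) : Set Br := {γ | ρ ≤ ‖γ - ContinuousMap.const _ (γ 0)‖}

theorem meas_Ex (ρ : ℝ) : MeasurableSet (Ex ρ) :=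
  (isClosed_le continuous_const (continuous_id.sub (ContinuousMap.continuous_const'.comp
    (continuous_eval_const (0 : unitInterval)))).norm).measurableSet

theorem not_Ex {ρ : ℝ} (hρ : 0 < ρ) {γ : Br} : γ ∉ Ex ρ ↔ range γ ⊆ ball (γ 0) ρ := by
  simp only [Ex, mem_ofPred_eq, not_le, ContinuousMap.norm_lt_iff _ hρ, range_subset_iff,
    mem_ball, dist_eq_norm, ContinuousMap.sub_apply, ContinuousMap.const_apply]

theorem msub (u v : ℝ) : Measurable (sub u v) :=
  Measurable.sub' measurable_const measurable_const measurable_id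

theorem piece_le (hBMK : S_BMK) (hBM : S_BM) (hCUT : S_CUT) {ν : Measure Br} (hν : IsBridge ν)
    {ρ : ℝ} {f : ℝ → ℝ≥0∞} (h0 : ∀ t > 0, ∀ x, bmM ν t x (Ex ρ) ≤ f t) {u v : ℝ} (hu : 0 ≤ u)
    (huv : u < v) (hv : v ≤ 1) : bmM ν 1 0 (sub u v ⁻¹' Ex ρ) ≤ f (v - u) := by
  have h1 : ∀ t > 0, ∀ x, ∀ s, 0 < s → s ≤ 1 → bmM ν t x (sub 0 s ⁻¹' Ex ρ) ≤ f (s * t) := by
    intro t ht x s s0 s1
    rcases s1.eq_or_lt with rfl | s1
    · rw [show sub 0 1 = id from funext hCUT.1, one_mul]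
      exact h0 t ht x
    · rw [← Measure.map_apply (msub 0 s) (meas_Ex ρ), ((hBMK ν hν).2 t ht x).2.1 s ⟨s0, s1⟩]
      exact h0 _ (by positivity) x
  rcases hu.eq_or_lt with rfl | hu'
  · simpa using h1 1 one_pos 0 v huv hv
  have u1 : 0 < 1 - u := by linarith
  have s0 : 0 < (v - u) / (1 - u) := div_pos (by linarith) u1
  have s1 : (v - u) / (1 - u) ≤ 1 := (div_le_one u1).2 (by linarith)
  have hm := msub 0 ((v - u) / (1 - u)) (meas_Ex ρ)
  have h2 := ((hBMK ν hν).2 1 one_pos 0).1 u ⟨hu', by linarith⟩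
    (fun p => (sub 0 ((v - u) / (1 - u)) ⁻¹' Ex ρ).indicator 1 p.2)
    ((measurable_one.indicator hm).comp measurable_snd)
  have h3 : ∀ γ, sub 0 ((v - u) / (1 - u)) (sub u 1 γ) = sub u v γ := fun γ => by
    rw [hCUT.2.1 u ⟨hu, by linarith⟩ 1 ⟨zero_le_one, le_rfl⟩ 0 ⟨le_rfl, zero_le_one⟩ _ ⟨s0.le, s1⟩,
      div_mul_cancel₀ _ u1.ne']
    simp
  have := ((hBM ν hν).1 (u * 1) (by positivity) 0).1
  rw [← lintegral_indicator_one (msub u v (meas_Ex ρ))]
  refine le_trans (le_of_eq (Eq.trans (lintegral_congr fun γ => ?_) h2))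
    ((lintegral_mono (g := fun _ => f (v - u)) fun α => ?_).trans
      (by rw [lintegral_const, measure_univ, mul_one]))
  · by_cases h : sub u v γ ∈ Ex ρ
    · rw [indicator_of_mem (show γ ∈ sub u v ⁻¹' Ex ρ from h),
        indicator_of_mem (by rwa [mem_preimage, h3])]
      rfl
    · rw [indicator_of_notMem (show γ ∉ sub u v ⁻¹' Ex ρ from h),
        indicator_of_notMem (by rwa [mem_preimage, h3])]
  · have h4 := h1 ((1 - u) * 1) (by positivity) (α 1) _ s0 s1
    rw [mul_one, div_mul_cancel₀ _ u1.ne'] at h4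
    simp only [lintegral_indicator_one hm, mul_one]
    exact h4

/-- One of the pieces of the path is large. -/
def Os (h ρ : ℝ) : Set Br :=
  ⋃ k ∈ Finset.range ⌈1 / h⌉₊, sub (k * h) (min ((k + 2) * h) 1) ⁻¹' Ex ρ

theorem mem_Os (hCUT : S_CUT) {h ρ : ℝ} (hh : 0 < h) (hρ : 0 < ρ) {γ : Br} {s s' : unitInterval}
    (h1 : |(s : ℝ) - s'| ≤ h) (h2 : 2 * ρ ≤ dist (γ s) (γ s')) : γ ∈ Os h ρ := by
  wlog hs : (s : ℝ) ≤ s' generalizing s s'
  · exact this (by rwa [abs_sub_comm]) (by rwa [dist_comm]) (not_le.1 hs).le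
  rcases hs.eq_or_lt with e | hs'
  · rw [Subtype.ext e, dist_self] at h2
    linarith
  have a0 : 0 ≤ (s : ℝ) / h := div_nonneg s.2.1 hh.le
  have a1 := (le_div_iff₀ hh).1 (Nat.floor_le a0)
  have a2 := (div_lt_iff₀ hh).1 (Nat.lt_floor_add_one ((s : ℝ) / h))
  have a3 := s'.2.2
  have a4 := (abs_le.1 h1).1
  refine mem_iUnion₂.2 ⟨⌊(s : ℝ) / h⌋₊, Finset.mem_range.2 (Nat.lt_ceil.2 ?_), by_contra fun hn => ?_⟩
  · rw [lt_div_iff₀ hh]
    linarith
  have h3 := (not_Ex hρ).1 hn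
  rw [hCUT.2.2.2.1 _ _ (by positivity) (le_min (by linarith) (by linarith)) (min_le_right _ _)] at h3
  have b1 := h3 (mem_image_of_mem γ (show s ∈ _ from ⟨a1, le_min (by linarith) s.2.2⟩))
  have b2 := h3 (mem_image_of_mem γ (show s' ∈ _ from ⟨by linarith, le_min (by linarith) a3⟩))
  have := dist_triangle_right (γ s) (γ s') (sub (⌊(s : ℝ) / h⌋₊ * h)
    (min ((⌊(s : ℝ) / h⌋₊ + 2) * h) 1) γ 0)
  rw [mem_ball] at b1 b2
  linarith

end OscA

open OscA in
theorem p_OSC (hBMK : S_BMK) (hBM : S_BM) (hGM : S_GM) (hCUT : S_CUT) (hREV : S_REV) :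
    S_OSC := by
  intro ν hν
  obtain ⟨c, C, hc, hC, -, hb⟩ := (hBM ν hν).2
  have := hν.gauss
  have := (hGM 1 one_pos).1
  refine ⟨c / 32, 4 * C + Real.exp (144 * (c / 32)), by positivity, by positivity,
    fun h hh d hd => ?_⟩
  obtain ⟨h0, h1⟩ := hh
  have e0 := Real.exp_pos (-(c / 32) * d ^ 2 / h)
  have e1 := Real.exp_pos (144 * (c / 32))
  rcases lt_or_ge d (12 * h) with hd' | hd'
  · refine prob_le_one.trans (ENNReal.one_le_ofReal.2 ?_)
    have a1 : 0 ≤ 144 * (c / 32) + -(c / 32) * d ^ 2 / h := by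
      have : d ^ 2 / h ≤ 144 := by
        rw [div_le_iff₀ h0]
        nlinarith
      rw [mul_div_assoc]
      nlinarith
    have a2 := Real.one_le_exp a1
    rw [Real.exp_add] at a2
    refine a2.trans (mul_le_mul_of_nonneg_right ?_ e0.le)
    rw [le_div_iff₀ h0]
    nlinarith
  have a1 : ∀ t > 0, ∀ x, bmM ν t x (Ex (d / 4)) ≤
      ENNReal.ofReal (C * Real.exp (-c * (d / 4) ^ 2 / t)) := fun t ht x => by
    refine le_trans (measure_mono_ae ?_) (hb t ht _ (by positivity) x)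
    filter_upwards [(hREV.2 ν hν).2.2.2.2.2.2.1 t x] with γ e hγ
    exact fun h2 => (not_Ex (by positivity)).2 (e ▸ h2) hγ
  have a2 : bmM ν 1 0 (Os h (d / 4)) ≤
      ENNReal.ofReal (2 * C / h * Real.exp (-(c / 32) * d ^ 2 / h)) := by
    refine (measure_biUnion_finset_le _ _).trans ((Finset.sum_le_card_nsmul _ _
      (ENNReal.ofReal (C * Real.exp (-(c / 32) * d ^ 2 / h))) fun k hk => ?_).trans ?_)
    · have k1 := (lt_div_iff₀ h0).1 (Nat.lt_ceil.1 (Finset.mem_range.1 hk))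
      have k2 : k * h < min ((k + 2) * h) 1 := lt_min (by linarith) k1
      have k3 := min_le_left ((k + 2) * h) 1
      refine (piece_le hBMK hBM hCUT hν a1 (by positivity) k2 (min_le_right _ _)).trans
        (ENNReal.ofReal_le_ofReal (mul_le_mul_of_nonneg_left (Real.exp_le_exp.2 ?_) hC.le))
      rw [div_le_div_iff₀ (by linarith) h0]
      nlinarith [mul_pos hc (pow_pos hd 2)]
    · rw [Finset.card_range, nsmul_eq_mul, ← ENNReal.ofReal_natCast,
        ← ENNReal.ofReal_mul (Nat.cast_nonneg _)]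
      refine ENNReal.ofReal_le_ofReal ?_
      have k1 := (Nat.ceil_lt_add_one (show 0 ≤ 1 / h by positivity)).le
      have k2 : 1 ≤ 1 / h := (le_div_iff₀ h0).2 (by linarith)
      rw [show 2 * C / h * Real.exp (-(c / 32) * d ^ 2 / h) =
        (1 / h + 1 / h) * (C * Real.exp (-(c / 32) * d ^ 2 / h)) by ring]
      gcongr
      linarith
  have a3 : 2⁻¹ ≤ gm 1 (ball 0 (d / (2 * h))) := by
    have k1 : 6 ≤ d / (2 * h) := (le_div_iff₀ (by positivity)).2 (by linarith)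
    have k2 := (hGM 1 one_pos).2.2.2.2.2.2.2.2.2 _ (show 0 < d / (2 * h) by positivity)
    have k3 : 4 * Real.exp (-(d / (2 * h)) ^ 2 / (4 * 1)) ≤ 2⁻¹ := by
      have := Real.add_one_le_exp ((d / (2 * h)) ^ 2 / (4 * 1))
      rw [neg_div, Real.exp_neg, ← div_eq_mul_inv, div_le_iff₀ (Real.exp_pos _)]
      nlinarith
    have k4 := k2.trans (ENNReal.ofReal_le_ofReal k3)
    rw [ENNReal.ofReal_inv_of_pos two_pos, ENNReal.ofReal_ofNat,
      prob_compl_eq_one_sub measurableSet_ball, tsub_le_iff_left, ← tsub_le_iff_right,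
      ENNReal.one_sub_inv_two] at k4
    exact k4
  have a4 : gm 1 (ball 0 (d / (2 * h))) *
      ν {b | ∃ s s' : unitInterval, |(s : ℝ) - s'| ≤ h ∧ d ≤ dist (b s) (b s')} ≤
      bmM ν 1 0 (Os h (d / 4)) := by
    rw [← Measure.prod_prod, bmM]
    refine le_trans (measure_mono ?_) (Measure.le_map_apply (Measurable.aemeasurable
      (Measurable.seg' measurable_const (by fun_prop) measurable_const measurable_snd)) _)
    rintro ⟨z, b⟩ ⟨hz, s, s', k1, k2⟩
    refine mem_Os hCUT h0 (by positivity) k1 ?_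
    have k3 : b s - b s' = (seg 0 (0 + z) 1 b s - seg 0 (0 + z) 1 b s') -
        (((s : ℝ) - s' : ℝ) : ℂ) * z := by
      simp only [seg_apply, Real.sqrt_one]
      push_cast
      ring
    have k4 := norm_sub_le (seg 0 (0 + z) 1 b s - seg 0 (0 + z) 1 b s')
      ((((s : ℝ) - s' : ℝ) : ℂ) * z)
    rw [← k3, norm_mul, Complex.norm_real, Real.norm_eq_abs] at k4
    have k5 := (lt_div_iff₀ (by positivity)).1 (mem_ball_zero_iff.1 hz)
    have k6 := mul_le_mul_of_nonneg_right k1 (norm_nonneg z)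
    rw [dist_eq_norm] at k2 ⊢
    linarith
  have a5 := ((mul_le_mul_left a3 _).trans a4).trans a2
  rw [ENNReal.inv_mul_le_iff two_ne_zero ENNReal.ofNat_ne_top, ← ENNReal.ofReal_ofNat,
    ← ENNReal.ofReal_mul zero_le_two] at a5
  refine a5.trans (ENNReal.ofReal_le_ofReal ?_)
  rw [← mul_assoc, ← mul_div_assoc]
  gcongr
  linarith

end Pool.Agent.P.MP_d66c6d_pr
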