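import Pool.Agent.P.MP_d66c6d_pr.J.Iface
import Pool.Agent.P.MP_d66c6d_pr.F.Iface

/-! Step PAIR of the carpet project. -/

namespace Pool.Agent.P.MP_d66c6d_pr

open MeasureTheory ProbabilityTheory Set Metric Filter Topology
open scoped ENNReal

theorem p_PAIR (hPPO : S_PPO) (hJOINT : S_JOINT) :
    S_PAIR := by
  intro E _ _ _ m hm B hB h0
  obtain ⟨-, j2, j3, j4⟩ := hJOINT E
  have hLF : ∀ᵐ S ∂PP m, LF (spanningSets m) S :=
    j2 m inferInstance _ (measurableSet_spanningSets m)
      (fun j => (measure_spanningSets_lt_top m j).ne) (by simp [iUnion_spanningSets])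
  have hB' : MeasurableSet {q : E × Cfg E × E | (q.2.2, q.1) ∈ B} :=
    (measurable_snd.snd.prodMk measurable_fst) hB
  have hBB : MeasurableSet {q : Cfg E × E | LF (spanningSets m) q.1 ∧
      ∃ x ∈ q.1.pts, (x, q.2) ∈ B} :=
    measurable_swap (j3 _ (measurableSet_spanningSets m) E _ hB').1
  have key : ∀ A : Set E, MeasurableSet A →
      ∀ᵐ S ∂PP m, ∀ x ∈ S.pts, ∀ y ∈ S.pts, x ∈ A → y ∉ A → (x, y) ∉ B := by
    intro A hA
    have h1 := j4 (m.restrict Aᶜ) inferInstance (Cfg E) (PP (m.restrict A)) inferInstance _ hBB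
      (Eventually.of_forall fun S => by
        by_cases hS : LF (spanningSets m) S
        · have hsub : S.pts ⊆ ⋃ j, S.pts ∩ spanningSets m j := fun x hx => by
            obtain ⟨j, hj⟩ := mem_iUnion.1 (hS.1 hx)
            exact mem_iUnion.2 ⟨j, hx, hj⟩
          have hc : S.pts.Countable :=
            (countable_iUnion fun j => (hS.2 j).countable).mono hsub
          refine Measure.absolutelyContinuous_restrict (measure_mono_null ?_
            ((measure_biUnion_null_iff hc).2 fun x _ => h0 x))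
          rintro y ⟨-, x, hx, hy⟩
          exact mem_iUnion₂.2 ⟨x, hx, hy⟩
        · simp [hS])
    rw [← (hPPO E m inferInstance).2.2.2.1 A Aᶜ hA hA.compl disjoint_compl_right] at h1
    filter_upwards [ae_of_ae_map ((measurable_res hA).prodMk
      (measurable_res hA.compl)).aemeasurable h1, hLF] with S hS hS' x hx y hy hxA hyA hxy
    exact hS y ⟨hy, hyA⟩ ⟨⟨inter_subset_left.trans hS'.1, fun j =>
      (hS'.2 j).subset (inter_subset_inter_left _ inter_subset_left)⟩, x, ⟨hx, hxA⟩, hxy⟩
  obtain ⟨A, hA, hs⟩ := exists_seq_separating E MeasurableSet.empty (univ : Set E)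
  filter_upwards [ae_all_iff.2 fun n => key (A n) (hA n),
    ae_all_iff.2 fun n => key (A n)ᶜ (hA n).compl] with S h1 h2 x hx y hy hxy hb
  refine hxy (hs x (mem_univ _) y (mem_univ _) fun n => ⟨fun h => ?_, fun h => ?_⟩)
  · by_contra h'
    exact h1 n x hx y hy h h' hb
  · by_contra h'
    exact h2 n x hx y hy h' (not_not.2 h) hb

end Pool.Agent.P.MP_d66c6d_pr
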