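import Pool.Agent.P.MP_d66c6d_pr.J.Iface
import Pool.Agent.P.MP_d66c6d_pr.N.Iface
import Pool.Agent.P.MP_d66c6d_pr.F.Iface
import Pool.Agent.P.MP_d66c6d_pr.B.Iface

/-! Step PAIRK of the carpet project. -/

namespace Pool.Agent.P.MP_d66c6d_pr

open MeasureTheory ProbabilityTheory Set Metric Filter Topology
open scoped ENNReal

namespace PairkA

theorem isClosed_mem : IsClosed {p : ℂ × KC | p.1 ∈ (p.2 : Set ℂ)} := by
  have e : {p : ℂ × KC | p.1 ∈ (p.2 : Set ℂ)} = {p : ℂ × KC | infDist p.1 (p.2 : Set ℂ) = 0} := by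
    ext p
    exact p.2.isCompact.isClosed.mem_iff_infDist_zero p.2.nonempty
  rw [e]
  exact isClosed_eq Metric.lipschitz_infDist.continuous continuous_const

theorem isClosed_aux (R a : ℝ) : IsClosed {p : KC × KC | ∃ x : closedBall (0 : ℂ) R,
    (x : ℂ) ∈ (p.1 : Set ℂ) ∧ (x : ℂ) ∈ (p.2 : Set ℂ) ∧
      ∀ v ∈ closedBall (0 : ℂ) a, (x : ℂ) + v ∈ fill (p.2 : Set ℂ)} := by
  have : CompactSpace (closedBall (0 : ℂ) R) := isCompact_iff_compactSpace.1 (isCompact_closedBall _ _)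
  have h : IsClosed {q : (KC × KC) × closedBall (0 : ℂ) R |
      (q.2 : ℂ) ∈ (q.1.1 : Set ℂ) ∧ (q.2 : ℂ) ∈ (q.1.2 : Set ℂ) ∧
      ∀ v ∈ closedBall (0 : ℂ) a, (q.2 : ℂ) + v ∈ fill (q.1.2 : Set ℂ)} := by
    refine (isClosed_mem.preimage (f := fun q : (KC × KC) × closedBall (0 : ℂ) R =>
      ((q.2 : ℂ), q.1.1)) (by fun_prop)).inter
      ((isClosed_mem.preimage (f := fun q : (KC × KC) × closedBall (0 : ℂ) R =>
      ((q.2 : ℂ), q.1.2)) (by fun_prop)).inter ?_)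
    change IsClosed {q : (KC × KC) × closedBall (0 : ℂ) R |
      ∀ v ∈ closedBall (0 : ℂ) a, (q.2 : ℂ) + v ∈ fill (q.1.2 : Set ℂ)}
    simp only [ofPred_forall]
    exact isClosed_iInter fun v => isClosed_iInter fun _ =>
      isClosed_fillK.preimage (f := fun q : (KC × KC) × closedBall (0 : ℂ) R =>
        ((q.2 : ℂ) + v, q.1.2)) (by fun_prop)
  have h2 := isClosedMap_fst_of_compactSpace _ h
  refine (congrArg IsClosed ?_).mp h2
  ext p
  constructor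
  · rintro ⟨q, hq, rfl⟩
    exact ⟨q.2, hq⟩
  · rintro ⟨x, hx⟩
    exact ⟨(p, x), hx, rfl⟩

theorem meas_int : MeasurableSet {p : KC × KC |
    ((p.1 : Set ℂ) ∩ (p.2 : Set ℂ) ∩ interior (fill (p.2 : Set ℂ))).Nonempty} := by
  have e : {p : KC × KC | ((p.1 : Set ℂ) ∩ (p.2 : Set ℂ) ∩ interior (fill (p.2 : Set ℂ))).Nonempty} =
      ⋃ R : ℕ, ⋃ n : ℕ, {p : KC × KC | ∃ x : closedBall (0 : ℂ) R,
        (x : ℂ) ∈ (p.1 : Set ℂ) ∧ (x : ℂ) ∈ (p.2 : Set ℂ) ∧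
        ∀ v ∈ closedBall (0 : ℂ) (1 / ((n : ℝ) + 1)), (x : ℂ) + v ∈ fill (p.2 : Set ℂ)} := by
    ext p
    simp only [mem_iUnion]
    constructor
    · rintro ⟨x, ⟨h1, h2⟩, h3⟩
      obtain ⟨r, hr, hb⟩ := Metric.isOpen_iff.1 isOpen_interior x h3
      obtain ⟨n, hn⟩ := exists_nat_one_div_lt hr
      obtain ⟨R, hR⟩ := exists_nat_ge ‖x‖
      refine ⟨R, n, ⟨x, mem_closedBall_zero_iff.2 hR⟩, h1, h2, fun v hv => ?_⟩
      refine interior_subset (hb ?_)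
      rw [mem_ball, dist_eq_norm, add_sub_cancel_left]
      exact (mem_closedBall_zero_iff.1 hv).trans_lt hn
    · rintro ⟨R, n, x, h1, h2, h3⟩
      refine ⟨x, ⟨h1, h2⟩, mem_interior.2 ⟨ball x (1 / ((n : ℝ) + 1)), fun y hy => ?_, isOpen_ball,
        mem_ball_self (by positivity)⟩⟩
      have := h3 (y - x) (mem_closedBall_zero_iff.2 (by rw [← dist_eq_norm]; exact (mem_ball.1 hy).le))
      rwa [add_sub_cancel] at this
  rw [e]
  exact MeasurableSet.iUnion fun R => MeasurableSet.iUnion fun n => (isClosed_aux _ _).measurableSet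

theorem circ (hCUT : S_CUT) {F : Set ℂ} (hF : IsClosed F) {γ : Br} (h : CircH F γ)
    (h01 : γ 0 = γ 1) (hne : (F ∩ range γ).Nonempty) :
    (F ∩ range γ ∩ interior (fill (range γ))).Nonempty := by
  obtain ⟨_, hx, t, rfl⟩ := hne
  have hc : IsClosed {t : unitInterval | γ t ∈ F} := hF.preimage γ.continuous
  obtain ⟨τ, hτ, hmin⟩ := hc.isCompact.exists_isLeast ⟨t, hx⟩
  have h1 : (τ : ℝ) < 1 := by
    refine lt_of_le_of_ne τ.2.2 fun h1 => ?_
    have e : τ = 1 := Subtype.ext h1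
    have h0 : γ 0 ∈ F := by rw [h01, ← e]; exact hτ
    have := hmin h0
    rw [e] at this
    exact absurd this (by norm_num)
  obtain ⟨a, ha, hE⟩ := h τ h1 hτ (fun s hs hs' => absurd (hmin hs') (not_le.2 hs)) 1 one_pos
  refine ⟨γ τ, ⟨hτ, τ, rfl⟩, mem_interior.2 ⟨ball (γ τ) a, ?_, isOpen_ball, mem_ball_self ha⟩⟩
  exact ball_subset_closedBall.trans (hE.trans
    (fill_mono (inter_subset_left.trans (hCUT.2.2.1 _ _ γ))))

end PairkA

theorem p_PAIRK (hPAIR : S_PAIR) (hSOLID : S_SOLID) (hHITG : S_HITG) (hPPO : S_PPO) (hMUK : S_MUK) (hDEC : S_DEC) (hCUT : S_CUT) (hREV : S_REV) :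
    S_PAIRK := by
  intro ν hν c
  have hs := (hDEC.2 ν hν c).1
  have h1 := (hPPO KC (ENNReal.ofReal c • muK ν) inferInstance).2.2.2.2.2.1 (fun K => Solid K)
    (Measure.ae_smul_measure (hSOLID ν hν) _)
  have hB : MeasurableSet ({p : KC × KC | ((p.1 : Set ℂ) ∩ (p.2 : Set ℂ)).Nonempty} ∩
      {p : KC × KC |
        ((p.1 : Set ℂ) ∩ (p.2 : Set ℂ) ∩ interior (fill (p.2 : Set ℂ))).Nonempty}ᶜ) :=
    isClosed_meetK.measurableSet.inter PairkA.meas_int.compl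
  have h2 := hPAIR KC (ENNReal.ofReal c • muK ν) hs _ hB fun K => by
    have h3 : ∀ᵐ K' : KC ∂muK ν, ((K : Set ℂ) ∩ (K' : Set ℂ)).Nonempty →
        ((K : Set ℂ) ∩ (K' : Set ℂ) ∩ interior (fill (K' : Set ℂ))).Nonempty := by
      refine (hMUK ν hν).2.2.2.2.2.2.1 _ ?_
      filter_upwards [((hHITG ν hν).1 K K.isCompact.isClosed).2.2,
        (hREV.2 ν hν).2.2.2.2.2.2.2] with l hl hl2 hne
      exact PairkA.circ hCUT K.isCompact.isClosed hl (hl2.2.1.trans hl2.2.2.symm) hne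
    have h4 := Measure.ae_smul_measure h3 (ENNReal.ofReal c)
    rw [ae_iff] at h4
    refine measure_mono_null ?_ h4
    intro K' hK' h
    exact hK'.2 (h hK'.1)
  filter_upwards [h1, h2] with S hS1 hS2
  rintro _ ⟨K, hK, rfl⟩
  refine ⟨hS1 K hK, ?_⟩
  rintro _ ⟨K', hK', rfl⟩ hne hm
  by_contra hn
  exact hS2 K hK K' hK' (fun h => hne (by rw [h])) ⟨hm, hn⟩

end Pool.Agent.P.MP_d66c6d_pr
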