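import Pool.Agent.P.MP_d66c6d_pr.J.Iface
import Pool.Agent.P.MP_d66c6d_pr.N.Iface
import Pool.Agent.P.MP_d66c6d_pr.B.Iface

/-! Step REC of the carpet project. -/

namespace Pool.Agent.P.MP_d66c6d_pr

open MeasureTheory ProbabilityTheory Set Metric Filter Topology
open scoped ENNReal

namespace RecA

theorem meas_av {K : Set ℂ} (hK : IsClosed K) : MeasurableSet {γ : Br | Disjoint (range γ) K} := by
  simpa only [subset_compl_iff_disjoint_right] using
    (isOpen_rangeSub hK.isOpen_compl).measurableSet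

theorem mom (hGM : S_GM) {b : ℝ} (hb : 0 < b) :
    ∫⁻ z, ENNReal.ofReal ‖z‖ ∂gm (b ^ 2) ≤ ENNReal.ofReal (3 * b) := by
  have h0 : 0 < b ^ 2 := by positivity
  obtain ⟨hg, -, -, -, h1, h2, -⟩ := hGM _ h0
  have i1 := Integrable.of_integral_ne_zero (h1.trans_ne h0.ne')
  have i2 := Integrable.of_integral_ne_zero (h2.trans_ne h0.ne')
  have i3 : Integrable (fun z : ℂ => (z.re * z.re + z.im * z.im) / b) (gm (b ^ 2)) :=
    (i1.add i2).div_const b
  have e : ∫ z : ℂ, (b + (z.re * z.re + z.im * z.im) / b) ∂gm (b ^ 2) = 3 * b := by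
    rw [integral_add (integrable_const b) i3, integral_div, integral_add i1 i2, h1, h2]
    simp only [integral_const, probReal_univ, smul_eq_mul]
    field_simp
    ring
  have i4 : Integrable (fun z : ℂ => b + (z.re * z.re + z.im * z.im) / b) (gm (b ^ 2)) :=
    (integrable_const b).add i3
  rw [← e, ofReal_integral_eq_lintegral_ofReal i4
    (Eventually.of_forall fun z => add_nonneg hb.le
      (div_nonneg (add_nonneg (mul_self_nonneg _) (mul_self_nonneg _)) hb.le))]
  refine lintegral_mono fun z => ENNReal.ofReal_le_ofReal ?_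
  change ‖z‖ ≤ b + (z.re * z.re + z.im * z.im) / b
  rw [← Complex.normSq_apply, ← Complex.sq_norm, ← sub_le_iff_le_add', le_div_iff₀ hb]
  nlinarith [sq_nonneg (‖z‖ - b), sq_nonneg b, norm_nonneg z]

theorem real_bd {α w ρ t s : ℝ} (h0 : 0 < α) (h1 : α ≤ 1) (hw : 0 < w) (hρ : 0 ≤ ρ) (ht : 0 < t)
    (hs : s ≤ 1 / 4) : ((w + ρ) / √((1 - s) * t)) ^ α ≤
      6 / 5 * (w / √t) ^ α + 6 / 5 * (w / √t) ^ α * α / w * ρ := by
  have q0 := Real.sqrt_pos.2 ht
  have q1 : 5 / 6 * √t ≤ √((1 - s) * t) :=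
    Real.le_sqrt_of_sq_le (by rw [mul_pow, Real.sq_sqrt ht.le]; nlinarith)
  have q2 : (w + ρ) / √((1 - s) * t) ≤ 6 / 5 * (w / √t) * (1 + ρ / w) :=
    (div_le_div_of_nonneg_left (by positivity) (by positivity) q1).trans_eq (by field_simp)
  refine (Real.rpow_le_rpow (by positivity) q2 h0.le).trans ?_
  rw [Real.mul_rpow (by positivity) (by positivity), Real.mul_rpow (by positivity) (by positivity)]
  have q3 : (6 / 5 : ℝ) ^ α ≤ 6 / 5 := Real.rpow_le_self_of_one_le (by norm_num) h1
  have q4 : (1 + ρ / w) ^ α ≤ 1 + α * (ρ / w) :=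
    rpow_one_add_le_one_add_mul_self (le_trans (by norm_num) (div_nonneg hρ hw.le)) h0.le h1
  refine le_trans (b := 6 / 5 * (w / √t) ^ α * (1 + α * (ρ / w))) (by gcongr) (le_of_eq ?_)
  ring

/-- The bound with the constant `M` above the scale `ε`. -/
def Bd (ν : Measure Br) (K : Set ℂ) (α r ε M : ℝ) : Prop :=
  ∀ t ∈ Ioc (0 : ℝ) (r ^ 2), ∀ (v : ℂ) (w : ℝ), ε ≤ w → infDist v K ≤ w →
    bmM ν t v {γ | Disjoint (range γ) K} ≤ ENNReal.ofReal (M * (w / √t) ^ α)

theorem step (hBMK : S_BMK) (hGM : S_GM) (hCUT : S_CUT) (hBM : S_BM) {ν : Measure Br}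
    (hν : IsBridge ν) {K : Set ℂ} (hK : IsClosed K) {a α r ε M M' : ℝ} (ha : a ∈ Ioc (0 : ℝ) 1)
    (h0 : 0 < α) (h1 : α ≤ a / 24) (hr : 0 < r) (hε : 0 < ε) (hM : 0 ≤ M) (m1 : 2 / a ≤ M')
    (m2 : 3 / 4 * M ≤ M')
    (hc : ∀ (w : ℝ) (v : ℂ), 0 < w → w ≤ a * r → infDist v K ≤ w →
      bmM ν ((w / a) ^ 2) v {γ | Disjoint (range γ) K} ≤ 2⁻¹)
    (h : Bd ν K α r ε M) : Bd ν K α r ε M' := by
  intro t ht v w hεw hv
  have hw := hε.trans_le hεw
  have a0 := ha.1
  have t0 := ht.1
  have q0 := Real.sqrt_pos.2 t0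
  have h1' : α ≤ 1 := by linarith [ha.2]
  have x0 : 0 ≤ (w / √t) ^ α := by positivity
  rcases le_or_gt t (4 * (w / a) ^ 2) with hτ | hτ
  · have := ((hBM ν hν).1 t t0 v).1
    refine prob_le_one.trans (ENNReal.one_le_ofReal.2 ?_)
    have q1 : √t ≤ 2 * (w / a) := Real.sqrt_le_iff.2 ⟨by positivity, by linarith⟩
    have q2 : 1 ≤ 2 / a * (w / √t) := by
      rw [← mul_div_assoc, one_le_div q0]
      exact q1.trans_eq (by ring)
    have q3 := Real.one_le_rpow q2 h0.le
    rw [Real.mul_rpow (by positivity) (by positivity)] at q3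
    have q4 : (2 / a) ^ α ≤ 2 / a :=
      Real.rpow_le_self_of_one_le ((one_le_div a0).2 (by linarith [ha.2])) h1'
    exact q3.trans (mul_le_mul_of_nonneg_right (q4.trans m1) x0)
  have b0 : 0 < w / a := by positivity
  set s := (w / a) ^ 2 / t with hs
  have s0 : 0 < s := by positivity
  have s1 : s ≤ 1 / 4 := (div_le_iff₀ t0).2 (by linarith)
  have st : s * t = (w / a) ^ 2 := div_mul_cancel₀ _ t0.ne'
  have hS := meas_av hK
  have me : Measurable fun γ : Br => γ 1 := Measurable.evalBr measurable_id measurable_const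
  have key := ((hBMK ν hν).2 t t0 v).1 s ⟨s0, by linarith⟩
    (fun p => {γ : Br | Disjoint (range γ) K}.indicator 1 p.1 *
      {γ : Br | Disjoint (range γ) K}.indicator 1 p.2)
    (((measurable_one.indicator hS).comp measurable_fst).mul
      ((measurable_one.indicator hS).comp measurable_snd))
  simp only [lintegral_const_mul _ (measurable_one.indicator hS), lintegral_indicator_one hS,
    st] at key
  set c := M * (6 / 5 * (w / √t) ^ α) with hcd
  have c0 : 0 ≤ c := by positivity
  have e1 : ∫⁻ γ, ENNReal.ofReal ‖γ 1 - v‖ ∂bmM ν ((w / a) ^ 2) v ≤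
      ENNReal.ofReal (3 * (w / a)) := by
    have m : Measurable fun z : ℂ => ENNReal.ofReal ‖z - v‖ := by fun_prop
    rw [← lintegral_map m me, ((hBMK ν hν).2 _ (by positivity) v).2.2.2.1,
      lintegral_map m (by fun_prop)]
    simpa only [add_sub_cancel_left] using mom hGM b0
  calc bmM ν t v {γ | Disjoint (range γ) K}
      ≤ ∫⁻ γ, {γ : Br | Disjoint (range γ) K}.indicator 1 γ *
          bmM ν ((1 - s) * t) (γ 1) {γ | Disjoint (range γ) K} ∂bmM ν ((w / a) ^ 2) v := by
        rw [← lintegral_indicator_one hS]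
        refine le_trans (lintegral_mono fun γ => indicator_apply_le' (fun hγ => ?_)
          fun _ => zero_le) key.le
        rw [indicator_of_mem (show sub 0 s γ ∈ {γ : Br | Disjoint (range γ) K} from
            Disjoint.mono_left (hCUT.2.2.1 _ _ γ) hγ),
          indicator_of_mem (show sub s 1 γ ∈ {γ : Br | Disjoint (range γ) K} from
            Disjoint.mono_left (hCUT.2.2.1 _ _ γ) hγ)]
        simp
    _ ≤ ∫⁻ γ, (ENNReal.ofReal c * {γ : Br | Disjoint (range γ) K}.indicator 1 γ +
          ENNReal.ofReal (c * α / w) * ENNReal.ofReal ‖γ 1 - v‖) ∂bmM ν ((w / a) ^ 2) v := by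
        refine lintegral_mono fun γ => ?_
        by_cases hγ : γ ∈ {γ : Br | Disjoint (range γ) K}
        · simp only [indicator_of_mem hγ, Pi.one_apply, one_mul, mul_one]
          refine (h _ ⟨mul_pos (by linarith) t0, le_trans (by nlinarith) ht.2⟩ _ (w + ‖γ 1 - v‖)
            (le_add_of_le_of_nonneg hεw (norm_nonneg _)) ?_).trans ?_
          · rw [← dist_eq_norm]
            linarith [infDist_le_infDist_add_dist (x := γ 1) (y := v) (s := K)]
          · rw [← ENNReal.ofReal_mul (by positivity),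
              ← ENNReal.ofReal_add c0 (by positivity)]
            refine ENNReal.ofReal_le_ofReal ((mul_le_mul_of_nonneg_left
              (real_bd h0 h1' hw (norm_nonneg _) t0 s1) hM).trans_eq ?_)
            rw [hcd]
            ring
        · simp [indicator_of_notMem hγ]
    _ ≤ ENNReal.ofReal c * 2⁻¹ + ENNReal.ofReal (c * α / w) * ENNReal.ofReal (3 * (w / a)) := by
        rw [lintegral_add_left ((measurable_one.indicator hS).const_mul _),
          lintegral_const_mul _ (measurable_one.indicator hS), lintegral_indicator_one hS,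
          lintegral_const_mul _ (by fun_prop)]
        gcongr
        refine hc w v hw ?_ hv
        rw [← div_le_iff₀' a0]
        exact le_of_sq_le_sq (by nlinarith [ht.2]) hr.le
    _ ≤ ENNReal.ofReal (M' * (w / √t) ^ α) := by
        rw [← ENNReal.ofReal_ofNat, ← ENNReal.ofReal_inv_of_pos two_pos,
          ← ENNReal.ofReal_mul c0, ← ENNReal.ofReal_mul (by positivity),
          ← ENNReal.ofReal_add (by positivity) (by positivity)]
        refine ENNReal.ofReal_le_ofReal (le_trans ?_ (mul_le_mul_of_nonneg_right m2 x0))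
        have q1 : c * α / w * (3 * (w / a)) = c * (3 * (α / a)) := by field_simp
        have q2 : α / a ≤ 1 / 24 := (div_le_iff₀ a0).2 (by linarith)
        have q3 := mul_le_mul_of_nonneg_left q2 c0
        rw [q1]
        linarith

end RecA

theorem p_REC (hBMC : S_BMC) (hBMK : S_BMK) (hGM : S_GM) (hCUT : S_CUT) (hBM : S_BM) (hREV : S_REV) :
    S_REC := by
  have _ := hREV
  intro ν hν
  obtain ⟨a, ha, hc⟩ := hBMC ν hν
  have a0 := ha.1
  refine ⟨a / 24, ⟨by positivity, by linarith [ha.2]⟩, 2 / a + 1, by positivity,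
    fun K r hr hK t ht v w hw hv => ?_⟩
  have h : ∀ k : ℕ, RecA.Bd ν K (a / 24) r w (2 / a + (3 / 4) ^ k * ((w / r) ^ (a / 24))⁻¹) := by
    intro k
    induction k with
    | zero =>
      intro t ht v w' hw' _
      have := ((hBM ν hν).1 t ht.1 v).1
      refine prob_le_one.trans (ENNReal.one_le_ofReal.2 ?_)
      have q1 : w / r ≤ w' / √t := div_le_div₀ (hw.le.trans hw') hw' (Real.sqrt_pos.2 ht.1)
        (Real.sqrt_le_iff.2 ⟨hr.le, ht.2⟩)
      have q2 := Real.rpow_le_rpow (by positivity) q1 (show 0 ≤ a / 24 by positivity)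
      have q3 : 0 < (w / r) ^ (a / 24) := by positivity
      rw [pow_zero, one_mul, add_mul]
      exact le_add_of_nonneg_of_le (mul_nonneg (by positivity) (q3.le.trans q2))
        ((one_le_inv_mul₀ q3).2 q2)
    | succ k ih =>
      refine RecA.step hBMK hGM hCUT hBM hν hK.1 ha (by positivity) le_rfl hr hw (by positivity)
        (le_add_of_nonneg_right (by positivity)) ?_ (fun w v => hc K r w v hK) ih
      have : 0 ≤ 2 / a := by positivity
      rw [pow_succ]
      linarith
  obtain ⟨k, hk⟩ := exists_pow_lt_of_lt_one (show 0 < (w / r) ^ (a / 24) by positivity)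
    (show (3 / 4 : ℝ) < 1 by norm_num)
  refine (h k t ht v w le_rfl hv).trans (ENNReal.ofReal_le_ofReal
    (mul_le_mul_of_nonneg_right (add_le_add_right ?_ _) (by positivity)))
  exact (mul_inv_le_iff₀ (by positivity)).2 (by rw [one_mul]; exact hk.le)

end Pool.Agent.P.MP_d66c6d_pr
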