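import Pool.Agent.P.MP_d66c6d_pr.J.Iface2

/-! Step SCHG of the carpet project. -/

namespace Pool.Agent.P.MP_d66c6d_pr

open MeasureTheory ProbabilityTheory Set Metric Filter Topology
open scoped ENNReal

namespace SchgA

theorem cont_inv {S : Set ℂ} (hS : IsCompact S) {f g : ℂ → ℂ} (hf : ContinuousOn f S)
    (hi : InjOn f S) (hg : ∀ y ∈ f '' S, g y ∈ S ∧ f (g y) = y) : ContinuousOn g (f '' S) := by
  rw [continuousOn_iff_isClosed]
  intro t ht
  refine ⟨f '' (S ∩ t), ((hS.inter_right ht).image_of_continuousOn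
    (hf.mono inter_subset_left)).isClosed, ?_⟩
  ext y
  constructor
  · rintro ⟨h1, h2⟩
    exact ⟨⟨g y, ⟨(hg y h2).1, h1⟩, (hg y h2).2⟩, h2⟩
  · rintro ⟨⟨x, ⟨hx1, hx2⟩, rfl⟩, h2⟩
    refine ⟨?_, h2⟩
    have : g (f x) = x := hi (hg _ h2).1 hx1 (hg _ h2).2
    rw [mem_preimage, this]
    exact hx2

theorem unit_mem {z : ℂ} (hz : z ≠ 0) : z / (‖z‖ : ℂ) ∈ sphere (0 : ℂ) 1 := by
  have : ‖z‖ ≠ 0 := norm_ne_zero_iff.2 hz
  simp [this]

theorem glue (F : Set ℂ) (hF : IsClosed F) (ps H k : ℂ → ℂ)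
    (hpc : ContinuousOn ps (closedBall 0 1 \ {0})) (hpi : InjOn ps (closedBall 0 1 \ {0}))
    (hpb : ps '' (ball 0 1 \ {0}) = Fᶜ) (hps : ps '' sphere 0 1 = frontier F)
    (hp0 : Tendsto ps (𝓝[closedBall 0 1 \ {0}] 0) (Bornology.cobounded ℂ))
    (hH : IntMap F H) (hkc : ContinuousOn k (sphere 0 1))
    (hk : ∀ z ∈ sphere (0 : ℂ) 1, k z ∈ sphere (0 : ℂ) 1 ∧ ps (k z) = H z) :
    IsJordan (interior F) := by
  classical
  obtain ⟨hHc, hHi, hHb, hHs⟩ := hH
  set m : ℂ → ℂ := fun z => k (z / (‖z‖ : ℂ)) / (‖z‖ : ℂ) with hm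
  set φ : ℂ → ℂ := fun z => if ‖z‖ ≤ 1 then H z else ps (m z) with hφ
  have hsub : sphere (0 : ℂ) 1 ⊆ closedBall 0 1 \ {0} := by
    intro z hz
    refine ⟨sphere_subset_closedBall hz, ?_⟩
    rintro rfl
    simp at hz
  have hmn : ∀ z : ℂ, z ≠ 0 → ‖m z‖ = ‖z‖⁻¹ := by
    intro z hz
    have h1 := (hk _ (unit_mem hz)).1
    rw [mem_sphere_zero_iff_norm] at h1
    simp only [hm, norm_div, h1, Complex.norm_real, norm_norm, one_div]
  have hne : ∀ z : ℂ, 1 ≤ ‖z‖ → z ≠ 0 := by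
    rintro z hz rfl
    norm_num at hz
  have hmm : ∀ z : ℂ, 1 ≤ ‖z‖ → m z ∈ closedBall (0 : ℂ) 1 \ {0} := by
    intro z hz
    have h := hmn z (hne z hz)
    refine ⟨mem_closedBall_zero_iff.2 (h ▸ inv_le_one_of_one_le₀ hz), ?_⟩
    intro h0
    rw [mem_singleton_iff] at h0
    rw [h0, norm_zero] at h
    have : (0 : ℝ) < ‖z‖⁻¹ := inv_pos.2 (by linarith)
    linarith
  have hmb : ∀ z : ℂ, 1 < ‖z‖ → m z ∈ ball (0 : ℂ) 1 \ {0} := by
    intro z hz
    have h := hmn z (hne z hz.le)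
    exact ⟨mem_ball_zero_iff.2 (h ▸ inv_lt_one_of_one_lt₀ hz), (hmm z hz.le).2⟩
  have hnc : Continuous fun z : ℂ => (‖z‖ : ℂ) := Complex.continuous_ofReal.comp continuous_norm
  have hn0 : ∀ z : ℂ, z ≠ 0 → (‖z‖ : ℂ) ≠ 0 := fun z hz =>
    Complex.ofReal_ne_zero.2 (norm_ne_zero_iff.2 hz)
  have hmc : ContinuousOn m {z : ℂ | 1 ≤ ‖z‖} := by
    refine ContinuousOn.div (hkc.comp (continuousOn_id.div hnc.continuousOn
      fun z hz => hn0 z (hne z hz)) fun z hz => unit_mem (hne z hz)) hnc.continuousOn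
      fun z hz => hn0 z (hne z hz)
  have hcont : Continuous φ := by
    refine continuous_if_le continuous_norm continuous_const ?_ (hpc.comp hmc hmm) ?_
    · refine hHc.mono fun z hz => mem_closedBall_zero_iff.2 hz
    · intro z hz
      have h1 : m z = k z := by simp only [hm, hz, Complex.ofReal_one, div_one]
      rw [h1, (hk z (mem_sphere_zero_iff_norm.2 hz)).2]
  have hin : ∀ z : ℂ, ‖z‖ ≤ 1 → H z ∈ F := by
    intro z hz
    rcases hz.lt_or_eq with h | h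
    · exact interior_subset (hHb ▸ mem_image_of_mem H (mem_ball_zero_iff.2 h))
    · exact hF.frontier_subset (hHs ▸ mem_image_of_mem H (mem_sphere_zero_iff_norm.2 h))
  have hout : ∀ z : ℂ, ¬ ‖z‖ ≤ 1 → ps (m z) ∉ F := by
    intro z hz
    have : ps (m z) ∈ Fᶜ := hpb ▸ mem_image_of_mem ps (hmb z (not_le.1 hz))
    exact this
  have hinj : Function.Injective φ := by
    intro z w h
    by_cases hz : ‖z‖ ≤ 1 <;> by_cases hw : ‖w‖ ≤ 1 <;> simp only [hφ, hz, hw, if_true,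
      if_false] at h
    · exact hHi (mem_closedBall_zero_iff.2 hz) (mem_closedBall_zero_iff.2 hw) h
    · exact absurd (h ▸ hin z hz) (hout w hw)
    · exact absurd (h ▸ hin w hw) (hout z hz)
    · have hz' := (not_le.1 hz).le
      have hw' := (not_le.1 hw).le
      have h1 := hpi (hmm z hz') (hmm w hw') h
      have h2 : ‖z‖ = ‖w‖ := by
        have := hmn z (hne z hz')
        rw [h1, hmn w (hne w hw')] at this
        exact (inv_injective this).symm
      have h3 : k (z / (‖z‖ : ℂ)) = k (w / (‖w‖ : ℂ)) := by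
        have h4 : k (z / (‖z‖ : ℂ)) / (‖z‖ : ℂ) = k (w / (‖w‖ : ℂ)) / (‖w‖ : ℂ) := h1
        rw [← h2] at h4 ⊢
        exact (div_left_inj' (hn0 z (hne z hz'))).1 h4
      have h5 : H (z / (‖z‖ : ℂ)) = H (w / (‖w‖ : ℂ)) := by
        rw [← (hk _ (unit_mem (hne z hz'))).2, ← (hk _ (unit_mem (hne w hw'))).2, h3]
      have h6 := hHi (sphere_subset_closedBall (unit_mem (hne z hz')))
        (sphere_subset_closedBall (unit_mem (hne w hw'))) h5
      rw [← h2] at h6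
      exact (div_left_inj' (hn0 z (hne z hz'))).1 h6
  have hsurj : Function.Surjective φ := by
    intro y
    by_cases hy : y ∈ F
    · have h1 : y ∈ interior F ∪ frontier F := by
        rw [← closure_eq_interior_union_frontier]
        exact subset_closure hy
      rcases h1 with h1 | h1
      · obtain ⟨z, hz, rfl⟩ := hHb ▸ h1
        exact ⟨z, if_pos (mem_ball_zero_iff.1 hz).le⟩
      · obtain ⟨z, hz, rfl⟩ := hHs ▸ h1
        exact ⟨z, if_pos (mem_sphere_zero_iff_norm.1 hz).le⟩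
    · have h1 : y ∈ ps '' (ball 0 1 \ {0}) := hpb ▸ hy
      obtain ⟨u, ⟨hu1, hu0⟩, rfl⟩ := h1
      have hu0' : u ≠ 0 := hu0
      have h2 : ps (u / (‖u‖ : ℂ)) ∈ H '' sphere 0 1 := by
        rw [hHs, ← hps]
        exact mem_image_of_mem ps (unit_mem hu0')
      obtain ⟨ζ, hζ, h3⟩ := h2
      have h4 : k ζ = u / (‖u‖ : ℂ) :=
        hpi (hsub (hk ζ hζ).1) (hsub (unit_mem hu0')) ((hk ζ hζ).2.trans h3)
      have hup : 0 < ‖u‖ := norm_pos_iff.2 hu0'
      have h5 : ‖ζ / (‖u‖ : ℂ)‖ = ‖u‖⁻¹ := by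
        rw [norm_div, mem_sphere_zero_iff_norm.1 hζ, Complex.norm_real, norm_norm, one_div]
      have h6 : ¬ ‖ζ / (‖u‖ : ℂ)‖ ≤ 1 := by
        rw [h5, not_le]
        exact (one_lt_inv₀ hup).2 (mem_ball_zero_iff.1 hu1)
      refine ⟨ζ / (‖u‖ : ℂ), (if_neg h6).trans ?_⟩
      congr 1
      have h7 := hn0 u hu0'
      have h8 : ζ / (‖u‖ : ℂ) / ((‖u‖⁻¹ : ℝ) : ℂ) = ζ := by
        push_cast
        field_simp
      simp only [hm, h5, h8, h4]
      push_cast
      field_simp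
  have hev : ∀ᶠ z in Bornology.cobounded ℂ, 1 < ‖z‖ :=
    (tendsto_norm_cobounded_atTop (E := ℂ)).eventually (eventually_gt_atTop 1)
  have hm0 : Tendsto m (Bornology.cobounded ℂ) (𝓝[closedBall 0 1 \ {0}] 0) := by
    refine tendsto_nhdsWithin_iff.2 ⟨?_, hev.mono fun z hz => hmm z hz.le⟩
    rw [tendsto_zero_iff_norm_tendsto_zero]
    refine (tendsto_inv_atTop_zero.comp (tendsto_norm_cobounded_atTop (E := ℂ))).congr' ?_
    exact hev.mono fun z hz => (hmn z (hne z hz.le)).symm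
  have hprop : IsProperMap φ := by
    rw [isProperMap_iff_tendsto_cocompact]
    refine ⟨hcont, ?_⟩
    rw [← Metric.cobounded_eq_cocompact]
    refine (hp0.comp hm0).congr' (hev.mono fun z hz => ?_)
    exact (if_neg (not_le.2 hz)).symm
  have hhom : IsHomeomorph φ :=
    isHomeomorph_iff_continuous_isClosedMap_bijective.2 ⟨hcont, hprop.isClosedMap, hinj, hsurj⟩
  refine ⟨hhom.homeomorph φ, ?_⟩
  rw [← hHb]
  refine image_congr fun z hz => ?_
  exact (if_pos (mem_ball_zero_iff.1 hz).le : φ z = H z).symm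

end SchgA

theorem p_SCHG :
    S_SCHG := by
  intro F a G H hF hG hH
  obtain ⟨hGc, hGi, hG0, hGb, hGs⟩ := hG
  have h0 : (0 : ℂ) ∈ closedBall (0 : ℂ) 1 := mem_closedBall_self zero_le_one
  have hne : ∀ z ∈ closedBall (0 : ℂ) 1 \ {0}, G z ≠ 0 := fun z hz h =>
    hz.2 (hGi hz.1 h0 (h.trans hG0.symm))
  set ps : ℂ → ℂ := fun z => a + (G z)⁻¹ with hps
  have hpc : ContinuousOn ps (closedBall 0 1 \ {0}) :=
    continuousOn_const.add ((hGc.mono sdiff_subset).inv₀ hne)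
  have hpi : InjOn ps (closedBall 0 1 \ {0}) := fun z hz w hw h =>
    hGi hz.1 hw.1 (inv_injective (add_left_cancel h))
  have hsub : sphere (0 : ℂ) 1 ⊆ closedBall 0 1 \ {0} := by
    intro z hz
    refine ⟨sphere_subset_closedBall hz, ?_⟩
    rintro rfl
    simp at hz
  have hinv : ∀ y ∈ ps '' sphere 0 1, Function.invFunOn ps (sphere 0 1) y ∈ sphere (0 : ℂ) 1 ∧
      ps (Function.invFunOn ps (sphere 0 1) y) = y := fun y hy => Function.invFunOn_pos hy
  have hHm : ∀ z ∈ sphere (0 : ℂ) 1, H z ∈ ps '' sphere 0 1 := by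
    intro z hz
    rw [hGs, ← hH.2.2.2]
    exact mem_image_of_mem H hz
  refine SchgA.glue F hF.isClosed ps H (fun z => Function.invFunOn ps (sphere 0 1) (H z)) hpc hpi
    hGb hGs ?_ hH ?_ fun z hz => hinv _ (hHm z hz)
  · have h1 : Tendsto G (𝓝[closedBall 0 1 \ {0}] 0) (𝓝[≠] 0) := by
      refine tendsto_nhdsWithin_iff.2 ⟨?_, eventually_nhdsWithin_of_forall hne⟩
      have := (hGc 0 h0).mono (sdiff_subset (t := {0}))
      rwa [ContinuousWithinAt, hG0] at this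
    have h2 := Filter.tendsto_inv₀_nhdsNE_zero.comp h1
    exact (tendsto_const_add_cobounded a).comp h2
  · exact (SchgA.cont_inv (isCompact_sphere 0 1) (hpc.mono hsub) (hpi.mono hsub) hinv).comp
      (hH.1.mono sphere_subset_closedBall) hHm

end Pool.Agent.P.MP_d66c6d_pr
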