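import Pool.Agent.P.MP_d66c6d_pr.J.Iface
import Pool.Agent.P.MP_d66c6d_pr.B.Iface
import Pool.Agent.P.MP_d66c6d_pr.F.Iface

/-! Step SOLID of the carpet project. -/

namespace Pool.Agent.P.MP_d66c6d_pr

open MeasureTheory ProbabilityTheory Set Metric Filter Topology
open scoped ENNReal

namespace SolidA

/-- The end points of the first path are joined inside the filling of the two paths. -/
def JGood : Set (TP × TP) :=
  {w | JoinedIn (interior (fill (range w.1.2 ∪ range w.2.2))) (w.1.2 0) (w.1.2 1)}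

lemma meas_Good (hJMS : S_JMS) : MeasurableSet JGood := by
  have hm : Measurable fun w : TP × TP =>
      ((trB w.1.2 ⊔ trB w.2.2, w.1.2 0, w.1.2 1) : KC × ℂ × ℂ) := by fun_prop
  exact hm hJMS

lemma solid (γ : Br) (h : ∀ᵐ s ∂(volume : Measure ℝ).restrict (Ioo 0 1),
    JoinedIn (interior (fill (range γ))) (γ 0) (γ (projIcc 0 1 zero_le_one s))) :
    Solid (range γ) := by
  refine ⟨pathComponentIn (interior (fill (range γ))) (γ 0), pathComponentIn_subset, ?_, ?_⟩
  · by_cases h0 : γ 0 ∈ interior (fill (range γ))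
    · exact (isPathConnected_pathComponentIn h0).isConnected.isPreconnected
    · have : pathComponentIn (interior (fill (range γ))) (γ 0) = ∅ :=
        eq_empty_of_forall_notMem fun y hy => h0 (JoinedIn.source_mem hy)
      rw [this]
      exact isPreconnected_empty
  · rw [ae_restrict_iff' measurableSet_Ioo] at h
    have hd := Measure.dense_of_ae h
    have hc : Continuous fun s : ℝ => γ (projIcc 0 1 zero_le_one s) :=
      γ.continuous.comp continuous_projIcc
    have hcl : IsClosed {s : ℝ | γ (projIcc 0 1 zero_le_one s) ∈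
        closure (pathComponentIn (interior (fill (range γ))) (γ 0))} :=
      isClosed_closure.preimage hc
    have h1 : Ioo (0 : ℝ) 1 ⊆ {s : ℝ | γ (projIcc 0 1 zero_le_one s) ∈
        closure (pathComponentIn (interior (fill (range γ))) (γ 0))} := by
      refine (hd.open_subset_closure_inter isOpen_Ioo).trans (closure_minimal ?_ hcl)
      exact fun s hs => subset_closure (hs.2 hs.1)
    have h2 := closure_minimal h1 hcl
    rw [closure_Ioo zero_ne_one] at h2
    rintro _ ⟨s, rfl⟩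
    have h3 := h2 s.2
    rwa [mem_ofPred_eq, projIcc_val] at h3

end SolidA

open SolidA in
theorem p_SOLID (hNECK : S_NECK) (hJMS : S_JMS) (hMARK : S_MARK) (hLOOP : S_LOOP) (hREV : S_REV) (hCUT : S_CUT) (hMUK : S_MUK) :
    S_SOLID := by
  intro ν hν
  obtain ⟨-, -, -, hrev, -, hend, -, -⟩ := hREV.2 ν hν
  let Ψ : TP × TP → ℝ≥0∞ := JGoodᶜ.indicator 1
  have hΨ : Measurable Ψ := measurable_one.indicator (meas_Good hJMS).compl
  have hΨ0 : ∀ w, Ψ w = 0 ↔ w ∈ JGood := fun w => by
    by_cases h : w ∈ JGood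
    · simp [Ψ, h]
    · simp [Ψ, h]
  have h1 : ∀ x z : ℂ, x ≠ z → ∫⁻ p, ∫⁻ q, Ψ (p, q) ∂grM ν z x ∂grM ν x z = 0 := by
    intro x z hxz
    refine (lintegral_congr_ae ?_).trans lintegral_zero
    filter_upwards [hNECK ν hν x z hxz, hend x z] with p hp hp'
    rw [← hrev x z, lintegral_map (f := fun q => Ψ (p, q)) (by fun_prop) (by fun_prop)]
    refine (lintegral_congr_ae ?_).trans lintegral_zero
    filter_upwards [hp] with q hq
    rw [hΨ0]
    change JoinedIn (interior (fill (range p.2 ∪ range (rev q.2)))) (p.2 0) (p.2 1)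
    rwa [(hCUT.2.2.2.2.2.1 q.2).1, hp'.2.1, hp'.2.2]
  let Φ : TP → ℝ≥0∞ := fun p => ∫⁻ s in Ioo (0 : ℝ) 1,
    Ψ ((s * p.1, sub 0 s p.2), ((1 - s) * p.1, sub s 1 p.2)) ∂volume
  have hF : Measurable fun w : TP × ℝ =>
      Ψ ((w.2 * w.1.1, sub 0 w.2 w.1.2), ((1 - w.2) * w.1.1, sub w.2 1 w.1.2)) :=
    hΨ.comp (by fun_prop)
  have hΦ : Measurable Φ := hF.lintegral_prod_right'
  have h2 : ∀ x : ℂ, ∫⁻ p, (ENNReal.ofReal p.1)⁻¹ * Φ p ∂grM ν x x = 0 := by
    intro x
    have h3 : ∫⁻ p, ENNReal.ofReal p.1 * Φ p ∂grM ν x x = 0 := by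
      refine (hMARK ν hν x x Ψ hΨ).trans ((lintegral_congr_ae ?_).trans lintegral_zero)
      filter_upwards [Measure.ae_ne volume x] with z hz
      exact h1 x z hz.symm
    rw [lintegral_eq_zero_iff (by fun_prop)] at h3
    refine (lintegral_congr_ae ?_).trans lintegral_zero
    filter_upwards [h3, hend x x] with p hp hp'
    have h4 : ENNReal.ofReal p.1 ≠ 0 := by simpa using hp'.1
    rw [(mul_eq_zero.1 hp).resolve_left h4, mul_zero]
  have h5 : ∫⁻ l, Φ (lp l) ∂loopMeasure ν = 0 := by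
    rw [(hLOOP ν hν Φ hΦ).1]
    simp only [h2, lintegral_zero]
  rw [lintegral_eq_zero_iff (by fun_prop)] at h5
  refine (hMUK ν hν).2.2.2.2.2.2.1 (fun K => Solid K) ?_
  filter_upwards [h5] with l hl
  rw [coe_trB]
  refine solid _ ?_
  have h6 := (lintegral_eq_zero_iff (hF.comp (measurable_prodMk_left (x := lp l)))).1 hl
  filter_upwards [h6, ae_restrict_mem measurableSet_Ioo] with s hs hs'
  have h7 := (hΨ0 _).1 hs
  change JoinedIn (interior (fill (range (sub 0 s (lp l).2) ∪ range (sub s 1 (lp l).2))))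
    (sub 0 s (lp l).2 0) (sub 0 s (lp l).2 1) at h7
  rw [← hCUT.2.2.2.2.1 s (Ioo_subset_Icc_self hs'), sub_apply, sub_apply] at h7
  simpa using h7

end Pool.Agent.P.MP_d66c6d_pr
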