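import Pool.Agent.P.MP_d66c6d_pr.J.Iface3
import Pool.Agent.P.MP_d66c6d_pr.S.Iface
import Pool.Agent.P.MP_d66c6d_pr.F.Iface
import Pool.Agent.P.MP_d66c6d_pr.S.Subx

/-! Step SUBY of the carpet project. -/

namespace Pool.Agent.P.MP_d66c6d_pr

open MeasureTheory ProbabilityTheory Set Metric Filter Topology
open scoped ENNReal

open SubxA in
theorem p_SUBY (hDENS : S_DENS) (hTRANS : S_TRANS) (hMUK : S_MUK) :
    S_SUBY := by
  intro ν hν c θ hL
  by_contra hs
  obtain ⟨Ω, _, _, P, Γ, κ, hk, ⟨hP, Ω₀, _, _, P₀, N, hN, hc⟩, hθ⟩ := hL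
  have := hN.prob
  have h1 := hDENS ν hν _ ENNReal.ofReal_ne_top hs
  have hsf : SigmaFinite (loopMeasure ν) := (hMUK ν hν).1
  have hsf2 : SigmaFinite (intensity κ • loopMeasure ν) := by
    rw [hk]
    exact inferInstanceAs (SigmaFinite (c.toNNReal • loopMeasure ν))
  have h2 := hTRANS Ω₀ Lp KC P₀ _ N (fun l => trB (lp l).2) hsf2 hN (by fun_prop)
  rw [Measure.map_smul, hk] at h2
  have h3 : ∀ᵐ ω ∂P₀, Dn (trace '' N ω) := by
    filter_upwards [h2.quasiMeasurePreserving.ae h1] with ω hω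
    rw [sets_map_trace] at hω
    exact hω
  set μ := Measure.infinitePi (fun _ : ℕ => P₀) with hμ
  have h4 : ∀ᵐ ω ∂μ, ∀ k, Dn (trace '' N (ω k)) := ae_all_iff.2 fun k =>
    (measurePreserving_eval_infinitePi (fun _ : ℕ => P₀) k).quasiMeasurePreserving.ae h3
  have h0 : P {ω | (firstCarpet (Γ ω)).Nonempty} = 0 := by
    refine le_antisymm (ENNReal.le_of_forall_pos_le_add fun η hη _ => ?_) zero_le
    obtain ⟨R, hR⟩ := hc 1 one_pos η (by exact_mod_cast hη)
    obtain ⟨Q, q1, q2, q3⟩ := hR (max R 2) (le_max_left _ _)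
    have : IsProbabilityMeasure Q := ⟨by
      rw [← preimage_univ (f := Prod.fst), ← Measure.map_apply measurable_fst MeasurableSet.univ,
        q1, measure_univ]⟩
    have h5 := (transfer Q (fun ω => within 1 (Γ ω))
      (fun ω => within 1 (nested2 (fun k => trace '' N (ω k)) (ball 0 (max R 2))))
      {G | (firstCarpet G).Nonempty}).1
    rw [q1, q2] at h5
    have h6 : μ ((fun ω => within 1 (nested2 (fun k => trace '' N (ω k)) (ball 0 (max R 2)))) ⁻¹'
        {G | (firstCarpet G).Nonempty}) = 0 :=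
      measure_mono_null (fun ω hω h => carpet_empty h (le_max_right _ _) hω) (ae_iff.1 h4)
    rw [h6] at h5
    refine le_trans (le_of_eq ?_) (h5.trans (add_le_add_right q3 _))
    congr 1
    ext ω
    simp only [mem_ofPred_eq, mem_preimage, firstCarpet_within]
  obtain ⟨a, ha, -⟩ := hθ
  obtain ⟨a0, -, a1⟩ := ha 1 one_pos
  refine absurd (a1.trans (le_of_eq (measure_mono_null (fun ω hω => ?_) h0))) (by simp)
  by_contra hn
  have h3 : firstCarpet (Γ ω) = ∅ := not_nonempty_iff_eq_empty.1 hn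
  simp only [mem_ofPred_eq, h3, mem_empty_iff_false, iSup_false, iSup_bot] at hω
  exact absurd hω (by simpa using a0)

end Pool.Agent.P.MP_d66c6d_pr
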