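import Pool.Agent.P.MP_d66c6d_pr.J.Iface2
import Pool.Agent.P.MP_d66c6d_pr.T.Iface
import Pool.Agent.P.MP_d66c6d_pr.B.Iface

/-! Step TOP of the carpet project. -/

namespace Pool.Agent.P.MP_d66c6d_pr

open MeasureTheory ProbabilityTheory Set Metric Filter Topology
open scoped ENNReal

namespace TopA

theorem osc {a c p u : ℂ} {r η : ℝ} (hr : 0 < r) (hη : η ≤ r / 10) (ha : r ≤ dist p a)
    (hc : r ≤ dist p c) (hu : u ∈ ball p η) : u ≠ a ∧ u ≠ c ∧
      ‖(u - a) / (u - c) - (p - a) / (p - c)‖ ≤ ‖(p - a) / (p - c)‖ / 2 := by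
  rw [mem_ball] at hu
  have h1 := dist_triangle_left p a u
  have h2 := dist_triangle_left p c u
  have h3 := dist_triangle_left a c p
  have hua : u ≠ a := dist_pos.1 (by linarith)
  have huc : 0 < dist u c := by linarith
  have hpc : 0 < dist p c := by linarith
  refine ⟨hua, dist_pos.1 huc, ?_⟩
  have h4 := sub_ne_zero.2 (dist_pos.1 huc)
  have h5 := sub_ne_zero.2 (dist_pos.1 hpc)
  rw [show (u - a) / (u - c) - (p - a) / (p - c) = (u - p) * (a - c) / ((u - c) * (p - c)) by
    field_simp; ring]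
  simp only [norm_div, norm_mul, ← dist_eq_norm]
  rw [div_div, div_le_div_iff₀ (by positivity) (by positivity)]
  have h6 : dist u p * dist a c * 2 ≤ dist p a * dist u c := by
    have := dist_nonneg (x := u) (y := p)
    nlinarith [mul_le_mul_of_nonneg_left h3 this, mul_le_mul_of_nonneg_left h2 (hr.le.trans ha),
      mul_le_mul_of_nonneg_left (show 10 * dist u p ≤ dist p c by linarith) (hr.le.trans ha),
      mul_le_mul_of_nonneg_left (show 10 * dist u p ≤ dist p a by linarith) hpc.le]
  nlinarith [mul_le_mul_of_nonneg_left h6 hpc.le]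

theorem arm_comp {γ : Br} {B Z : Set ℂ} (h : range γ \ B ⊆ Z) :
    arm γ B ⊆ connectedComponentIn Z (γ 0) := by
  rintro _ ⟨s, hs, rfl⟩
  refine ((isPreconnected_Icc (a := 0) (b := s)).image γ
    γ.continuous.continuousOn).subset_connectedComponentIn ⟨0, ⟨le_rfl, s.2.1⟩, rfl⟩ ?_
    ⟨s, ⟨s.2.1, le_rfl⟩, rfl⟩
  rintro _ ⟨t, ht, rfl⟩
  exact h ⟨mem_range_self t, hs t ht.2⟩

theorem exists_conn {U P : Set ℂ} {p₀ : ℂ} (h0 : p₀ ∈ U) (hU : ∀ p ∈ U, JoinedIn U p₀ p)
    (hP : P.Finite) (hPU : P ⊆ U) :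
    ∃ A, IsCompact A ∧ IsPreconnected A ∧ p₀ ∈ A ∧ P ⊆ A ∧ A ⊆ U := by
  induction P, hP using Set.Finite.induction_on with
  | empty => exact ⟨{p₀}, isCompact_singleton, isPreconnected_singleton, rfl, empty_subset _,
      singleton_subset_iff.2 h0⟩
  | insert _ _ ih =>
    obtain ⟨A, h1, h2, h3, h4, h5⟩ := ih (subset_insert _ _ |>.trans hPU)
    obtain ⟨γ, hγ⟩ := hU _ (hPU (mem_insert _ _))
    exact ⟨A ∪ range γ, h1.union (isCompact_range γ.continuous),
      h2.union p₀ h3 γ.source_mem_range (isPreconnected_range γ.continuous), .inl h3,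
      insert_subset (.inr γ.target_mem_range) (h4.trans subset_union_left),
      union_subset h5 (range_subset_iff.2 hγ)⟩

end TopA

open TopA in
theorem p_TOP (hNETD : S_NETD) (hFILL : S_FILL) (hEIL : S_EIL) (hLOGA : S_LOGA) (hCUT : S_CUT) :
    S_TOP := by
  intro α β a c r ha hb hc hd hr hB hJ η₀ hη₀
  have hK : IsCompact (range α ∪ range β) :=
    (isCompact_range α.continuous).union (isCompact_range β.continuous)
  obtain ⟨hF, -, -, -, hP, -, -, hj, -⟩ := hFILL _ hK
  replace hP := hP ((isPreconnected_range α.continuous).union a ⟨0, ha⟩ ⟨0, hb⟩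
    (isPreconnected_range β.continuous))
  have hKF := subset_fill (range α ∪ range β)
  generalize fill (range α ∪ range β) = F at hB hJ hF hP hj hKF
  have hi := interior_maximal hB (isOpen_ball.union isOpen_ball)
  have hai : a ∈ interior F := hi (.inl (mem_ball_self hr))
  have hci : c ∈ interior F := hi (.inr (mem_ball_self hr))
  have far : ∀ p ∈ Fᶜ, r ≤ dist p a ∧ r ≤ dist p c := fun p hp =>
    ⟨not_lt.1 fun h => hp (hB (.inl h)), not_lt.1 fun h => hp (hB (.inr h))⟩
  have hE : IsCompact (frontier F) := hF.of_isClosed_subset isClosed_frontier hF.isClosed.frontier_subset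
  obtain ⟨η, h0, h1, h2⟩ : ∃ η > 0, η ≤ η₀ ∧ η ≤ r / 10 :=
    ⟨min η₀ (r / 10), by positivity, min_le_left _ _, min_le_right _ _⟩
  obtain ⟨P, hPF, hPf, hEP⟩ := hE.elim_finite_subcover_image (b := Fᶜ) (c := fun p => ball p (η / 2))
    (fun _ _ => isOpen_ball) fun z hz => by
      obtain ⟨p, hp, h⟩ := Metric.mem_closure_iff.1 (frontier_eq_closure_inter_closure.le hz).2
        (η / 2) (by positivity)
      exact mem_biUnion hp h
  obtain ⟨p₀, hp₀⟩ := (ne_univ_iff_exists_notMem F).1 hF.ne_univ
  obtain ⟨A, hA, hAc, -, hPA, hAF⟩ := exists_conn (U := Fᶜ) hp₀ (hj p₀ hp₀) hPf hPF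
  have haA : a ∉ A := fun h => hAF h (interior_subset hai)
  have hcA : c ∉ A := fun h => hAF h (interior_subset hci)
  obtain ⟨L, hL, hLe⟩ := (hEIL.2.1 A hA a haA c hcA).1 (hP.subset_connectedComponentIn
    (interior_subset hai) (subset_compl_comm.1 hAF) (interior_subset hci))
  by_contra hn
  refine hJ ?_
  have hG : HasLog (fun z => (z - a) / (z - c)) (frontier F) := by
    refine hNETD _ P _ L (η / 2) η (by linarith) (ContinuousOn.div (by fun_prop) (by fun_prop)
      fun z hz e => hz.2 (sub_eq_zero.1 e ▸ hci)) hEP (fun p hp => hLe p (hPA hp))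
      (fun p hp u hu => (osc hr h2 (far p (hPF hp)).1 (far p (hPF hp)).2 hu).2.2)
      fun p hp p' hp' hpp => ?_
    obtain ⟨h3, h4⟩ := far p (hPF hp)
    have hS : segment ℝ p p' ⊆ ball p η := (convex_ball p η).segment_subset (mem_ball_self h0)
      (mem_ball'.2 (by linarith))
    have hY : IsCompact (A ∪ segment ℝ p p') := hA.union (by
      rw [segment_eq_image]
      exact isCompact_Icc.image (by fun_prop))
    have haY : a ∉ A ∪ segment ℝ p p' := fun h =>
      h.elim haA fun h => (osc hr h2 h3 h4 (hS h)).1 rfl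
    have hcY : c ∉ A ∪ segment ℝ p p' := fun h =>
      h.elim hcA fun h => (osc hr h2 h3 h4 (hS h)).2.1 rfl
    have hZ : (range α ∪ range β) \ closedBall p η ⊆ (A ∪ segment ℝ p p')ᶜ := fun z hz h =>
      h.elim (fun h => hAF h (hKF hz.1)) fun h => hz.2 (ball_subset_closedBall (hS h))
    obtain ⟨M, hM, hMe⟩ := (hEIL.2.1 _ hY a haY c hcY).1 (by_contra fun h => by
      have hm : ∀ γ : Br, γ 0 = a → γ 1 = c → range γ ⊆ range α ∪ range β →
          (range γ ∩ closedBall p η).Nonempty ∧
          arm γ (closedBall p η) ⊆ connectedComponentIn (A ∪ segment ℝ p p')ᶜ a ∧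
          arm (rev γ) (closedBall p η) ⊆ connectedComponentIn (A ∪ segment ℝ p p')ᶜ c :=
        fun γ e0 e1 hγ => by
          have h5 := (sdiff_subset_sdiff_left hγ).trans hZ
          refine ⟨by_contra fun h6 => h ((isPreconnected_range
            γ.continuous).subset_connectedComponentIn ⟨0, e0⟩
              (fun z hz => h5 ⟨hz, fun h7 => h6 ⟨z, hz, h7⟩⟩) ⟨1, e1⟩), e0 ▸ arm_comp h5, ?_⟩
          rw [← show rev γ 0 = c by simpa [rev, sub_apply] using e1]
          exact arm_comp (by rwa [(hCUT.2.2.2.2.2.1 γ).1])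
      obtain ⟨a1, a2, a3⟩ := hm α ha hc subset_union_left
      obtain ⟨b1, b2, b3⟩ := hm β hb hd subset_union_right
      refine hn ⟨p, h3, h4, Neck.mono ⟨a1, b1, disjoint_left.2 fun z hz hz' => h ?_⟩
        (closedBall_subset_closedBall h1)⟩
      rw [connectedComponentIn_eq (union_subset a2 b2 hz),
        ← connectedComponentIn_eq (union_subset a3 b3 hz')]
      exact mem_connectedComponentIn hcY)
    have hp0 : (p - a) / (p - c) ≠ 0 := div_ne_zero (sub_ne_zero.2 (dist_pos.1 (hr.trans_le h3)))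
      (sub_ne_zero.2 (dist_pos.1 (hr.trans_le h4)))
    have hsl : ∀ u ∈ segment ℝ p p', (u - a) / (u - c) / ((p - a) / (p - c)) ∈ Complex.slitPlane :=
      fun u hu => by
        refine Complex.ball_one_subset_slitPlane (mem_ball_iff_norm.2 ?_)
        rw [div_sub_one hp0, norm_div, div_lt_one (norm_pos_iff.2 hp0)]
        exact (osc hr h2 h3 h4 (hS hu)).2.2.trans_lt (half_lt_self (norm_pos_iff.2 hp0))
    have e1 := hLOGA.2.2.2.1 A L M hAc hL (hM.mono subset_union_left)
      (fun z hz => (hLe z hz).trans (hMe z (.inl hz)).symm) p (hPA hp) p' (hPA hp')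
    have e2 := hLOGA.2.2.2.1 _ M
      (fun u => M p + Complex.log ((u - a) / (u - c) / ((p - a) / (p - c))))
      (convex_segment p p').isPreconnected (hM.mono subset_union_right)
      (continuousOn_const.add (ContinuousOn.clog (ContinuousOn.div_const (ContinuousOn.div
        (by fun_prop) (by fun_prop) fun z hz => sub_ne_zero.2 (osc hr h2 h3 h4 (hS hz)).2.1) _) hsl))
      (fun z hz => by
        rw [Complex.exp_add, Complex.exp_log (Complex.slitPlane_ne_zero (hsl z hz)),
          hMe z (.inr hz), hMe p (.inl (hPA hp)), mul_div_cancel₀ _ hp0])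
      p (left_mem_segment _ _ _) p' (right_mem_segment _ _ _)
    rw [div_self hp0, Complex.log_one] at e2
    linear_combination -e2 - e1
  have haE : a ∉ frontier F := fun h => h.2 hai
  have hC := (hEIL.2.1 _ hE a haE c fun h => h.2 hci).2 hG
  refine (((isClosed_frontier.isOpen_compl.connectedComponentIn).isConnected_iff_isPathConnected.1
    (isConnected_connectedComponentIn_iff.2 haE)).joinedIn a (mem_connectedComponentIn haE)
      c hC).mono ?_
  exact isPreconnected_connectedComponentIn.subset_left_of_subset_union isOpen_interior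
    isOpen_interior (disjoint_compl_right.mono interior_subset interior_subset)
    ((connectedComponentIn_subset _ _).trans compl_frontier_eq_union_interior.le)
    ⟨a, mem_connectedComponentIn haE, hai⟩

end Pool.Agent.P.MP_d66c6d_pr
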