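import Pool.Agent.P.MP_d66c6d_pr.J.Iface2
import Pool.Agent.P.MP_d66c6d_pr.T.Iface
import Pool.Agent.P.MP_d66c6d_pr.T.Fill
import Pool.Agent.P.MP_d66c6d_pr.S.Covr

/-! Step UFAM of the carpet project. -/

namespace Pool.Agent.P.MP_d66c6d_pr

open MeasureTheory ProbabilityTheory Set Metric Filter Topology
open scoped ENNReal

namespace UfamA

/-- A finite union of rational discs. -/
def Un (t : Finset (ℚ × ℚ × ℚ)) : Set ℂ := ⋃ q ∈ t, closedBall (qp q) q.2.2

theorem compact_Un (t : Finset (ℚ × ℚ × ℚ)) : IsCompact (Un t) :=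
  t.isCompact_biUnion fun q _ => isCompact_closedBall _ _

theorem exists_disc' {O : Set ℂ} (hO : IsOpen O) {x : ℂ} (hx : x ∈ O) :
    ∃ q : ℚ × ℚ × ℚ, x ∈ ball (qp q) q.2.2 ∧ closedBall (qp q) q.2.2 ⊆ O := by
  obtain ⟨ε, hε, hb⟩ := Metric.isOpen_iff.1 hO x hx
  obtain ⟨q, hq0, hxq, hq⟩ := CovrA.exists_disc (O := ball x (ε / 4)) isOpen_ball
    (mem_ball_self (by positivity))
  have hq0' : (0 : ℝ) < q.2.2 := by exact_mod_cast hq0
  have hc : qp q ∈ ball x (ε / 4) := hq (mem_closedBall_self hq0'.le)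
  obtain ⟨r, h0, h1⟩ := exists_rat_btwn (show ε / 4 < ε / 2 by linarith)
  have e : qp (q.1, q.2.1, r) = qp q := rfl
  refine ⟨(q.1, q.2.1, r), ?_, ?_⟩
  · rw [e, mem_ball, dist_comm]
    exact (mem_ball.1 hc).trans h0
  · rw [e]
    refine (closedBall_subset_ball' ?_).trans hb
    have := mem_ball.1 hc
    change (r : ℝ) + _ < ε
    linarith

theorem noHole_comp (hFILL : S_FILL) {A : Set ℂ} (hA : IsCompact A) (a : ℂ) :
    NoHole (connectedComponentIn (interior (fill A)) a) := by
  intro K hK hKU z hz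
  by_cases hzK : z ∈ K
  · exact hKU hzK
  have hKW : K ⊆ interior (fill A) := hKU.trans (connectedComponentIn_subset _ _)
  have h1 : fill K ⊆ fill A := by
    rw [← (hFILL A hA).2.2.1]
    exact fill_mono (hKW.trans interior_subset)
  have h2 : connectedComponentIn Kᶜ z ⊆ interior (fill A) :=
    (FillA.comp_subset_interior hK hz).trans (interior_mono h1)
  have h3 : closure (connectedComponentIn Kᶜ z) ⊆ interior (fill A) :=
    (FillA.closure_comp hK z).trans (union_subset h2 hKW)
  obtain ⟨p, hp, hpK⟩ := FillA.closure_meets hK hz hzK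
  have h4 := isPreconnected_connectedComponentIn.closure.subset_connectedComponentIn hp h3
  rw [connectedComponentIn_eq (hKU hpK)]
  exact h4 (subset_closure (mem_connectedComponentIn hzK))

end UfamA

open UfamA in
theorem p_UFAM (hFILL : S_FILL) :
    S_UFAM := by
  refine ⟨range fun p : Finset (ℚ × ℚ × ℚ) × ℕ =>
    connectedComponentIn (interior (fill (Un p.1))) (dn p.2), countable_range _, ?_, ?_⟩
  · rintro _ ⟨⟨t, j⟩, rfl⟩
    refine ⟨isOpen_interior.connectedComponentIn, isPreconnected_connectedComponentIn,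
      noHole_comp hFILL (compact_Un t) _, ?_⟩
    exact (hFILL _ (compact_Un t)).1.isBounded.subset
      ((connectedComponentIn_subset _ _).trans interior_subset)
  · intro V Q hV hN hQ hQc hne hQV
    choose! f hf1 hf2 using fun x (hx : x ∈ Q) => exists_disc' hV (hQV hx)
    obtain ⟨s, hsQ, hs⟩ := hQ.elim_nhds_subcover (fun x => ball (qp (f x)) (f x).2.2)
      fun x hx => isOpen_ball.mem_nhds (hf1 x hx)
    classical
    have hAV : Un (s.image f) ⊆ V := by
      intro z hz
      simp only [Un, mem_iUnion, Finset.mem_image] at hz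
      obtain ⟨q, ⟨x, hx, rfl⟩, hz⟩ := hz
      exact hf2 x (hsQ x hx) hz
    have hQW : Q ⊆ interior (fill (Un (s.image f))) := by
      intro z hz
      obtain ⟨x, hx, hz⟩ := mem_iUnion₂.1 (hs hz)
      refine interior_maximal ?_ isOpen_ball hz
      refine ball_subset_closedBall.trans (Subset.trans ?_ (subset_fill _))
      exact subset_biUnion_of_mem (u := fun q : ℚ × ℚ × ℚ => closedBall (qp q) (q.2.2 : ℝ))
        (Finset.mem_coe.2 (Finset.mem_image_of_mem f hx))
    obtain ⟨a, ha⟩ := hne
    have ho : IsOpen (connectedComponentIn (interior (fill (Un (s.image f)))) a) :=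
      isOpen_interior.connectedComponentIn
    obtain ⟨j, hj⟩ := denseRange_dn.exists_mem_open ho ⟨a, mem_connectedComponentIn (hQW ha)⟩
    refine ⟨_, ⟨(s.image f, j), rfl⟩, ?_, ?_⟩
    · show Q ⊆ connectedComponentIn _ (dn j)
      rw [← connectedComponentIn_eq hj]
      exact hQc.subset_connectedComponentIn ha hQW
    · exact (connectedComponentIn_subset _ _).trans
        (interior_subset.trans (hN _ (compact_Un _) hAV))

end Pool.Agent.P.MP_d66c6d_pr
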